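import Pool.Agent.Lib.MP_530e0f_al.Core

/-! Elementary moves on factorisations. -/

namespace Pool.Agent.Lib.MP_530e0f_al

open Module Submodule
open LinearMap hiding sub_apply smul_apply add_apply zero_apply neg_apply

universe u

variable {F : Type u} [Field F]
variable {V U : Type u} [AddCommGroup V] [Module F V] [AddCommGroup U] [Module F U]

/-- rank increasing rank-one move -/
def UpMove (N N' : End F V) : Prop :=
  ∃ (y : V) (φ : V →ₗ[F] F), N' = N + φ.smulRight y ∧ φ y = 0 ∧ y ∉ range N ∧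
    (∃ x0, N x0 = 0 ∧ φ x0 = 1) ∧ (N y = 0 ∨ ∀ x, φ (N x) = 0)

theorem UpMove.range_le {N N' : End F V} (h : UpMove N N') : range N < range N' := by
  obtain ⟨y, φ, rfl, -, h2, ⟨x0, h3, h4⟩, -⟩ := h
  have hy : y ∈ range (N + φ.smulRight y) := ⟨x0, by simp [h3, h4]⟩
  refine lt_of_le_of_ne ?_ (fun e => h2 (e ▸ hy))
  rintro _ ⟨x, rfl⟩
  have := sub_mem (⟨x, rfl⟩ : (N + φ.smulRight y) x ∈ range (N + φ.smulRight y))
    (smul_mem _ (φ x) hy)
  simpa using this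

theorem UpMove.rk_lt [FiniteDimensional F V] {N N' : End F V} (h : UpMove N N') : rk N < rk N' :=
  Submodule.finrank_lt_finrank_of_lt h.range_le

theorem UpMove.flanders {N N' : End F V} (h : UpMove N N') :
    ∃ (α : range N' →ₗ[F] V) (β : V →ₗ[F] range N'), α ∘ₗ β = N ∧
      β ∘ₗ α = N'.rangeRestrict ∘ₗ (range N').subtype := by
  have hle := h.range_le.le
  obtain ⟨y, φ, rfl, h1, h2, -, h5 | h5⟩ := h
  · obtain ⟨g, g1, g2⟩ := exists_fun h2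
    have g3 : ∀ x, g (N x) = 0 := fun x => g2 _ ⟨x, rfl⟩
    refine ⟨(1 - g.smulRight y : End F V) ∘ₗ Submodule.subtype _, rangeRestrict _, ?_, ?_⟩
    · ext x; simp [g1, g3]
    · ext x; simp [h1, h5]
  · refine ⟨Submodule.subtype _, N.codRestrict _ (fun x => hle ⟨x, rfl⟩), ?_, ?_⟩
    · ext x; simp
    · ext ⟨_, x, rfl⟩; simp [h1, h5]

theorem avail_i (a : U →ₗ[F] V) (b : V →ₗ[F] U) (y : V) (h1 : b y = 0) (h2 : y ∉ range a)
    (x0 : V) (h3 : b x0 ≠ 0) (h4 : a (b x0) = 0) :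
    ∃ (a' : U →ₗ[F] V) (b' : V →ₗ[F] U), b' ∘ₗ a' = b ∘ₗ a ∧ UpMove (a ∘ₗ b) (a' ∘ₗ b') := by
  obtain ⟨η, hη⟩ := exists_fun_ne (F := F) h3
  refine ⟨a + η.smulRight y, b, ?_, y, η ∘ₗ b, ?_, by simp [h1], fun ⟨x, hx⟩ => h2 ⟨_, hx⟩,
    ⟨x0, h4, hη⟩, Or.inl (by simp [h1])⟩
  · ext u; simp [h1]
  · ext u; simp

theorem avail_v [FiniteDimensional F V] [FiniteDimensional F U] (a : U →ₗ[F] V) (b : V →ₗ[F] U)
    (y : V) (h1 : b y = 0) (h2 : y ∉ range a) :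
    (∃ (a' : U →ₗ[F] V) (b' : V →ₗ[F] U), b' ∘ₗ a' = b ∘ₗ a ∧ UpMove (a ∘ₗ b) (a' ∘ₗ b')) ∨
    finrank F U ≤ rk (a ∘ₗ b) ∨ (ker (a ∘ₗ b) ≤ range (a ∘ₗ b) ⊔ F ∙ y ∧
      ((a ∘ₗ b) * (a ∘ₗ b) = 0 → b ∘ₗ a = 0)) := by
  by_cases c1 : ∃ x0, b x0 ≠ 0 ∧ a (b x0) = 0
  · obtain ⟨x0, h3, h4⟩ := c1
    exact Or.inl (avail_i a b y h1 h2 x0 h3 h4)
  push Not at c1
  have c1' : ∀ x, a (b x) = 0 → b x = 0 := fun x h => by_contra fun h' => c1 x h' h
  by_cases c2 : ∃ u, a u ∉ range (a ∘ₗ b)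
  · obtain ⟨u, hu⟩ := c2
    obtain ⟨f, f1, f2⟩ := exists_fun h2
    have f3 : ∀ u, f (a u) = 0 := fun u => f2 _ ⟨u, rfl⟩
    refine Or.inl ⟨a, b + f.smulRight u, ?_, a u, f, ?_, f3 u, hu, ⟨y, by simp [h1], f1⟩,
      Or.inr fun x => f3 _⟩
    · ext u; simp [f3]
    · ext u; simp
  push Not at c2
  by_cases c3 : ker a = ⊥
  · refine Or.inr (Or.inl ?_)
    rw [← rk_inj a (ker_eq_bot.1 c3)]
    exact Submodule.finrank_mono (by rintro _ ⟨u, rfl⟩; exact c2 u)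
  obtain ⟨u, hu, hu0⟩ := Submodule.exists_mem_ne_zero_of_ne_bot c3
  have hu' : a u = 0 := hu
  by_cases c4 : ∃ y2, b y2 = 0 ∧ y2 ∉ range a ⊔ F ∙ y
  · obtain ⟨y2, k1, k2⟩ := c4
    obtain ⟨f, f1, f2⟩ := exists_fun k2
    have f3 : ∀ u, f (a u) = 0 := fun u => f2 _ (mem_sup_left ⟨u, rfl⟩)
    have f4 : f y = 0 := f2 _ (mem_sup_right (mem_span_singleton_self _))
    obtain ⟨a', b', e1, e2⟩ := avail_i a (b + f.smulRight u) y (by simp [h1, f4]) h2 y2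
      (by simpa [k1, f1] using hu0) (by simp [k1, hu'])
    refine Or.inl ⟨a', b', ?_, ?_⟩
    · rw [e1]; ext u; simp [f3]
    · convert e2 using 1; ext x; simp [hu']
  push Not at c4
  refine Or.inr (Or.inr ⟨fun x hx => ?_, fun h => ?_⟩)
  · have : range a ≤ range (a ∘ₗ b) := by rintro _ ⟨u, rfl⟩; exact c2 u
    exact sup_le_sup_right this _ (c4 x (c1' x hx))
  · ext u
    obtain ⟨x, hx⟩ := c2 u
    rw [comp_apply, ← hx]
    exact c1' _ congr($h x)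

theorem avail [FiniteDimensional F V] [FiniteDimensional F U] (a : U →ₗ[F] V) (b : V →ₗ[F] U)
    (y : V) (h1 : b y = 0) (h2 : y ∉ range (a ∘ₗ b)) :
    (∃ (a' : U →ₗ[F] V) (b' : V →ₗ[F] U), b' ∘ₗ a' = b ∘ₗ a ∧ UpMove (a ∘ₗ b) (a' ∘ₗ b')) ∨
    finrank F U ≤ rk (a ∘ₗ b) ∨ (ker (a ∘ₗ b) ≤ range (a ∘ₗ b) ⊔ F ∙ y ∧
      ((a ∘ₗ b) * (a ∘ₗ b) = 0 → b ∘ₗ a = 0)) := by
  by_cases h3 : y ∈ range a
  swap
  · exact avail_v a b y h1 h3
  obtain ⟨u1, hu1⟩ := h3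
  obtain ⟨η, η1, η2⟩ := exists_fun (p := range b ⊔ ker a) (v := u1) (by
    intro h
    obtain ⟨_, ⟨x, rfl⟩, k, hk, e⟩ := mem_sup.1 h
    apply h2
    refine ⟨x, ?_⟩
    rw [← hu1, ← e, map_add, mem_ker.1 hk, add_zero]; rfl)
  have η3 : ∀ x, η (b x) = 0 := fun x => η2 _ (mem_sup_left ⟨x, rfl⟩)
  have e1 : (a - η.smulRight y) ∘ₗ b = a ∘ₗ b := by ext x; simp [η3]
  have e2 : b ∘ₗ (a - η.smulRight y) = b ∘ₗ a := by ext x; simp [h1]
  have := avail_v (a - η.smulRight y) b y h1 (by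
    rintro ⟨u, hu⟩
    have k : u - (1 + η u) • u1 ∈ ker a := by
      simp only [LinearMap.sub_apply, smulRight_apply] at hu
      rw [mem_ker, map_sub, map_smul, hu1]
      linear_combination (norm := module) hu
    have := η2 _ (mem_sup_right k)
    simp [η1] at this)
  rwa [e1, e2] at this

theorem rk_smulRight_le {W : Type u} [AddCommGroup W] [Module F W] (φ : V →ₗ[F] F) (y : W) :
    rk (φ.smulRight y) ≤ 1 := by
  have : range (φ.smulRight y) ≤ F ∙ y := by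
    rintro _ ⟨x, rfl⟩; exact smul_mem _ _ (mem_span_singleton_self _)
  refine (Submodule.finrank_mono this).trans ?_
  simpa using finrank_span_le_card (R := F) ({y} : Set W)

theorem flip [FiniteDimensional F V] (a : U →ₗ[F] V) (b : V →ₗ[F] U)
    (hN : ∀ x, a (b (a (b x))) = 0) (y : V) (h1 : b y = 0) (h2 : y ∈ range (a ∘ₗ b)) (u : U)
    (h3 : a (b (a u)) ≠ 0) (h4 : ∀ c : F, y ≠ c • a (b (a u))) :
    ∃ (a' : U →ₗ[F] V) (b' : V →ₗ[F] U), b' ∘ₗ a' = b ∘ₗ a ∧ rk (a' ∘ₗ b') = rk (a ∘ₗ b) ∧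
      (a' ∘ₗ b') * (a' ∘ₗ b') ≠ 0 ∧ rk ((a' ∘ₗ b') * (a' ∘ₗ b')) ≤ 1 ∧
      (a' ∘ₗ b') * ((a' ∘ₗ b') * (a' ∘ₗ b')) = 0 := by
  obtain ⟨ψ, p1, p2⟩ := exists_fun (p := (F ∙ a u) ⊔ F ∙ a (b (a u))) (v := y) (by
    intro h
    obtain ⟨_, k1, _, k2, e⟩ := mem_sup.1 h
    obtain ⟨c, rfl⟩ := mem_span_singleton.1 k1
    obtain ⟨d, rfl⟩ := mem_span_singleton.1 k2
    have := congrArg (fun x => a (b x)) e
    simp only [map_add, map_smul, hN, h1, map_zero, smul_zero, add_zero, smul_eq_zero, h3,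
      or_false] at this
    rw [this, zero_smul, zero_add] at e
    exact h4 d e.symm)
  have p3 : ψ (a u) = 0 := p2 _ (mem_sup_left (mem_span_singleton_self _))
  have p4 : ψ (a (b (a u))) = 0 := p2 _ (mem_sup_right (mem_span_singleton_self _))
  let a' : U →ₗ[F] V := a - (ψ ∘ₗ a).smulRight y
  let b' : V →ₗ[F] U := b + ψ.smulRight u
  have hN' : ∀ x, a' (b' x) = a (b x) - ψ (a (b x)) • y + ψ x • a u := fun x => by
    simp only [a', b', LinearMap.sub_apply, LinearMap.add_apply, smulRight_apply, comp_apply,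
      map_add, map_smul, p3]
    module
  have hsq : (a' ∘ₗ b') * (a' ∘ₗ b') = ψ.smulRight (a (b (a u))) := by
    ext x
    simp only [End.mul_apply, comp_apply, hN', map_add, map_sub, map_smul, hN, h1, p1, p3, p4,
      map_zero, smulRight_apply, smul_eq_mul]
    module
  refine ⟨a', b', ?_, ?_, ?_, by rw [hsq]; exact rk_smulRight_le _ _, ?_⟩
  · ext x; simp [a', b', h1, p1]
  · have e : range (a' ∘ₗ b') = (range (a ∘ₗ b) ⊓ ker ψ) ⊔ F ∙ a u := by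
      apply le_antisymm
      · rintro _ ⟨x, rfl⟩
        rw [comp_apply, hN']
        exact add_mem (mem_sup_left ⟨sub_mem ⟨x, rfl⟩ (smul_mem _ _ h2), by simp [p1]⟩)
          (mem_sup_right (smul_mem _ _ (mem_span_singleton_self _)))
      · have hv : a u ∈ range (a' ∘ₗ b') := ⟨y, by simp [hN', h1, p1]⟩
        refine sup_le ?_ ((span_singleton_le_iff_mem _ _).2 hv)
        rintro _ ⟨⟨x, rfl⟩, hx⟩
        have hx' : ψ (a (b x)) = 0 := hx
        have := sub_mem (⟨x, rfl⟩ : (a' ∘ₗ b') x ∈ range (a' ∘ₗ b')) (smul_mem _ (ψ x) hv)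
        simpa [hN', hx'] using this
    unfold rk
    rw [e, finrank_sup_span, finrank_inf_ker _ ψ h2 p1]
    rintro ⟨⟨x, hx⟩, -⟩
    apply h3
    rw [← hx]; exact hN x
  · rw [hsq]
    intro h
    apply h3
    simpa [p1] using congr($h y)
  · rw [hsq]
    ext x
    simp [hN', hN, p4]

theorem rematch (a : U →ₗ[F] V) (b : V →ₗ[F] U) (h1 : ∀ u, a (b (a u)) = 0)
    (h2 : ∀ x, b (a (b x)) = 0) (u1 : U) (h3 : b (a u1) ≠ 0) (x : V) (h4 : a (b x) ≠ 0) :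
    ∃ (a' : U →ₗ[F] V) (b' : V →ₗ[F] U), a' ∘ₗ b' = a ∘ₗ b ∧ b' ∘ₗ a' = b ∘ₗ a ∧
      ∃ y', b' y' = 0 ∧ y' ∉ range (a ∘ₗ b) := by
  obtain ⟨θ, t1, t2⟩ := exists_fun2 (F := F) (v := a (b x)) (w := a u1 - a (b x)) (by
    intro c hc
    have := congrArg b hc
    simp only [map_smul, map_sub, h2, sub_zero] at this
    rw [(smul_eq_zero.1 this.symm).resolve_right h3, zero_smul] at hc
    exact h4 hc)
  have t3 : θ (a u1) = 1 := by rw [map_sub, t1, sub_eq_zero] at t2; exact t2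
  refine ⟨a - (θ ∘ₗ a).smulRight (a u1 - a (b x)),
    b + (θ ∘ₗ a ∘ₗ b).smulRight (u1 - b x) + θ.smulRight (b (a u1)), ?_, ?_,
    a (b x) - (a u1 - a (b x)), ?_, ?_⟩
  · ext v
    simp only [comp_apply, LinearMap.sub_apply, LinearMap.add_apply, smulRight_apply, map_add,
      map_smul, map_sub, h1, t1, t3, smul_eq_mul, map_zero]
    module
  · ext v
    simp only [comp_apply, LinearMap.sub_apply, LinearMap.add_apply, smulRight_apply, map_add,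
      map_smul, map_sub, h1, h2, t1, t3, smul_eq_mul, map_zero]
    module
  · simp only [comp_apply, LinearMap.sub_apply, LinearMap.add_apply, smulRight_apply, map_add,
      map_smul, map_sub, h1, h2, t1, t3, smul_eq_mul, map_zero]
    module
  · rintro ⟨v, hv⟩
    have := congrArg b hv
    simp only [comp_apply, h2, map_sub] at this
    exact h3 (by simpa using this)

theorem rank_one_nil [FiniteDimensional F V] (E : End F V) (h1 : rk E ≤ 1) (h2 : E * E = 0)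
    (h3 : E ≠ 0) : ∃ (u : V) (η : V →ₗ[F] F), E = η.smulRight u ∧ η u = 0 ∧ u ≠ 0 ∧
      ∃ x, η x = 1 := by
  obtain ⟨⟨v, hv⟩, h⟩ := finrank_le_one_iff.1 h1
  obtain ⟨x, hx⟩ : ∃ x, E x ≠ 0 := by
    by_contra h; push Not at h; exact h3 (LinearMap.ext h)
  obtain ⟨g, hg⟩ := exists_fun_ne (F := F) hx
  obtain ⟨c, hc⟩ := h ⟨E x, x, rfl⟩
  have hc' : c • v = E x := congrArg Subtype.val hc
  refine ⟨E x, g ∘ₗ E, ?_, ?_, hx, x, hg⟩
  · ext z
    obtain ⟨d, hd⟩ := h ⟨E z, z, rfl⟩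
    have hd' : d • v = E z := congrArg Subtype.val hd
    rw [← hc', map_smul, smul_eq_mul] at hg
    rw [smulRight_apply, comp_apply, ← hd', ← hc', map_smul, smul_smul, smul_eq_mul]
    congr 1
    linear_combination (-d) * hg
  · have : E (E x) = 0 := congr($h2 x)
    simp [this]

theorem conj_rank_one [FiniteDimensional F V] (u u' : V) (η η' : V →ₗ[F] F) (h1 : η u = 0)
    (h2 : u ≠ 0) (h3 : ∃ x, η x = 1) (h1' : η' u' = 0) (h2' : u' ≠ 0) (h3' : ∃ x, η' x = 1) :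
    ∃ e : V ≃ₗ[F] V, ∀ x, e (η.smulRight u x) = η'.smulRight u' (e x) := by
  obtain ⟨x, hx⟩ := h3
  obtain ⟨x', hx'⟩ := h3'
  obtain ⟨e, e1, e2⟩ := unique_exact (toSpanSingleton F V u) η (toSpanSingleton F V u') η'
    (smul_left_injective F h2) (fun c => ⟨c • x, by simp [hx]⟩)
    (smul_left_injective F h2') (fun c => ⟨c • x', by simp [hx']⟩) (by ext; simp [h1, h1']) rfl
  exact ⟨e, fun z => by rw [smulRight_apply, smulRight_apply, e2]; exact e1 _⟩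

end Pool.Agent.Lib.MP_530e0f_al
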