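import Pool.Agent.Lib.MP_530e0f_al.Base
import Pool.Agent.Lib.MP_530e0f_al.Moves

/-! Mutating back, and lifting rank-one moves. -/

namespace Pool.Agent.Lib.MP_530e0f_al

open Module Submodule
open LinearMap hiding sub_apply smul_apply add_apply zero_apply neg_apply

universe u

variable {F : Type u} [Field F]
variable {V U : Type u} [AddCommGroup V] [Module F V] [AddCommGroup U] [Module F U]

@[simp] theorem sh_add_self (N : End F V) (c : F) : sh (c • 1 + N) c = N := by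
  simp [sh]

theorem sh_add (N : End F V) (c d : F) : sh (c • 1 + N) d = sh N (d - c) := by
  ext x; simp only [sh_apply, LinearMap.add_apply, LinearMap.smul_apply, End.one_apply]; module

variable [FiniteDimensional F V] [FiniteDimensional F U]

theorem gp_of_big (J1 J2 J3 : End F V) (l : F) (a : U →ₗ[F] V) (b : V →ₗ[F] U)
    (ha : Function.Injective a) (hb : Function.Surjective b) (hlt : 2 * finrank F U < finrank F V)
    (hp : J1 * J2 * J3 = l • 1 + a ∘ₗ b)
    (big : ∀ (p : Submodule F V) (U' : Submodule F U), Inv3 J1 J2 J3 p → (∀ y ∈ U', a y ∈ p) →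
      (∀ y ∈ p, b y ∈ U') → 2 * finrank F U' ≤ finrank F p ∧
        finrank F p + 2 * finrank F U ≤ finrank F V + 2 * finrank F U') : GP J1 J2 J3 := by
  intro c hc p hp' K0 I0 hK hI hD
  have hab : ∀ y ∈ p, a (b y) ∈ p := fun y hy => by
    have h1 : (J1 * J2 * J3) y ∈ p := hp'.1 _ (hp'.2.1 _ (hp'.2.2 _ hy))
    rw [hp] at h1
    simpa using sub_mem h1 (smul_mem _ l hy)
  rw [hp] at hK hI hD
  have k : K0 ≤ range a ∧ ker b ≤ I0 := by
    by_cases e : c = l
    · subst e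
      obtain ⟨k1, k2⟩ := hD (by unfold Dom; rw [sh_add_self, rk_exact a b ha hb]; exact hlt)
      rw [sh_add_self] at k1 k2
      exact ⟨k1.trans (range_comp_le_range _ _), (ker_le_ker_comp _ _).trans k2⟩
    · have k1 := ker_le_range_sh (l • 1 + a ∘ₗ b) e
      have k2 := ker_le_range_sh (l • 1 + a ∘ₗ b) (Ne.symm e)
      rw [sh_add_self] at k1 k2
      exact ⟨(hK.trans k1).trans (range_comp_le_range _ _),
        (ker_le_ker_comp _ _).trans (k2.trans hI)⟩
  constructor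
  · have h1 := (big p (p.comap a) hp' (fun y hy => hy) hab).1
    rw [finrank_comap_inj a ha] at h1
    have := Submodule.finrank_mono (inf_le_inf_left p k.1)
    omega
  · have h1 := (big p (p.map b) hp' (by rintro _ ⟨y, hy, rfl⟩; exact hab y hy)
      (fun y hy => ⟨y, hy, rfl⟩)).2
    have h2 := finrank_map_add b p
    have h3 := Submodule.finrank_sup_add_finrank_inf_eq p (ker b)
    have h4 := rk_add_ker b
    rw [rk_surj b hb] at h4
    have := Submodule.finrank_mono (sup_le_sup_left k.2 p)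
    omega

theorem back {l : F} (h0 : l ≠ 0) (h4 : l ^ 4 ≠ 1) (a : U →ₗ[F] V) (b : V →ₗ[F] U)
    (ha : Function.Injective a) (hb : Function.Surjective b) (hlt : 2 * finrank F U < finrank F V)
    (M' : Mod F U) (hM : M'.Ok l⁻¹ (l ^ 2 • (l • 1 + b ∘ₗ a)))
    (hd : finrank F V + M'.dim = 4 * finrank F U) (hs : M'.Sm) : GSol (l • 1 + a ∘ₗ b) := by
  obtain ⟨M, o, d, s⟩ := mutate hM (inv_ne_zero h0) (inv_pow_four h4)
  rw [inv_inv, smul_smul, show l⁻¹ ^ 2 * l ^ 2 = 1 by field_simp, one_smul] at o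
  have big : ∀ U' x, M.Sub U' x → 2 * finrank F U' ≤ x ∧
      x + 2 * finrank F U ≤ finrank F V + 2 * finrank F U' := by
    intro U' x hx
    obtain ⟨x', k1, k2⟩ := s U' x hx
    have := hs U' x' k1
    omega
  have ha' : Function.Injective M.a := by
    have := (big (ker M.a) 0 ⟨⊥, ⟨by simp, by simp, by simp⟩, fun y hy => hy, by simp,
      by simp⟩).1
    rw [← ker_eq_bot, ← Submodule.finrank_eq_zero]; omega
  have hb' : Function.Surjective M.b := by
    have := (big (range M.b) M.dim ⟨⊤, ⟨by simp, by simp, by simp⟩, by simp, by simp,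
      by simp⟩).2
    exact surj_of_rk _ (by unfold rk; omega)
  obtain ⟨e, e1, e2⟩ := unique_exact M.a M.b a b ha' hb' ha hb (add_left_cancel o.red).symm
    (by change M.dim = _; omega)
  let φ := e.conjAlgEquiv F
  have hφ : ∀ (J : End F M.V) x, φ J (e x) = e (J x) := fun J x => by
    simp [φ, LinearEquiv.conjAlgEquiv_apply]
  have hp : φ M.J1 * φ M.J2 * φ M.J3 = l • 1 + a ∘ₗ b := by
    rw [← map_mul, ← map_mul, o.prod]; exact conj_eq e (fun x => by simp [e1, e2])
  refine ⟨φ M.J1, φ M.J2, φ M.J3, by rw [← map_mul, o.h1, map_one],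
    by rw [← map_mul, o.h2, map_one], by rw [← map_mul, o.h3, map_one], hp,
    gp_of_big _ _ _ l a b ha hb hlt hp ?_⟩
  intro p U' k1 k2 k3
  refine big U' _ ⟨p.comap (e : M.V →ₗ[F] V), ⟨?_, ?_, ?_⟩, ?_, ?_, ?_⟩
  · intro x hx; have := k1.1 _ hx; rwa [LinearEquiv.coe_coe, hφ] at this
  · intro x hx; have := k1.2.1 _ hx; rwa [LinearEquiv.coe_coe, hφ] at this
  · intro x hx; have := k1.2.2 _ hx; rwa [LinearEquiv.coe_coe, hφ] at this
  · intro y hy; have := k2 y hy; rwa [← e1] at this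
  · intro y hy; have := k3 _ hy; rwa [LinearEquiv.coe_coe, e2] at this
  · rw [finrank_comap_inj _ e.injective, LinearEquiv.range, inf_top_eq]

theorem sm_of (M : Mod F U) (h : ∀ p, Inv3 M.J1 M.J2 M.J3 p →
    2 * finrank F ↥(p ⊓ ker M.b) ≤ finrank F p ∧
      finrank F M.V + finrank F p ≤ 2 * finrank F ↥(p ⊔ range M.a)) : M.Sm := by
  rintro U' x ⟨p, h1, h2, h3, rfl⟩
  obtain ⟨k1, k2⟩ := h p h1
  have a1 := finrank_map_add M.b p
  have a2 : finrank F (p.map M.b) ≤ finrank F U' :=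
    Submodule.finrank_mono (by rintro _ ⟨y, hy, rfl⟩; exact h3 y hy)
  have a3 := Submodule.finrank_sup_add_finrank_inf_eq p (range M.a)
  have a4 : finrank F (U'.map M.a) ≤ finrank F ↥(p ⊓ range M.a) :=
    Submodule.finrank_mono (by rintro _ ⟨y, hy, rfl⟩; exact ⟨h2 y hy, y, rfl⟩)
  have a5 := finrank_map_add M.a U'
  have a6 := rk_add_ker M.a
  have a7 : finrank F ↥(U' ⊓ ker M.a) ≤ finrank F (ker M.a) := Submodule.finrank_mono inf_le_right
  unfold rk at a6
  unfold Mod.dim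
  omega

theorem from_g {c : F} (h4 : c ^ 4 ≠ 1) (a : U →ₗ[F] V) (b : V →ₗ[F] U)
    (h : GSol (c • 1 + a ∘ₗ b))
    (hD : Dom (c • 1 + a ∘ₗ b) c → ker b ≤ range (a ∘ₗ b) ∧ ker (a ∘ₗ b) ≤ range a) :
    ∃ M : Mod F U, M.Ok c (c • 1 + b ∘ₗ a) ∧ M.dim = finrank F V ∧ M.Sm := by
  obtain ⟨J1, J2, J3, h1, h2, h3, hp, hg⟩ := h
  refine ⟨⟨V, J1, J2, J3, a, b⟩, ⟨h1, h2, h3, hp, rfl⟩, rfl, sm_of _ fun p hp' => ?_⟩
  refine hg c h4 p hp' (ker b) (range a) ?_ ?_ ?_ <;> rw [hp, sh_add_self]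
  · exact ker_le_ker_comp _ _
  · exact range_comp_le_range _ _
  · exact hD

theorem from_small {c : F} (h4 : c ^ 4 ≠ 1) (a : U →ₗ[F] V) (b : V →ₗ[F] U)
    (h : I3 (c • 1 + a ∘ₗ b)) (k1 : finrank F (ker b) ≤ 1) (k2 : finrank F V ≤ rk a + 1) :
    ∃ M : Mod F U, M.Ok c (c • 1 + b ∘ₗ a) ∧ M.dim = finrank F V ∧ M.Sm := by
  obtain ⟨J1, J2, J3, h1, h2, h3, hp⟩ := h
  refine ⟨⟨V, J1, J2, J3, a, b⟩, ⟨h1, h2, h3, hp, rfl⟩, rfl, sm_of _ fun p hp' => ⟨?_, ?_⟩⟩
  · change 2 * finrank F ↥(p ⊓ ker b) ≤ finrank F p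
    by_contra hc
    have a1 : finrank F ↥(p ⊓ ker b) ≤ finrank F (ker b) := Submodule.finrank_mono inf_le_right
    have a2 : finrank F ↥(p ⊓ ker b) ≤ finrank F p := Submodule.finrank_mono inf_le_left
    have a3 : p ⊓ ker b = p := Submodule.eq_of_le_of_finrank_le inf_le_left (by omega)
    have a4 : I3 (c • (1 : End F p)) := by
      refine ⟨J1.restrict hp'.1, J2.restrict hp'.2.1, J3.restrict hp'.2.2, ?_, ?_, ?_, ?_⟩
      · ext x; exact congr($h1 x)
      · ext x; exact congr($h2 x)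
      · ext x; exact congr($h3 x)
      · ext x
        have k : b x = 0 := (a3.symm ▸ x.2 : (x : V) ∈ p ⊓ ker b).2
        have := congr($hp x)
        simpa [k] using this
    have := no_scalar a4 h4
    omega
  · change Submodule F V at p
    change finrank F V + finrank F p ≤ 2 * finrank F ↥(p ⊔ range a)
    by_contra hc
    have a1 : finrank F (range a) ≤ finrank F ↥(p ⊔ range a) := Submodule.finrank_mono le_sup_right
    have a2 : finrank F p ≤ finrank F ↥(p ⊔ range a) := Submodule.finrank_mono le_sup_left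
    have a5 := Submodule.finrank_le p
    unfold rk at k2
    have a3 : p = p ⊔ range a := Submodule.eq_of_le_of_finrank_le le_sup_left (by omega)
    have a4 : I3 (c • (1 : End F (V ⧸ p))) := by
      refine ⟨p.mapQ p J1 hp'.1, p.mapQ p J2 hp'.2.1, p.mapQ p J3 hp'.2.2, ?_, ?_, ?_, ?_⟩
      · ext x; exact congrArg p.mkQ congr($h1 x)
      · ext x; exact congrArg p.mkQ congr($h2 x)
      · ext x; exact congrArg p.mkQ congr($h3 x)
      · ext x
        have k : p.mkQ (a (b x)) = 0 := by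
          rw [mkQ_apply, Quotient.mk_eq_zero, a3]; exact mem_sup_right ⟨_, rfl⟩
        have := congrArg p.mkQ congr($hp x)
        rw [LinearMap.add_apply, map_add, comp_apply, k, add_zero] at this
        exact this
    have := no_scalar a4 h4
    have := Submodule.finrank_quotient_add_finrank p
    omega

theorem Dom.ne_zero {A : End F V} {c : F} (h : Dom A c) (hA : I3 A) : c ≠ 0 := by
  rintro rfl
  unfold Dom at h
  rw [rk_inj _ (by simpa [sh] using hA.inj)] at h
  omega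

theorem gsol_of_zero {A : End F V} {c : F} (h4 : c ^ 4 ≠ 1) (hA : I3 A) (hD : Dom A c)
    (h : 4 * rk (sh A c) = finrank F V) : GSol A := by
  have h0 := hD.ne_zero hA
  rw [sh_factor A c] at hA
  obtain ⟨M, o, d⟩ := cl_of_i3 _ _ hA
  obtain ⟨M', o', d', -⟩ := mutate o h0 h4
  rw [sh_factor A c]
  unfold rk at h
  refine back h0 h4 _ _ (injective_subtype _) (surjective_rangeRestrict _) hD M' o' (by omega) ?_
  rintro U' x ⟨p, -, -, -, rfl⟩
  have a1 := Submodule.finrank_le p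
  have a2 := Submodule.finrank_le U'
  unfold Mod.dim at *
  omega

/-- the exactification statement in dimension `n` -/
def MStat (F : Type u) [Field F] (n : ℕ) : Prop :=
  ∀ (V U : Type u) [AddCommGroup V] [Module F V] [FiniteDimensional F V] [AddCommGroup U]
    [Module F U] [FiniteDimensional F U], finrank F V = n → ∀ (l : F) (a : U →ₗ[F] V)
    (b : V →ₗ[F] U), l ≠ 0 → l ^ 4 ≠ 1 → Function.Injective a → Function.Surjective b →
    2 * finrank F U < n → Cl l (l • 1 + b ∘ₗ a) n →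
    I3 (l • 1 + a ∘ₗ b) ∧ (¬ InQ (l • 1 + a ∘ₗ b) → GSol (l • 1 + a ∘ₗ b))

theorem MStat.dom (ih : MStat F (finrank F V)) {A : End F V} {c : F} (h0 : c ≠ 0) (h4 : c ^ 4 ≠ 1)
    (hD : Dom A c) (h : Cl c (c • 1 + (sh A c).rangeRestrict ∘ₗ (range (sh A c)).subtype)
      (finrank F V)) : I3 A ∧ (¬ InQ A → GSol A) := by
  have := ih V _ rfl c _ _ h0 h4 (injective_subtype _) (surjective_rangeRestrict _) hD h
  rwa [← sh_factor] at this

theorem gsol_of_i3 (ih : MStat F (finrank F V)) {A : End F V} (hA : I3 A) (hq : ¬ InQ A) :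
    GSol A := by
  by_cases h : ∃ c : F, c ^ 4 ≠ 1 ∧ Dom A c
  · obtain ⟨c, h4, hD⟩ := h
    refine (ih.dom (hD.ne_zero hA) h4 hD (cl_of_i3 _ _ ?_)).2 hq
    rwa [← sh_factor]
  · push Not at h
    exact ((base _ V rfl A hA.det_sq h).2 hq).gsol

theorem rk_flanders (a a' : U →ₗ[F] V) (b b' : V →ₗ[F] U) (h : b' ∘ₗ a' = b ∘ₗ a) {c : F}
    (hc : c ≠ 0) : rk (sh (a' ∘ₗ b') c) = rk (sh (a ∘ₗ b) c) := by
  have a1 := rk_add_ker (sh (a' ∘ₗ b') c)
  have a2 := rk_add_ker (sh (a ∘ₗ b) c)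
  rw [ker_flanders _ _ c hc] at a1 a2
  rw [h] at a1
  omega

theorem base_transfer {c : F} (h0 : c ≠ 0) (a a' : U →ₗ[F] V) (b b' : V →ₗ[F] U)
    (h : b' ∘ₗ a' = b ∘ₗ a) (hA : I3 (c • 1 + a ∘ₗ b))
    (hno : ∀ μ : F, μ ≠ c → μ ^ 4 ≠ 1 → ¬ Dom (c • 1 + a ∘ₗ b) μ)
    (hc : c ^ 4 ≠ 1 → ¬ Dom (c • 1 + a' ∘ₗ b') c) : I3 (c • 1 + a' ∘ₗ b') := by
  refine (base _ V rfl _ ?_ ?_).1
  · have d1 := det_sylv a b c h0
    have d2 := det_sylv a' b' c h0
    rw [h, ← d1] at d2
    rw [mul_right_cancel₀ (pow_ne_zero _ h0) d2, hA.det_sq]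
  · intro μ h4
    by_cases e : μ = c
    · subst e; exact hc h4
    · have := hno μ e h4
      unfold Dom at *
      rwa [sh_add, rk_flanders a a' b b' h (sub_ne_zero.2 e), ← sh_add]

theorem up (ih : MStat F (finrank F V)) {c : F} (h0 : c ≠ 0) {N N' : End F V}
    (hA : I3 (c • 1 + N)) (h : UpMove N N')
    (hno : ∀ μ : F, μ ≠ c → μ ^ 4 ≠ 1 → ¬ Dom (c • 1 + N) μ) : I3 (c • 1 + N') := by
  obtain ⟨α, β, rfl, e⟩ := h.flanders
  by_cases hc : c ^ 4 ≠ 1 ∧ Dom (c • 1 + N') c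
  · have := ih V (range N') rfl c _ _ h0 hc.1 (injective_subtype _) (surjective_rangeRestrict _)
      (by have := hc.2; unfold Dom at this; rwa [sh_add_self] at this) (e ▸ cl_of_i3 _ _ hA)
    exact this.1
  · exact base_transfer h0 α (range N').subtype β N'.rangeRestrict e.symm hA hno
      (fun h4 hD => hc ⟨h4, hD⟩)

theorem lm_core {c d : F} (hc : c ≠ 0) (h4 : c ^ 4 ≠ 1) (hd : d ≠ 0) {n : ℕ} (ih : MStat F n)
    (h : Cl c (d • (1 : End F U)) n) (hn0 : 0 < n) (hn : n < 2 * finrank F U)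
    (u : U) (η : U →ₗ[F] F) (h1 : η u = 0) (h2 : u ≠ 0) (h3 : ∃ x, η x = 1) :
    Cl c (d • 1 + η.smulRight u) n := by
  obtain ⟨M, o, rfl⟩ := h
  have hba : ∀ y, M.b (M.a y) = (d - c) • y := fun y => by
    have : d • y = c • y + M.b (M.a y) := congr($o.red y)
    rw [sub_smul, this]; abel
  by_cases e : d = c
  · subst e
    simp only [sub_self, zero_smul] at hba
    obtain ⟨v, hv⟩ : ∃ v, M.a (M.b v) ≠ 0 := by
      by_contra h; push Not at h
      have := o.i3
      rw [show M.a ∘ₗ M.b = 0 from LinearMap.ext h, add_zero] at this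
      have := no_scalar this h4
      unfold Mod.dim at hn0; omega
    by_cases k1 : ker M.a = ⊥
    · by_cases k2 : range M.b = ⊤
      · exfalso
        have a1 : range M.a ≤ ker M.b := by rintro _ ⟨y, rfl⟩; exact hba y
        have a2 := Submodule.finrank_mono a1
        have a3 := rk_add_ker M.b
        have a4 := rk_inj M.a (ker_eq_bot.1 k1)
        rw [rk_surj _ (range_eq_top.1 k2)] at a3
        unfold rk Mod.dim at *; omega
      obtain ⟨x, hx⟩ : ∃ x, x ∉ range M.b := by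
        by_contra h; push Not at h; exact k2 (eq_top_iff'.2 h)
      obtain ⟨η0, g1, g2⟩ := exists_fun hx
      have g3 : ∀ v, η0 (M.b v) = 0 := fun v => g2 _ ⟨v, rfl⟩
      have hb : M.b v ≠ 0 := fun h => hv (by rw [h, map_zero])
      obtain ⟨e, he⟩ := conj_rank_one (M.b v) u η0 η (g3 v) hb ⟨x, g1⟩ h1 h2 h3
      have := cl_of_i3 (c := d) (M.a + η0.smulRight v) M.b (by
        convert o.i3 using 2; ext; simp [g3])
      refine this.conj e (fun z => ?_)
      have := he z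
      simp only [smulRight_apply] at this
      simp [hba, ← this]
    · obtain ⟨u0, hu0, hu1⟩ := Submodule.exists_mem_ne_zero_of_ne_bot k1
      have hu2 : M.a u0 = 0 := hu0
      obtain ⟨f, hf⟩ := exists_fun_ne (F := F) hv
      obtain ⟨e, he⟩ := conj_rank_one u0 u (f ∘ₗ M.a) η (by simp [hu2]) hu1 ⟨_, hf⟩ h1 h2 h3
      have := cl_of_i3 (c := d) M.a (M.b + f.smulRight u0) (by
        convert o.i3 using 2; ext; simp [hu2])
      refine this.conj e (fun z => ?_)
      have := he z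
      simp only [smulRight_apply, comp_apply] at this
      simp [hba, ← this]
  have e0 : d - c ≠ 0 := sub_ne_zero.2 e
  have ha : Function.Injective M.a := fun x y hxy => by
    have := congrArg M.b hxy
    rw [hba, hba] at this
    exact smul_right_injective _ e0 this
  let y : M.V := (d - c)⁻¹ • M.a u
  have hy : M.b y = u := by simp [y, hba, smul_smul, e0]
  let N0 : End F M.V := sh (M.a ∘ₗ M.b) (d - c)
  have hN0 : ∀ z, N0 (M.a z) = 0 := fun z => by simp [N0, hba]
  have e1 : d • 1 + N0 = c • 1 + M.a ∘ₗ M.b := by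
    ext x; simp only [N0, LinearMap.add_apply, sh_apply, LinearMap.smul_apply, End.one_apply]
    module
  have k := up (c := d) (N := N0) (N' := N0 + (η ∘ₗ M.b).smulRight y) ih hd (e1 ▸ o.i3) (by
    obtain ⟨x, hx⟩ := h3
    refine ⟨y, η ∘ₗ M.b, rfl, by simp [hy, h1], ?_, ⟨(d - c)⁻¹ • M.a x, by simp [hN0], by
      simp [hba, hx, e0]⟩, Or.inl (by simp [y, hN0])⟩
    rintro ⟨v, hv⟩
    apply h2
    rw [← hy, ← hv]
    simp [N0, hba]) (by
    intro μ hμ _
    have a1 : range M.a ≤ range (sh (d • 1 + N0) μ) := by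
      refine le_trans ?_ (ker_le_range_sh _ hμ.symm)
      rw [sh_add_self]
      rintro _ ⟨z, rfl⟩; exact hN0 z
    have a2 := Submodule.finrank_mono a1
    have a3 := rk_inj _ ha
    unfold Dom rk Mod.dim at *
    omega)
  have k2 := cl_of_i3 (c := c) (M.a + η.smulRight y) M.b (by
    convert k using 1
    rw [← add_assoc, e1]; ext x; simp [add_assoc])
  convert k2 using 1
  ext x
  simp only [LinearMap.add_apply, LinearMap.smul_apply, End.one_apply, comp_apply, map_add,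
    smulRight_apply, map_smul, hy, hba]
  module

theorem lm (ih : ∀ m ≤ finrank F V, MStat F m) {B B' : End F V} {κ ξ : F} (hB : I3 B)
    (h4 : κ ^ 4 ≠ 1) (hD : Dom B κ) (hξ : ξ ≠ 0) (hq : ∀ x, B (sh B κ x) = ξ • sh B κ x)
    (hr : rk (sh B' κ) = rk (sh B κ)) (h1 : rk (sh B' ξ * sh B' κ) ≤ 1)
    (h2 : sh B' ξ * (sh B' ξ * sh B' κ) = 0) :
    I3 B' ∨ (4 * rk (sh B κ) = finrank F V ∧ κ ^ 3 * ξ = 1) := by
  have h0 := hD.ne_zero hB
  have c1 : Cl κ (ξ • (1 : End F (range (sh B' κ)))) (finrank F V) := by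
    have := cl_of_i3 _ _ (sh_factor B κ ▸ hB)
    rw [(det_red B h0 hq).2] at this
    exact (P2.of_cl this rfl).cl hr
  have hD' : Dom B' κ := by unfold Dom at *; rwa [hr]
  let E : End F (range (sh B' κ)) := (sh B' ξ).restrict (p := range (sh B' κ)) (by
    rintro _ ⟨x, rfl⟩
    refine ⟨sh B' ξ x, ?_⟩
    simp only [sh_apply, map_sub, map_smul]; module)
  have hE : ∀ x, (E x : V) = sh B' ξ x := fun _ => rfl
  have e1 : κ • 1 + (sh B' κ).rangeRestrict ∘ₗ (range (sh B' κ)).subtype = ξ • 1 + E := by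
    ext x
    change κ • (x : V) + sh B' κ x = ξ • (x : V) + sh B' ξ x
    simp only [sh_apply]; abel
  by_cases hE0 : E = 0
  · refine Or.inl ((ih _ le_rfl).dom h0 h4 hD' ?_).1
    rwa [e1, hE0, add_zero]
  obtain ⟨u, η, k1, k2, k3, x, k4⟩ := rank_one_nil E (by
    refine le_trans ?_ h1
    unfold rk
    rw [← Submodule.finrank_map_subtype_eq]
    apply Submodule.finrank_mono
    rintro _ ⟨_, ⟨⟨_, x, rfl⟩, rfl⟩, rfl⟩; exact ⟨x, rfl⟩) (by
    ext ⟨_, x, rfl⟩
    exact congr($h2 x)) hE0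
  obtain ⟨n'', e2, c2⟩ := c1.mutate h0 h4
  rw [smul_smul] at c2
  unfold Dom rk at hD'
  rcases Nat.eq_zero_or_pos n'' with rfl | hn
  · refine Or.inr ⟨by rw [← hr]; unfold rk; omega, ?_⟩
    obtain ⟨M, o, d⟩ := c2
    have : Subsingleton M.V := Module.finrank_zero_iff.1 d
    have k : (κ ^ 2 * ξ) • u = κ⁻¹ • u + M.b (M.a u) := congr($o.red u)
    rw [Subsingleton.elim (M.a u) 0, map_zero, add_zero] at k
    have := smul_left_injective F k3 k
    rw [pow_succ', mul_assoc, this, mul_inv_cancel₀ h0]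
  have c3 := lm_core (inv_ne_zero h0) (inv_pow_four h4) (by simp [h0, hξ]) (ih n'' (by omega)) c2
    hn (by omega) (κ ^ 2 • u) η (by simp [k2]) (by simp [h0, k3]) ⟨x, k4⟩
  obtain ⟨n, e3, c4⟩ := Cl.mutate_back (l := κ) (R := ξ • 1 + E) (n' := n'') (by
    convert c3 using 1
    rw [k1]; ext z; simp [smul_smul, mul_comm]) h0 h4
  refine Or.inl ((ih _ le_rfl).dom h0 h4 (by unfold Dom rk; exact hD') ?_).1
  rw [e1, ← show n = finrank F V by omega]
  exact c4

end Pool.Agent.Lib.MP_530e0f_al
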