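import Pool.Agent.Lib.MP_530e0f_al.Basic

/-! Middle convolution and the mutation of solutions. -/

namespace Pool.Agent.Lib.MP_530e0f_al

open Module Submodule
open LinearMap hiding sub_apply smul_apply add_apply zero_apply neg_apply

universe u

variable {F : Type u} [Field F]

/-- a star-shaped datum with four arms -/
structure Dat (F : Type u) [Field F] (U : Type u) [AddCommGroup U] [Module F U] where
  V : Type u
  U1 : Type u
  U2 : Type u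
  U3 : Type u
  [ac : AddCommGroup V]
  [md : Module F V]
  [fd : FiniteDimensional F V]
  [ac1 : AddCommGroup U1]
  [md1 : Module F U1]
  [fd1 : FiniteDimensional F U1]
  [ac2 : AddCommGroup U2]
  [md2 : Module F U2]
  [fd2 : FiniteDimensional F U2]
  [ac3 : AddCommGroup U3]
  [md3 : Module F U3]
  [fd3 : FiniteDimensional F U3]
  a1 : U1 →ₗ[F] V
  b1 : V →ₗ[F] U1
  a2 : U2 →ₗ[F] V
  b2 : V →ₗ[F] U2
  a3 : U3 →ₗ[F] V
  b3 : V →ₗ[F] U3
  a : U →ₗ[F] V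
  b : V →ₗ[F] U

attribute [instance] Dat.ac Dat.md Dat.fd Dat.ac1 Dat.md1 Dat.fd1 Dat.ac2 Dat.md2 Dat.fd2
  Dat.ac3 Dat.md3 Dat.fd3

namespace Dat

variable {U : Type u} [AddCommGroup U] [Module F U]

/-- defining equations -/
structure Ok (D : Dat F U) (q c : F) (R : End F U) : Prop where
  prod : ∀ v, (1 + D.a1 ∘ₗ D.b1 : End F D.V) ((1 + D.a2 ∘ₗ D.b2 : End F D.V)
    ((1 + D.a3 ∘ₗ D.b3 : End F D.V) ((1 + D.a ∘ₗ D.b : End F D.V) v))) = q • v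
  c1 : ∀ y, y + D.b1 (D.a1 y) = c • y
  c2 : ∀ y, y + D.b2 (D.a2 y) = c • y
  c3 : ∀ y, y + D.b3 (D.a3 y) = c • y
  red : ∀ y, R y = y + D.b (D.a y)

/-- sub-data -/
structure IsSub (D : Dat F U) (p : Submodule F D.V) (S1 : Submodule F D.U1)
    (S2 : Submodule F D.U2) (S3 : Submodule F D.U3) (U' : Submodule F U) : Prop where
  a1 : ∀ y ∈ S1, D.a1 y ∈ p
  b1 : ∀ y ∈ p, D.b1 y ∈ S1
  a2 : ∀ y ∈ S2, D.a2 y ∈ p
  b2 : ∀ y ∈ p, D.b2 y ∈ S2
  a3 : ∀ y ∈ S3, D.a3 y ∈ p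
  b3 : ∀ y ∈ p, D.b3 y ∈ S3
  a : ∀ y ∈ U', D.a y ∈ p
  b : ∀ y ∈ p, D.b y ∈ U'

/-- dimension data of sub-data -/
def Sub (D : Dat F U) (U' : Submodule F U) (x t : ℕ) : Prop :=
  ∃ p S1 S2 S3, D.IsSub p S1 S2 S3 U' ∧ finrank F p = x ∧
    finrank F S1 + finrank F S2 + finrank F S3 = t

/-- total arm dimension -/
noncomputable def tot (D : Dat F U) : ℕ := finrank F D.U1 + finrank F D.U2 + finrank F D.U3

/-- central dimension -/
noncomputable def dim (D : Dat F U) : ℕ := finrank F D.V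

/-- the summation map -/
def pi (D : Dat F U) : (D.U1 × D.U2 × D.U3 × U) →ₗ[F] D.V :=
  D.a1.coprod ((1 + D.a1 ∘ₗ D.b1 : End F D.V) ∘ₗ D.a2.coprod ((1 + D.a2 ∘ₗ D.b2 : End F D.V) ∘ₗ
    D.a3.coprod ((1 + D.a3 ∘ₗ D.b3 : End F D.V) ∘ₗ D.a)))

theorem pi_iota {D : Dat F U} {q c : F} {R : End F U} (h : D.Ok q c R) (v : D.V) :
    D.pi (D.b1 v, D.b2 v, D.b3 v, D.b v) = (q - 1) • v := by
  have := h.prod v
  simp only [pi, coprod_apply, comp_apply, LinearMap.add_apply, End.one_apply, map_add] at this ⊢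
  linear_combination (norm := module) this

theorem pi_mem {D : Dat F U} {p S1 S2 S3 U'} (h : D.IsSub p S1 S2 S3 U') {y1 y2 y3 y4}
    (h1 : y1 ∈ S1) (h2 : y2 ∈ S2) (h3 : y3 ∈ S3) (h4 : y4 ∈ U') : D.pi (y1, y2, y3, y4) ∈ p := by
  have m1 : ∀ v ∈ p, (1 + D.a1 ∘ₗ D.b1 : End F D.V) v ∈ p :=
    fun v hv => add_mem hv (h.a1 _ (h.b1 _ hv))
  have m2 : ∀ v ∈ p, (1 + D.a2 ∘ₗ D.b2 : End F D.V) v ∈ p :=
    fun v hv => add_mem hv (h.a2 _ (h.b2 _ hv))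
  have m3 : ∀ v ∈ p, (1 + D.a3 ∘ₗ D.b3 : End F D.V) v ∈ p :=
    fun v hv => add_mem hv (h.a3 _ (h.b3 _ hv))
  exact add_mem (h.a1 _ h1) (m1 _ (add_mem (h.a2 _ h2) (m2 _ (add_mem (h.a3 _ h3)
    (m3 _ (h.a _ h4))))))

theorem mem_of_b {D : Dat F U} {q c : F} {R : End F U} (hD : D.Ok q c R) (hq : q ≠ 1)
    {p S1 S2 S3 U'} (h : D.IsSub p S1 S2 S3 U') {v : D.V}
    (h1 : D.b1 v ∈ S1) (h2 : D.b2 v ∈ S2) (h3 : D.b3 v ∈ S3) (h4 : D.b v ∈ U') : v ∈ p := by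
  have := pi_mem h h1 h2 h3 h4
  rw [pi_iota hD] at this
  exact (Submodule.smul_mem_iff _ (sub_ne_zero.2 hq)).1 this

section MC

variable (D : Dat F U) (r : F)

/-- new structure maps -/
def t1 : D.U1 →ₗ[F] D.U1 × D.U2 × D.U3 × U :=
  (r • (1 + D.b1 ∘ₗ D.a1) - 1 : End F D.U1).prod ((r • D.b2 ∘ₗ D.a1).prod
    ((r • D.b3 ∘ₗ D.a1).prod (r • D.b ∘ₗ D.a1)))
/-- new structure maps -/
def t2 : D.U2 →ₗ[F] D.U1 × D.U2 × D.U3 × U :=
  (D.b1 ∘ₗ D.a2).prod ((r • (1 + D.b2 ∘ₗ D.a2) - 1 : End F D.U2).prod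
    ((r • D.b3 ∘ₗ D.a2).prod (r • D.b ∘ₗ D.a2)))
/-- new structure maps -/
def t3 : D.U3 →ₗ[F] D.U1 × D.U2 × D.U3 × U :=
  (D.b1 ∘ₗ D.a3).prod ((D.b2 ∘ₗ D.a3).prod
    ((r • (1 + D.b3 ∘ₗ D.a3) - 1 : End F D.U3).prod (r • D.b ∘ₗ D.a3)))
/-- new structure maps -/
def t4 : U →ₗ[F] D.U1 × D.U2 × D.U3 × U :=
  (D.b1 ∘ₗ D.a).prod ((D.b2 ∘ₗ D.a).prod
    ((D.b3 ∘ₗ D.a).prod (r • (1 + D.b ∘ₗ D.a) - 1 : End F U)))

theorem t1_apply (y) : D.t1 r y = (r • (y + D.b1 (D.a1 y)) - y, r • D.b2 (D.a1 y),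
    r • D.b3 (D.a1 y), r • D.b (D.a1 y)) := rfl
theorem t2_apply (y) : D.t2 r y = (D.b1 (D.a2 y), r • (y + D.b2 (D.a2 y)) - y,
    r • D.b3 (D.a2 y), r • D.b (D.a2 y)) := rfl
theorem t3_apply (y) : D.t3 r y = (D.b1 (D.a3 y), D.b2 (D.a3 y),
    r • (y + D.b3 (D.a3 y)) - y, r • D.b (D.a3 y)) := rfl
theorem t4_apply (y) : D.t4 r y = (D.b1 (D.a y), D.b2 (D.a y),
    D.b3 (D.a y), r • (y + D.b (D.a y)) - y) := rfl

variable {D r} {q c : F} {R : End F U}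

theorem prod' (h : D.Ok q c R) (hr : r * q = 1) (v : D.V) :
    r • (1 + D.a1 ∘ₗ D.b1 : End F D.V) ((1 + D.a2 ∘ₗ D.b2 : End F D.V)
    ((1 + D.a3 ∘ₗ D.b3 : End F D.V) ((1 + D.a ∘ₗ D.b : End F D.V) v))) = v := by
  rw [h.prod, smul_smul, hr, one_smul]

theorem t1_mem (h : D.Ok q c R) (hr : r * q = 1) (y) : D.t1 r y ∈ ker D.pi := by
  have := prod' h hr (D.a1 y)
  simp only [mem_ker, t1_apply, pi, coprod_apply, comp_apply, LinearMap.add_apply, End.one_apply,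
    map_add, map_sub,
    map_smul] at this ⊢
  linear_combination (norm := module) this

theorem t2_mem (h : D.Ok q c R) (hr : r * q = 1) (y) : D.t2 r y ∈ ker D.pi := by
  have := prod' h hr (D.a2 y)
  simp only [mem_ker, t2_apply, pi, coprod_apply, comp_apply, LinearMap.add_apply, End.one_apply,
    map_add, map_sub,
    map_smul] at this ⊢
  linear_combination (norm := module) this

theorem t3_mem (h : D.Ok q c R) (hr : r * q = 1) (y) : D.t3 r y ∈ ker D.pi := by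
  have := prod' h hr (D.a3 y)
  simp only [mem_ker, t3_apply, pi, coprod_apply, comp_apply, LinearMap.add_apply, End.one_apply,
    map_add, map_sub,
    map_smul] at this ⊢
  linear_combination (norm := module) this

theorem t4_mem (h : D.Ok q c R) (hr : r * q = 1) (y) : D.t4 r y ∈ ker D.pi := by
  have := prod' h hr (D.a y)
  simp only [mem_ker, t4_apply, pi, coprod_apply, comp_apply, LinearMap.add_apply, End.one_apply,
    map_add, map_sub,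
    map_smul] at this ⊢
  linear_combination (norm := module) this

/-- the middle convolution -/
def mc [FiniteDimensional F U] (h : D.Ok q c R) (hr : r * q = 1) : Dat F U where
  V := ker D.pi
  U1 := D.U1
  U2 := D.U2
  U3 := D.U3
  a1 := (D.t1 r).codRestrict _ (t1_mem h hr)
  b1 := (fst F _ _) ∘ₗ (ker D.pi).subtype
  a2 := (D.t2 r).codRestrict _ (t2_mem h hr)
  b2 := (fst F _ _) ∘ₗ (snd F _ _) ∘ₗ (ker D.pi).subtype
  a3 := (D.t3 r).codRestrict _ (t3_mem h hr)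
  b3 := (fst F _ _) ∘ₗ (snd F _ _) ∘ₗ (snd F _ _) ∘ₗ (ker D.pi).subtype
  a := (D.t4 r).codRestrict _ (t4_mem h hr)
  b := (snd F _ _) ∘ₗ (snd F _ _) ∘ₗ (snd F _ _) ∘ₗ (ker D.pi).subtype

theorem mc_aux (w : D.U1 × D.U2 × D.U3 × U) (hw : D.pi w = 0) :
    let w4 := w + D.t4 r w.2.2.2
    let w3 := w4 + D.t3 r w4.2.2.1
    let w2 := w3 + D.t2 r w3.2.1
    w2 + D.t1 r w2.1 = r • w := by
  obtain ⟨y1, y2, y3, y4⟩ := w
  have e1 := congrArg D.b1 hw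
  have e2 := congrArg D.b2 hw
  have e3 := congrArg D.b3 hw
  have e4 := congrArg D.b hw
  simp only [t1_apply, t2_apply, t3_apply, t4_apply, pi, coprod_apply, comp_apply, LinearMap.add_apply, End.one_apply,
    map_add, map_sub,
    map_smul, Prod.mk_add_mk, Prod.smul_mk, Prod.mk.injEq, map_zero] at e1 e2 e3 e4 ⊢
  refine ⟨?_, ?_, ?_, ?_⟩
  · linear_combination (norm := module) r • e1
  · linear_combination (norm := module) r • e2
  · linear_combination (norm := module) r • e3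
  · linear_combination (norm := module) r • e4

theorem mc_ok [FiniteDimensional F U] (h : D.Ok q c R) (hr : r * q = 1) :
    (mc h hr).Ok r (r * c) (r • R) where
  prod := by
    rintro ⟨w, hw⟩
    exact Subtype.ext (mc_aux (r := r) w hw)
  c1 (y : D.U1) := by
    change y + (r • (y + D.b1 (D.a1 y)) - y) = _
    rw [h.c1, smul_smul]; abel
  c2 (y : D.U2) := by
    change y + (r • (y + D.b2 (D.a2 y)) - y) = _
    rw [h.c2, smul_smul]; abel
  c3 (y : D.U3) := by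
    change y + (r • (y + D.b3 (D.a3 y)) - y) = _
    rw [h.c3, smul_smul]; abel
  red y := by
    change r • R y = y + (r • (y + D.b (D.a y)) - y)
    rw [h.red]; abel

theorem finrank_prod_sub {A B : Type*} [AddCommGroup A] [Module F A] [AddCommGroup B] [Module F B]
    [FiniteDimensional F A] [FiniteDimensional F B] (p : Submodule F A) (p' : Submodule F B) :
    finrank F (p.prod p') = finrank F p + finrank F p' := by
  rw [← Module.finrank_prod]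
  exact (LinearEquiv.ofBijective (((p.subtype).prodMap p'.subtype).codRestrict (p.prod p')
    (fun x => ⟨x.1.2, x.2.2⟩)) ⟨by
      intro x y hxy
      have := congrArg Subtype.val hxy
      exact Prod.ext (Subtype.ext (congrArg Prod.fst this)) (Subtype.ext (congrArg Prod.snd this)),
      by
      rintro ⟨⟨x, y⟩, hx, hy⟩
      exact ⟨(⟨x, hx⟩, ⟨y, hy⟩), rfl⟩⟩).finrank_eq.symm

theorem exists_mc [FiniteDimensional F U] (h : D.Ok q c R) (hq0 : q ≠ 0) (hq1 : q ≠ 1) :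
    ∃ D' : Dat F U, D'.Ok q⁻¹ (q⁻¹ * c) (q⁻¹ • R) ∧ D'.tot = D.tot ∧
      D.dim + D'.dim = D.tot + finrank F U ∧
      ∀ U' x' t, D'.Sub U' x' t → ∃ x, D.Sub U' x t ∧ x + x' = t + finrank F U' := by
  have hr : q⁻¹ * q = 1 := inv_mul_cancel₀ hq0
  refine ⟨mc h hr, mc_ok h hr, rfl, ?_, ?_⟩
  · have h1 := rk_add_ker D.pi
    have h2 : Function.Surjective D.pi := by
      intro v
      refine ⟨(q - 1)⁻¹ • (D.b1 v, D.b2 v, D.b3 v, D.b v), ?_⟩
      rw [map_smul, pi_iota h, smul_smul, inv_mul_cancel₀ (sub_ne_zero.2 hq1), one_smul]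
    rw [rk_surj _ h2] at h1
    simp only [Module.finrank_prod] at h1
    change finrank F D.V + finrank F (ker D.pi) = finrank F D.U1 + finrank F D.U2 +
      finrank F D.U3 + _
    omega
  · rintro U' x' t ⟨p', S1, S2, S3, hs, hx, ht⟩
    change Submodule F D.U1 at S1
    change Submodule F D.U2 at S2
    change Submodule F D.U3 at S3
    change Submodule F (ker D.pi) at p'
    let Ws : Submodule F (D.U1 × D.U2 × D.U3 × U) :=
      Submodule.prod S1 (Submodule.prod S2 (Submodule.prod S3 U'))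
    have hq' : q⁻¹ ≠ 0 := inv_ne_zero hq0
    have sm : ∀ {X : Type u} [AddCommGroup X] [Module F X] {S : Submodule F X} {y : X},
        q⁻¹ • y ∈ S → y ∈ S := fun h => (Submodule.smul_mem_iff _ hq').1 h
    have dg : ∀ {X : Type u} [AddCommGroup X] [Module F X] {S : Submodule F X} {y z : X},
        y ∈ S → q⁻¹ • (y + z) - y ∈ S → z ∈ S := by
      intro X _ _ S y z hy hz
      have := sm (by simpa using add_mem hz hy : q⁻¹ • (y + z) ∈ S)
      simpa using sub_mem this hy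
    let Sg : Submodule F D.V := (comap D.b1 S1 ⊓ comap D.b2 S2) ⊓ (comap D.b3 S3 ⊓ comap D.b U')
    have g1 : ∀ y ∈ S1, D.a1 y ∈ Sg := fun y hy =>
      ⟨⟨dg (S := S1) hy (hs.b1 _ (hs.a1 y hy)), sm (S := S2) (hs.b2 _ (hs.a1 y hy))⟩,
        sm (S := S3) (hs.b3 _ (hs.a1 y hy)), sm (S := U') (hs.b _ (hs.a1 y hy))⟩
    have g2 : ∀ y ∈ S2, D.a2 y ∈ Sg := fun y hy =>
      ⟨⟨hs.b1 _ (hs.a2 y hy), dg (S := S2) hy (hs.b2 _ (hs.a2 y hy))⟩,
        sm (S := S3) (hs.b3 _ (hs.a2 y hy)), sm (S := U') (hs.b _ (hs.a2 y hy))⟩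
    have g3 : ∀ y ∈ S3, D.a3 y ∈ Sg := fun y hy =>
      ⟨⟨hs.b1 _ (hs.a3 y hy), hs.b2 _ (hs.a3 y hy)⟩,
        dg (S := S3) hy (hs.b3 _ (hs.a3 y hy)), sm (S := U') (hs.b _ (hs.a3 y hy))⟩
    have g4 : ∀ y ∈ U', D.a y ∈ Sg := fun y hy =>
      ⟨⟨hs.b1 _ (hs.a y hy), hs.b2 _ (hs.a y hy)⟩,
        hs.b3 _ (hs.a y hy), dg (S := U') hy (hs.b _ (hs.a y hy))⟩
    have hSg : D.IsSub Sg S1 S2 S3 U' := ⟨g1, fun y hy => hy.1.1, g2, fun y hy => hy.1.2,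
      g3, fun y hy => hy.2.1, g4, fun y hy => hy.2.2⟩
    have hmap : Ws.map D.pi = Sg := by
      apply le_antisymm
      · rintro _ ⟨⟨y1, y2, y3, y4⟩, ⟨k1, k2, k3, k4⟩, rfl⟩
        exact pi_mem hSg k1 k2 k3 k4
      · intro v hv
        refine ⟨(q - 1)⁻¹ • (D.b1 v, D.b2 v, D.b3 v, D.b v),
          smul_mem _ _ ⟨hv.1.1, hv.1.2, hv.2.1, hv.2.2⟩, ?_⟩
        rw [map_smul, pi_iota h, smul_smul, inv_mul_cancel₀ (sub_ne_zero.2 hq1), one_smul]
    have hker : Ws ⊓ ker D.pi = Submodule.map (ker D.pi).subtype p' := by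
      apply le_antisymm
      · rintro w ⟨⟨k1, k2, k3, k4⟩, hw⟩
        exact ⟨⟨w, hw⟩, mem_of_b (mc_ok h hr) (by simpa using hq1) hs k1 k2 k3 k4, rfl⟩
      · rintro _ ⟨w, hw, rfl⟩
        exact ⟨⟨hs.b1 _ hw, hs.b2 _ hw, hs.b3 _ hw, hs.b _ hw⟩, w.2⟩
    have e := finrank_map_add D.pi Ws
    rw [hmap, hker, Submodule.finrank_map_subtype_eq] at e
    refine ⟨finrank F Sg, ⟨Sg, S1, S2, S3, hSg, rfl, ht⟩, ?_⟩
    have e2 : finrank F Ws = t + finrank F U' := by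
      rw [← ht]
      simp only [Ws]
      rw [finrank_prod_sub, finrank_prod_sub, finrank_prod_sub]
      change finrank F S1 + (finrank F S2 + (finrank F S3 + _)) =
        finrank F S1 + finrank F S2 + finrank F S3 + _
      omega
    rw [← hx, ← e2]
    exact e

end MC

theorem arm_switch {V S : Type u} [AddCommGroup V] [Module F V] [FiniteDimensional F V]
    [AddCommGroup S] [Module F S] (a : S →ₗ[F] V) (b : V →ₗ[F] S) {c : F}
    (hc : ∀ y, y + b (a y) = c • y) (h0 : c ≠ 0) (h1 : c ≠ 1) :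
    ∃ (b' : V →ₗ[F] ker b), (1 + (ker b).subtype ∘ₗ b' : End F V) = c⁻¹ • (1 + a ∘ₗ b) ∧
      (∀ y : ker b, y + b' ((ker b).subtype y) = c⁻¹ • y) ∧
      finrank F S + finrank F (ker b) = finrank F V ∧
      ∀ (p : Submodule F V) (S' : Submodule F (ker b)), (∀ y ∈ S', (ker b).subtype y ∈ p) →
        (∀ y ∈ p, b' y ∈ S') → ∃ T : Submodule F S, (∀ y ∈ T, a y ∈ p) ∧ (∀ y ∈ p, b y ∈ T) ∧
          finrank F T + finrank F S' = finrank F p := by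
  let b' : V →ₗ[F] ker b := (c⁻¹ • (1 + a ∘ₗ b) - 1 : End F V).codRestrict _ (by
    intro v
    change b (c⁻¹ • (v + a (b v)) - v) = 0
    rw [map_sub, map_smul, map_add, hc, smul_smul, inv_mul_cancel₀ h0, one_smul, sub_self])
  have hb' : ∀ v, (b' v : V) = c⁻¹ • (v + a (b v)) - v := fun v => rfl
  have hk : ∀ y : ker b, b' y = (c⁻¹ - 1) • y := by
    rintro ⟨y, hy⟩
    apply Subtype.ext
    have : b y = 0 := hy
    simp [hb', this, sub_smul]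
  refine ⟨b', ?_, ?_, ?_, ?_⟩
  · ext v; simp [hb']
  · intro y
    rw [subtype_apply, hk, sub_smul]; simp
  · have : Function.Surjective b := by
      intro y
      refine ⟨(c - 1)⁻¹ • a y, ?_⟩
      have : b (a y) = (c - 1) • y := by rw [sub_smul, ← hc]; simp
      rw [map_smul, this, smul_smul, inv_mul_cancel₀ (sub_ne_zero.2 h1), one_smul]
    rw [← rk_add_ker b, rk_surj b this]
  · intro p S' k1 k2
    refine ⟨p.map b, ?_, fun y hy => ⟨y, hy, rfl⟩, ?_⟩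
    · rintro _ ⟨v, hv, rfl⟩
      have := add_mem (k1 _ (k2 v hv)) hv
      rw [subtype_apply, hb', sub_add_cancel, Submodule.smul_mem_iff _ (inv_ne_zero h0)] at this
      simpa using sub_mem this hv
    · rw [← finrank_map_add b p, ← Submodule.finrank_map_subtype_eq (ker b) S']
      have : S'.map (ker b).subtype = p ⊓ ker b := by
        apply le_antisymm
        · rintro _ ⟨y, hy, rfl⟩; exact ⟨k1 y hy, y.2⟩
        · rintro v ⟨hv, hv2⟩
          refine ⟨⟨v, hv2⟩, ?_, rfl⟩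
          have := k2 v hv
          rw [hk ⟨v, hv2⟩, Submodule.smul_mem_iff _ (by
            rw [sub_ne_zero]; simpa using h1)] at this
          exact this
      rw [this]

theorem exists_switch {D : Dat F U} {q c : F} {R : End F U} (h : D.Ok q c R) (h0 : c ≠ 0)
    (h1 : c ≠ 1) :
    ∃ D' : Dat F U, D'.Ok (q * c⁻¹ ^ 3) c⁻¹ R ∧ D'.dim = D.dim ∧ D.tot + D'.tot = 3 * D.dim ∧
      ∀ U' x t', D'.Sub U' x t' → ∃ t, D.Sub U' x t ∧ t + t' = 3 * x := by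
  obtain ⟨e1, k1, l1, m1, n1⟩ := arm_switch D.a1 D.b1 h.c1 h0 h1
  obtain ⟨e2, k2, l2, m2, n2⟩ := arm_switch D.a2 D.b2 h.c2 h0 h1
  obtain ⟨e3, k3, l3, m3, n3⟩ := arm_switch D.a3 D.b3 h.c3 h0 h1
  refine ⟨⟨D.V, ker D.b1, ker D.b2, ker D.b3, Submodule.subtype _, e1, Submodule.subtype _, e2, Submodule.subtype _, e3,
    D.a, D.b⟩, ⟨?_, l1, l2, l3, h.red⟩, rfl, ?_, ?_⟩
  · intro v
    simp only [k1, k2, k3, LinearMap.smul_apply, map_smul, h.prod, smul_smul]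
    congr 1; ring
  · simp only [tot, dim]; omega
  · rintro U' x t' ⟨p, S1, S2, S3, hs, hx, ht⟩
    obtain ⟨T1, r1, s1, u1⟩ := n1 p S1 hs.a1 hs.b1
    obtain ⟨T2, r2, s2, u2⟩ := n2 p S2 hs.a2 hs.b2
    obtain ⟨T3, r3, s3, u3⟩ := n3 p S3 hs.a3 hs.b3
    refine ⟨_, ⟨p, T1, T2, T3, ⟨r1, s1, r2, s2, r3, s3, hs.a, hs.b⟩, hx, rfl⟩, ?_⟩
    have : ∀ a1 a2 a3 b1 b2 b3 y : ℕ, a1 + b1 = y → a2 + b2 = y → a3 + b3 = y →
      b1 + b2 + b3 = t' → y = x → a1 + a2 + a3 + t' = 3 * x := by intros; omega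
    exact this _ _ _ _ _ _ _ u1 u2 u3 ht hx

theorem inv_arm {V : Type u} [AddCommGroup V] [Module F V] {J : End F V} (h : J * J = 1)
    (y : range (J - 1)) :
    y + (J - 1).rangeRestrict ((range (J - 1)).subtype y) = (-1 : F) • y := by
  obtain ⟨_, x, rfl⟩ := y
  apply Subtype.ext
  have : J (J x) = x := congr($h x)
  simp [this]

theorem of_mod {M : Mod F U} {l : F} {R : End F U} (h : M.Ok l R) (h0 : l ≠ 0) :
    ∃ D : Dat F U, D.Ok l⁻¹ (-1) (l⁻¹ • R) ∧ D.dim = M.dim ∧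
      ∀ U' x t, D.Sub U' x t → M.Sub U' x := by
  refine ⟨⟨M.V, range (M.J3 - 1), range (M.J2 - 1), range (M.J1 - 1), Submodule.subtype _,
    rangeRestrict _, Submodule.subtype _, rangeRestrict _, Submodule.subtype _, rangeRestrict _, l⁻¹ • M.a, M.b⟩,
    ⟨?_, inv_arm h.h3, inv_arm h.h2, inv_arm h.h1, ?_⟩, rfl, ?_⟩
  · intro v
    have e : M.J1 (M.J2 (M.J3 v)) = l • v + M.a (M.b v) := congr($h.prod v)
    have e2 : v + l⁻¹ • M.a (M.b v) = l⁻¹ • M.J1 (M.J2 (M.J3 v)) := by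
      rw [e, smul_add, smul_smul, inv_mul_cancel₀ h0, one_smul]
    have j1 : ∀ x, M.J1 (M.J1 x) = x := fun x => congr($h.h1 x)
    have j2 : ∀ x, M.J2 (M.J2 x) = x := fun x => congr($h.h2 x)
    have j3 : ∀ x, M.J3 (M.J3 x) = x := fun x => congr($h.h3 x)
    simp [e2, j1, j2, j3]
  · intro y
    simp [h.red, smul_smul, h0]
  · rintro U' x t ⟨p, S1, S2, S3, hs, hx, -⟩
    refine ⟨p, ⟨?_, ?_, ?_⟩, ?_, hs.b, hx⟩
    · intro v hv; simpa using add_mem hv (hs.a3 _ (hs.b3 _ hv))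
    · intro v hv; simpa using add_mem hv (hs.a2 _ (hs.b2 _ hv))
    · intro v hv; simpa using add_mem hv (hs.a1 _ (hs.b1 _ hv))
    · intro y hy
      exact (Submodule.smul_mem_iff _ (inv_ne_zero h0)).1 (hs.a y hy)

theorem arm_inv {V S : Type u} [AddCommGroup V] [Module F V] [AddCommGroup S] [Module F S]
    (a : S →ₗ[F] V) (b : V →ₗ[F] S) (hc : ∀ y, y + b (a y) = (-1 : F) • y) :
    (1 + a ∘ₗ b : End F V) * (1 + a ∘ₗ b) = 1 := by
  ext v
  have := congrArg a (hc (b v))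
  simp only [map_add, map_smul] at this
  simp only [End.mul_apply, LinearMap.add_apply, End.one_apply, comp_apply, map_add]
  linear_combination (norm := module) this

theorem to_mod {D : Dat F U} {l : F} {R : End F U} (h : D.Ok (-l) (-1) R) (h0 : l ≠ 0) :
    ∃ M : Mod F U, M.Ok l⁻¹ (l⁻¹ • R) ∧ M.dim = D.dim ∧
      ∀ U' x, M.Sub U' x → ∃ t, D.Sub U' x t := by
  have i1 := arm_inv _ _ h.c1
  have i2 := arm_inv _ _ h.c2
  have i3 := arm_inv _ _ h.c3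
  refine ⟨⟨D.V, -(1 + D.a3 ∘ₗ D.b3), 1 + D.a2 ∘ₗ D.b2, 1 + D.a1 ∘ₗ D.b1, l⁻¹ • D.a, D.b⟩,
    ⟨(neg_mul_neg _ _).trans i3, i2, i1, ?_, ?_⟩, rfl, ?_⟩
  · ext v
    have e := h.prod v
    have e1 := congrArg (1 + D.a3 ∘ₗ D.b3 : End F D.V) (congrArg (1 + D.a2 ∘ₗ D.b2 : End F D.V)
      (congrArg (1 + D.a1 ∘ₗ D.b1 : End F D.V) e))
    have j : ∀ {J : End F D.V}, J * J = 1 → ∀ x, J (J x) = x := fun hJ x => congr($hJ x)
    rw [j i1, j i2, j i3, map_smul, map_smul, map_smul] at e1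
    have e2 : v + D.a (D.b v) = _ := e1
    change -((1 + D.a3 ∘ₗ D.b3 : End F D.V) ((1 + D.a2 ∘ₗ D.b2 : End F D.V)
      ((1 + D.a1 ∘ₗ D.b1 : End F D.V) v))) = l⁻¹ • v + l⁻¹ • D.a (D.b v)
    rw [← smul_add, e2, smul_smul, mul_neg, inv_mul_cancel₀ h0, neg_one_smul]
  · ext y
    simp [h.red]
  · rintro U' x ⟨p, ⟨k1, k2, k3⟩, ha, hb, hx⟩
    refine ⟨_, p, p.map D.b1, p.map D.b2, p.map D.b3, ⟨?_, fun y hy => ⟨y, hy, rfl⟩, ?_,
      fun y hy => ⟨y, hy, rfl⟩, ?_, fun y hy => ⟨y, hy, rfl⟩, ?_, hb⟩, hx, rfl⟩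
    · rintro _ ⟨v, hv, rfl⟩; simpa using sub_mem (k3 v hv) hv
    · rintro _ ⟨v, hv, rfl⟩; simpa using sub_mem (k2 v hv) hv
    · rintro _ ⟨v, hv, rfl⟩; simpa using sub_mem (neg_mem (k1 v hv)) hv
    · intro y hy
      exact (Submodule.smul_mem_iff _ (inv_ne_zero h0)).1 (ha y hy)

end Dat

/-- the mutation -/
theorem mutate {U : Type u} [AddCommGroup U] [Module F U] [FiniteDimensional F U]
    {M : Mod F U} {l : F} {R : End F U} (h : M.Ok l R) (h0 : l ≠ 0) (h4 : l ^ 4 ≠ 1) :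
    ∃ M' : Mod F U, M'.Ok l⁻¹ (l ^ 2 • R) ∧ M.dim + M'.dim = 4 * finrank F U ∧
      ∀ U' x', M'.Sub U' x' → ∃ x, M.Sub U' x ∧ x + x' = 4 * finrank F U' := by
  have n1 : l ≠ 1 := by rintro rfl; simp at h4
  have n2 : l ≠ -1 := by rintro rfl; apply h4; ring
  have n3 : l ^ 2 ≠ -1 := by
    intro e; apply h4; rw [show l ^ 4 = (l ^ 2) ^ 2 by ring, e]; ring
  obtain ⟨D0, o0, d0, s0⟩ := Dat.of_mod h h0
  obtain ⟨D1, o1, t1, d1, s1⟩ := Dat.exists_mc o0 (inv_ne_zero h0) (by simpa using n1)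
  rw [inv_inv, mul_neg_one, smul_smul, mul_inv_cancel₀ h0, one_smul] at o1
  obtain ⟨D2, o2, d2, t2, s2⟩ := Dat.exists_switch o1 (neg_ne_zero.2 h0)
    (fun e => n2 (by rw [← e]; ring))
  rw [show l * (-l)⁻¹ ^ 3 = (-l ^ 2)⁻¹ by field_simp] at o2
  obtain ⟨D3, o3, t3, d3, s3⟩ := Dat.exists_mc o2 (by simpa using h0)
    (fun e => n3 (by rw [inv_eq_one] at e; rw [← e]; ring))
  rw [inv_inv, show -l ^ 2 * (-l)⁻¹ = l by field_simp] at o3
  obtain ⟨D4, o4, d4, t4, s4⟩ := Dat.exists_switch o3 h0 n1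
  rw [show -l ^ 2 * l⁻¹ ^ 3 = (-l)⁻¹ by field_simp] at o4
  obtain ⟨D5, o5, t5, d5, s5⟩ := Dat.exists_mc o4 (by simpa using h0)
    (fun e => n2 (by rw [inv_eq_one] at e; rw [← e]; ring))
  rw [inv_inv, show -l * l⁻¹ = -1 by field_simp] at o5
  obtain ⟨M', o6, d6, s6⟩ := Dat.to_mod o5 h0
  rw [smul_smul, smul_smul, show l⁻¹ * -l * -l ^ 2 = l ^ 2 by field_simp] at o6
  refine ⟨M', o6, by omega, ?_⟩
  intro U' x' hs
  obtain ⟨p5, k5⟩ := s6 U' x' hs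
  obtain ⟨x4, k4, e4⟩ := s5 _ _ _ k5
  obtain ⟨p3, k3, e3⟩ := s4 _ _ _ k4
  obtain ⟨x2, k2, e2⟩ := s3 _ _ _ k3
  obtain ⟨p1, k1, e1⟩ := s2 _ _ _ k2
  obtain ⟨x0, k0, e0⟩ := s1 _ _ _ k1
  exact ⟨x0, s0 _ _ _ k0, by omega⟩

theorem Cl.mutate {U : Type u} [AddCommGroup U] [Module F U] [FiniteDimensional F U]
    {l : F} {R : End F U} {n : ℕ} (h : Cl l R n) (h0 : l ≠ 0) (h4 : l ^ 4 ≠ 1) :
    ∃ n', n + n' = 4 * finrank F U ∧ Cl l⁻¹ (l ^ 2 • R) n' := by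
  obtain ⟨M, hM, rfl⟩ := h
  obtain ⟨M', o, d, -⟩ := MP_530e0f_al.mutate hM h0 h4
  exact ⟨_, d, M', o, rfl⟩

theorem inv_pow_four {l : F} (h4 : l ^ 4 ≠ 1) : l⁻¹ ^ 4 ≠ 1 := by
  rw [inv_pow]; simpa using h4

theorem Cl.mutate_back {U : Type u} [AddCommGroup U] [Module F U] [FiniteDimensional F U]
    {l : F} {R : End F U} {n' : ℕ} (h : Cl l⁻¹ (l ^ 2 • R) n') (h0 : l ≠ 0) (h4 : l ^ 4 ≠ 1) :
    ∃ n, n + n' = 4 * finrank F U ∧ Cl l R n := by
  obtain ⟨n, e, k⟩ := h.mutate (inv_ne_zero h0) (inv_pow_four h4)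
  rw [inv_inv, smul_smul, show l⁻¹ ^ 2 * l ^ 2 = 1 by field_simp, one_smul] at k
  exact ⟨n, by omega, k⟩

theorem no_scalar {V : Type u} [AddCommGroup V] [Module F V] [FiniteDimensional F V] {c : F}
    (h : I3 (c • (1 : End F V))) (h4 : c ^ 4 ≠ 1) : finrank F V = 0 := by
  by_cases h0 : c = 0
  · have := h.inj
    rw [Module.finrank_zero_iff]
    exact ⟨fun x y => this (by simp [h0])⟩
  have h' : I3 (c • (1 : End F V) + (0 : PUnit.{u + 1} →ₗ[F] V) ∘ₗ (0 : V →ₗ[F] PUnit.{u + 1})) := by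
    simpa using h
  obtain ⟨n', e, -⟩ := (cl_of_i3 _ _ h').mutate h0 h4
  simp only [Module.finrank_zero_of_subsingleton] at e
  omega

end Pool.Agent.Lib.MP_530e0f_al
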