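import Pool.Agent.Lib.MP_530e0f_al.Rev
import Pool.Agent.Lib.MP_530e0f_al.MC

/-! Solutions with scalar reduced part. -/

namespace Pool.Agent.Lib.MP_530e0f_al

open Module Submodule
open LinearMap hiding sub_apply smul_apply add_apply zero_apply neg_apply

universe u

variable {F : Type u} [Field F]

section Cls

variable {U U' V : Type u} [AddCommGroup U] [Module F U] [AddCommGroup U'] [Module F U']
  [AddCommGroup V] [Module F V]

/-- existence of an exact solution with given reduced part -/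
def Clx (c : F) (R : End F U) (n : ℕ) : Prop :=
  ∃ M : Mod F U, M.Ok c R ∧ M.dim = n ∧ Function.Injective M.a ∧ Function.Surjective M.b

theorem Clx.cl {c : F} {R : End F U} {n : ℕ} (h : Clx c R n) : Cl c R n := by
  obtain ⟨M, h1, h2, -⟩ := h; exact ⟨M, h1, h2⟩

theorem Clx.conj {c : F} {R : End F U} {R' : End F U'} {n : ℕ} (h : Clx c R n) (e : U ≃ₗ[F] U')
    (he : ∀ x, e (R x) = R' (e x)) : Clx c R' n := by
  obtain ⟨M, hM, hn, ha, hb⟩ := h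
  refine ⟨⟨M.V, M.J1, M.J2, M.J3, M.a ∘ₗ (e.symm : U' →ₗ[F] U), (e : U →ₗ[F] U') ∘ₗ M.b⟩,
    ⟨hM.h1, hM.h2, hM.h3, ?_, ?_⟩, hn, ha.comp e.symm.injective, e.surjective.comp hb⟩
  · rw [hM.prod]; ext x; simp
  · ext x
    obtain ⟨x, rfl⟩ := e.surjective x
    simp [← he, hM.red]

/-- direct sum of solutions -/
def Mod.sum (M : Mod F U) (M' : Mod F U') : Mod F (U × U') :=
  ⟨M.V × M'.V, M.J1.prodMap M'.J1, M.J2.prodMap M'.J2, M.J3.prodMap M'.J3, M.a.prodMap M'.a,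
    M.b.prodMap M'.b⟩

theorem Mod.sum_ok {M : Mod F U} {M' : Mod F U'} {c ξ : F} (h : M.Ok c (ξ • 1))
    (h' : M'.Ok c (ξ • 1)) : (M.sum M').Ok c (ξ • 1) := by
  refine ⟨?_, ?_, ?_, ?_, ?_⟩
  · exact (LinearMap.prodMap_mul _ _ _ _).trans (by rw [h.h1, h'.h1]; rfl)
  · exact (LinearMap.prodMap_mul _ _ _ _).trans (by rw [h.h2, h'.h2]; rfl)
  · exact (LinearMap.prodMap_mul _ _ _ _).trans (by rw [h.h3, h'.h3]; rfl)
  · apply LinearMap.ext; rintro ⟨x, y⟩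
    exact Prod.ext congr($h.prod x) congr($h'.prod y)
  · apply LinearMap.ext; rintro ⟨x, y⟩
    exact Prod.ext congr($h.red x) congr($h'.red y)

theorem i3_of_clx [FiniteDimensional F V] [FiniteDimensional F U] {c : F} {a : U →ₗ[F] V}
    {b : V →ₗ[F] U} (ha : Function.Injective a) (hb : Function.Surjective b)
    (h : Clx c (c • (1 : End F U) + b ∘ₗ a) (finrank F V)) :
    I3 (c • (1 : End F V) + a ∘ₗ b) := by
  obtain ⟨M, hM, hn, ha', hb'⟩ := h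
  obtain ⟨e, e1, e2⟩ := unique_exact M.a M.b a b ha' hb' ha hb (add_left_cancel hM.red).symm hn
  exact hM.i3.conj e (fun x => by simp [e1, e2])

theorem Cl.clx_of_ne {c ξ : F} {n : ℕ} (h : Cl c (ξ • (1 : End F U)) n) (hne : c ≠ ξ) :
    Clx c (ξ • (1 : End F U)) n := by
  obtain ⟨M, hM, hn⟩ := h
  have e : ∀ y, M.b (M.a y) = (ξ - c) • y := fun y => by
    have : ξ • y = c • y + M.b (M.a y) := congr($hM.red y)
    rw [sub_smul, this]; abel
  have h0 : ξ - c ≠ 0 := sub_ne_zero.2 hne.symm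
  refine ⟨M, hM, hn, ?_, ?_⟩
  · intro x y hxy
    have := congrArg M.b hxy
    rw [e, e] at this
    exact smul_right_injective _ h0 this
  · intro y
    exact ⟨(ξ - c)⁻¹ • M.a y, by rw [map_smul, e, smul_smul, inv_mul_cancel₀ h0, one_smul]⟩

/-- canonical factorisation -/
theorem sh_factor (A : End F V) (c : F) :
    A = c • (1 : End F V) + (range (sh A c)).subtype ∘ₗ (sh A c).rangeRestrict := by
  ext x; simp

end Cls

/-- scalar reduced part -/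
def P2 (κ ξ : F) (n ρ : ℕ) : Prop := Cl κ (ξ • (1 : End F (Fin ρ → F))) n

/-- scalar reduced part, exact -/
def P2x (κ ξ : F) (n ρ : ℕ) : Prop := Clx κ (ξ • (1 : End F (Fin ρ → F))) n

section

variable {U : Type u} [AddCommGroup U] [Module F U] [FiniteDimensional F U] {κ ξ : F} {n ρ : ℕ}

theorem P2.of_cl (h : Cl κ (ξ • (1 : End F U)) n) (hρ : finrank F U = ρ) : P2 κ ξ n ρ :=
  h.conj (LinearEquiv.ofFinrankEq _ _ (by simp [hρ])) (by simp)

theorem P2.cl (h : P2 κ ξ n ρ) (hρ : finrank F U = ρ) : Cl κ (ξ • (1 : End F U)) n :=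
  Cl.conj h (LinearEquiv.ofFinrankEq _ _ (by simp [hρ])) (by simp)

theorem P2x.of_clx (h : Clx κ (ξ • (1 : End F U)) n) (hρ : finrank F U = ρ) : P2x κ ξ n ρ :=
  h.conj (LinearEquiv.ofFinrankEq _ _ (by simp [hρ])) (by simp)

theorem P2x.clx (h : P2x κ ξ n ρ) (hρ : finrank F U = ρ) : Clx κ (ξ • (1 : End F U)) n :=
  Clx.conj h (LinearEquiv.ofFinrankEq _ _ (by simp [hρ])) (by simp)

end

theorem P2.add {κ ξ : F} {n ρ n' ρ' : ℕ} (h : P2 κ ξ n ρ) (h' : P2 κ ξ n' ρ') :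
    P2 κ ξ (n + n') (ρ + ρ') := by
  obtain ⟨M, h1, rfl⟩ := h
  obtain ⟨M', h1', rfl⟩ := h'
  exact P2.of_cl ⟨M.sum M', Mod.sum_ok h1 h1', Module.finrank_prod⟩ (by simp)

theorem P2x.add {κ ξ : F} {n ρ n' ρ' : ℕ} (h : P2x κ ξ n ρ) (h' : P2x κ ξ n' ρ') :
    P2x κ ξ (n + n') (ρ + ρ') := by
  obtain ⟨M, h1, rfl, a1, b1⟩ := h
  obtain ⟨M', h1', rfl, a2, b2⟩ := h'
  exact P2x.of_clx ⟨M.sum M', Mod.sum_ok h1 h1', Module.finrank_prod, a1.prodMap a2,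
    b1.prodMap b2⟩ (by simp)

theorem P2.zero (κ : F) (ρ : ℕ) : P2 κ κ 0 ρ :=
  ⟨⟨PUnit, 1, 1, 1, 0, 0⟩, ⟨by simp, by simp, by simp, Subsingleton.elim _ _, by simp⟩,
    Module.finrank_zero_of_subsingleton⟩

theorem P2.of_scalar {V : Type u} [AddCommGroup V] [Module F V] [FiniteDimensional F V] {κ : F}
    (ξ : F) (h : I3 (κ • (1 : End F V))) : P2 κ ξ (finrank F V) 0 := by
  obtain ⟨J1, J2, J3, h1, h2, h3, h4⟩ := h
  exact ⟨⟨V, J1, J2, J3, 0, 0⟩, ⟨h1, h2, h3, by simpa using h4, Subsingleton.elim _ _⟩, rfl⟩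

theorem nsol_scalar1 {V : Type u} [AddCommGroup V] [Module F V] {κ : F} (h : κ * κ = 1) :
    NSol (κ • (1 : End F V)) := by
  refine ⟨κ • 1, 1, 1, by rw [smul_mul_smul_comm, h]; simp, by simp, by simp, by simp, ?_⟩
  rw [mul_one, smul_pow, show κ ^ 4 = 1 by linear_combination (κ * κ + 1) * h]
  simp

theorem nsol_scalar2 {κ : F} (h : κ * κ = -1) : NSol (κ • (1 : End F (F × F))) := by
  let J1 : End F (F × F) := (LinearMap.snd F F F).prod (LinearMap.fst F F F)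
  let J2 : End F (F × F) := (-κ • LinearMap.snd F F F).prod (κ • LinearMap.fst F F F)
  let J3 : End F (F × F) := (LinearMap.fst F F F).prod (-LinearMap.snd F F F)
  refine ⟨J1, J2, J3, ?_, ?_, ?_, ?_, ?_⟩
  · apply LinearMap.ext; rintro ⟨x, y⟩; simp [J1]
  · apply LinearMap.ext; rintro ⟨x, y⟩; simp [J2, ← mul_assoc, h]
  · apply LinearMap.ext; rintro ⟨x, y⟩; simp [J3]
  · apply LinearMap.ext; rintro ⟨x, y⟩; simp [J1, J2, J3]
  · have : (J1 * J2) ^ 4 = 1 := by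
      apply LinearMap.ext; rintro ⟨x, y⟩; simp [J1, J2, pow_succ, ← mul_assoc, h]
    rw [this]; simp

theorem P2.scalar1 {κ : F} (ξ : F) (h : κ * κ = 1) (k : ℕ) : P2 κ ξ k 0 := by
  simpa using P2.of_scalar (V := Fin k → F) ξ (nsol_scalar1 h).i3

theorem P2.scalar2 {κ : F} (ξ : F) (h : κ * κ = -1) (k : ℕ) : P2 κ ξ (2 * k) 0 := by
  induction k with
  | zero => simpa using P2.of_scalar (V := Fin 0 → F) ξ (i3_of_subsingleton _)
  | succ k ih =>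
    have := ih.add (P2.of_scalar ξ (nsol_scalar2 h).i3)
    simpa [mul_add] using this

theorem Q2 {α β : F} {m : ℕ} (h : (α * β) ^ (2 * m) = 1) : P2x α β (2 * m) m := by
  obtain ⟨J1, J2, J3, h1, h2, h3, h4⟩ := q1 (W := Fin m → F) (α * β) (by simpa using h)
    ((α + β) • 1)
  refine ⟨⟨(Fin m → F) × (Fin m → F), J1, J2, J3, (-α • (1 : End F _)).prod 1,
    (1 : End F _).coprod (β • 1)⟩, ⟨h1, h2, h3, ?_, ?_⟩, by simp [Mod.dim]; omega, ?_, ?_⟩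
  · rw [h4]; apply LinearMap.ext; rintro ⟨x, y⟩
    simp only [bc_apply, LinearMap.smul_apply, End.one_apply, LinearMap.add_apply, comp_apply,
      coprod_apply, LinearMap.prod_apply, Function.prod, Prod.smul_mk, Prod.mk_add_mk, Prod.mk.injEq]
    constructor <;> module
  · apply LinearMap.ext; intro x; simp
  · intro x y hxy; exact congrArg Prod.snd hxy
  · intro x; exact ⟨(x, 0), by simp⟩

theorem P2.switch {κ ξ : F} {n ρ : ℕ} (h : P2 κ ξ n ρ) (hne : κ ≠ ξ) :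
    ∃ ρ', ρ + ρ' = n ∧ P2 ξ κ n ρ' := by
  obtain ⟨M, hM, rfl, -, hb⟩ := Cl.clx_of_ne h hne
  have e : ∀ y, κ • y + M.b (M.a y) = ξ • y := fun y => (congr($hM.red y)).symm
  have := rk_add_ker M.b
  rw [rk_surj _ hb] at this
  refine ⟨finrank F (ker M.b), by simpa using this, P2.of_cl ?_ rfl⟩
  let b' : M.V →ₗ[F] ker M.b := ((κ - ξ) • (1 : End F M.V) + M.a ∘ₗ M.b).codRestrict _ (by
    intro v
    change M.b ((κ - ξ) • v + M.a (M.b v)) = 0
    rw [map_add, map_smul, sub_smul, ← e]; abel)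
  have hb' : ∀ v, (b' v : M.V) = (κ - ξ) • v + M.a (M.b v) := fun _ => rfl
  refine ⟨⟨M.V, M.J1, M.J2, M.J3, (ker M.b).subtype, b'⟩, ⟨hM.h1, hM.h2, hM.h3, ?_, ?_⟩, rfl⟩
  · rw [hM.prod]; ext v; simp [hb', sub_smul]; abel
  · ext ⟨v, hv⟩
    have : M.b v = 0 := hv
    simp [hb', this, sub_smul]

theorem P2.mutate {κ ξ : F} {n ρ : ℕ} (h : P2 κ ξ n ρ) (h0 : κ ≠ 0) (h4 : κ ^ 4 ≠ 1) :
    ∃ n', n + n' = 4 * ρ ∧ P2 κ⁻¹ (κ ^ 2 * ξ) n' ρ := by
  obtain ⟨n', e, k⟩ := Cl.mutate h h0 h4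
  rw [smul_smul] at k
  exact ⟨n', by simpa using e, k⟩

theorem P2.mutate_back {κ ξ : F} {n' ρ : ℕ} (h : P2 κ⁻¹ (κ ^ 2 * ξ) n' ρ) (h0 : κ ≠ 0)
    (h4 : κ ^ 4 ≠ 1) : ∃ n, n + n' = 4 * ρ ∧ P2 κ ξ n ρ := by
  unfold P2 at h
  rw [← smul_smul] at h
  obtain ⟨n, e, k⟩ := Cl.mutate_back h h0 h4
  exact ⟨n, by simpa using e, k⟩

theorem P2.det {κ ξ : F} {n ρ : ℕ} (h : P2 κ ξ n ρ) (h0 : κ ≠ 0) :
    (κ ^ n * ξ ^ ρ) ^ 2 = (κ ^ ρ) ^ 2 := by
  obtain ⟨M, hM, rfl⟩ := h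
  have h1 := det_sylv M.a M.b κ h0
  rw [← hM.red, LinearMap.det_smul, map_one, mul_one] at h1
  have h2 := hM.i3.det_sq
  simp only [Module.finrank_fintype_fun_eq_card, Fintype.card_fin] at h1
  rw [← h1, mul_pow, h2, one_mul]

theorem zlem (m : ℕ) : ∀ α β : F, α ≠ 0 → β ≠ 0 → (α ^ (m + 1) * β ^ m) ^ 2 = 1 →
    P2 α β (2 * m + 1) m := by
  induction m with
  | zero => intro α β _ _ h; exact P2.scalar1 β (by simpa [sq] using h) 1
  | succ m ih =>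
    intro α β ha hb h
    by_cases h4 : α ^ 4 = 1
    · by_cases h2 : α * α = 1
      · have := (Q2 (α := α) (β := β) (m := m + 1) (by
          rw [← h]; linear_combination (-(α * β) ^ (2 * (m + 1))) * h2)).cl
        exact P2.add (ρ := m + 1) this (P2.scalar1 β h2 1)
      have h3 : α * α = -1 := by
        have : (α * α - 1) * (α * α + 1) = 0 := by linear_combination h4
        rcases mul_eq_zero.1 this with h | h
        · exact absurd (sub_eq_zero.1 h) h2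
        · exact eq_neg_of_add_eq_zero_left h
      have hne : β ≠ α := by
        rintro rfl
        apply h2
        have : (β ^ 4) ^ (m + 1) * (β * β) = 1 := by rw [← h]; ring
        rwa [h4, one_pow, one_mul] at this
      obtain ⟨ρ', e, k⟩ := (ih β α hb ha (by
        rw [← h]; linear_combination (-(β ^ (m + 1) * α ^ m) ^ 2) * h4)).switch hne
      have := k.add (P2.scalar2 β h3 1)
      rw [show ρ' = m + 1 by omega] at this
      exact this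
    have hγ : α ^ 2 * β ≠ 0 := by simp [ha, hb]
    have h1 := ih (α ^ 2 * β) α⁻¹ hγ (inv_ne_zero ha) (by
      rw [← h, inv_pow]; field_simp; ring)
    have h2 : P2 α⁻¹ (α ^ 2 * β) (2 * m + 1) (m + 1) := by
      by_cases e : α ^ 2 * β = α⁻¹
      · rw [e] at h1 ⊢
        exact h1.add (P2.zero _ 1)
      · obtain ⟨ρ', e, k⟩ := h1.switch e
        rwa [show ρ' = m + 1 by omega] at k
    obtain ⟨n, e, k⟩ := h2.mutate_back ha h4
    rwa [show n = 2 * (m + 1) + 1 by omega] at k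

theorem step_fwd {κ ξ : F} {ρ k : ℕ} (h : P2 κ ξ (2 * ρ + k) ρ) (h0 : κ ≠ 0) (h4 : κ ^ 4 ≠ 1)
    (h3 : κ⁻¹ ≠ κ ^ 2 * ξ) : ∃ ρ', ρ = ρ' + k ∧ P2 (κ ^ 2 * ξ) κ⁻¹ (2 * ρ' + k) ρ' := by
  obtain ⟨n', e, h1⟩ := h.mutate h0 h4
  obtain ⟨ρ', e', h2⟩ := h1.switch h3
  refine ⟨ρ', by omega, ?_⟩
  rwa [show n' = 2 * ρ' + k by omega] at h2

theorem step_bwd {κ ξ : F} {ρ k : ℕ} (h : P2 (κ ^ 2 * ξ) κ⁻¹ (2 * ρ + k) ρ) (h0 : κ ≠ 0)
    (h4 : κ ^ 4 ≠ 1) (h3 : κ⁻¹ ≠ κ ^ 2 * ξ) : P2 κ ξ (2 * (ρ + k) + k) (ρ + k) := by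
  obtain ⟨ρ', e', h2⟩ := h.switch h3.symm
  obtain ⟨n, e, h1⟩ := h2.mutate_back h0 h4
  rwa [show n = 2 * (ρ + k) + k by omega, show ρ' = ρ + k by omega] at h1

/-- regular steps -/
def Reg (l : F) (r : ℕ) : Prop := (l ^ 4) ^ (2 * r + 1) ≠ 1 ∧ (l ^ 4) ^ (r + 1) ≠ 1

theorem Reg.h4 {l : F} {r : ℕ} (h : Reg l r) : (l ^ (2 * r + 1)) ^ 4 ≠ 1 := by
  rw [← pow_mul, mul_comm, pow_mul]; exact h.1

theorem lab1 {l : F} (h0 : l ≠ 0) (r : ℕ) :
    (l ^ (2 * r + 1)) ^ 2 * (l * l⁻¹ ^ (2 * r)) = l ^ (2 * (r + 1) + 1) := by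
  rw [inv_pow]; field_simp; ring

theorem lab2 {l : F} (h0 : l ≠ 0) (r : ℕ) :
    (l ^ (2 * r + 1))⁻¹ = l * l⁻¹ ^ (2 * (r + 1)) := by
  rw [inv_pow]; field_simp; ring

theorem Reg.h3 {l : F} {r : ℕ} (h : Reg l r) (h0 : l ≠ 0) :
    (l ^ (2 * r + 1))⁻¹ ≠ (l ^ (2 * r + 1)) ^ 2 * (l * l⁻¹ ^ (2 * r)) := by
  rw [lab1 h0]
  intro e
  apply h.2
  rw [inv_eq_iff_eq_inv, ← mul_inv_eq_one₀ (by simp [h0]), inv_inv] at e
  rw [← e]; ring

theorem chain_fwd {l : F} (h0 : l ≠ 0) {t k : ℕ} (h : P2 l l (2 * t + k) t) (r : ℕ)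
    (hr : ∀ r' < r, Reg l r') :
    ∃ ρ, t = ρ + r * k ∧ P2 (l ^ (2 * r + 1)) (l * l⁻¹ ^ (2 * r)) (2 * ρ + k) ρ := by
  induction r with
  | zero => exact ⟨t, by simp, by simpa using h⟩
  | succ r ih =>
    obtain ⟨ρ, e, h1⟩ := ih (fun r' h => hr r' (by omega))
    obtain ⟨ρ', e', h2⟩ := step_fwd h1 (by simp [h0]) (hr r (by omega)).h4 ((hr r (by omega)).h3 h0)
    rw [lab1 h0, lab2 h0] at h2
    exact ⟨ρ', by rw [e, e']; ring, h2⟩

theorem chain_bwd {l : F} (h0 : l ≠ 0) {k : ℕ} (r : ℕ) (hr : ∀ r' < r, Reg l r') :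
    ∀ ρ, P2 (l ^ (2 * r + 1)) (l * l⁻¹ ^ (2 * r)) (2 * ρ + k) ρ →
      P2 l l (2 * (ρ + r * k) + k) (ρ + r * k) := by
  induction r with
  | zero => intro ρ h; simpa using h
  | succ r ih =>
    intro ρ h
    rw [← lab1 h0, ← lab2 h0] at h
    have := ih (fun r' h => hr r' (by omega)) _
      (step_bwd h (by simp [h0]) (hr r (by omega)).h4 ((hr r (by omega)).h3 h0))
    rwa [show ρ + k + r * k = ρ + (r + 1) * k by ring] at this

theorem P2.reduce {l : F} {n t : ℕ} (h : P2 l l n t) :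
    P2x l l n t ∨ ∃ t' < t, P2 l l n t' := by
  obtain ⟨M, hM, rfl⟩ := h
  by_cases h1 : t ≤ rk (M.a ∘ₗ M.b)
  · obtain ⟨ha, hb⟩ := exact_of_rk M.a M.b (by simpa using h1)
    exact Or.inl ⟨M, hM, rfl, ha, hb⟩
  refine Or.inr ⟨rk (M.a ∘ₗ M.b), by omega, P2.of_cl ⟨⟨M.V, M.J1, M.J2, M.J3,
    (range (M.a ∘ₗ M.b)).subtype, (M.a ∘ₗ M.b).rangeRestrict⟩,
    ⟨hM.h1, hM.h2, hM.h3, hM.prod, ?_⟩, rfl⟩ rfl⟩
  have e : ∀ y, M.b (M.a y) = 0 := fun y => by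
    have : l • y = l • y + M.b (M.a y) := congr($hM.red y)
    simpa using this
  ext ⟨_, v, rfl⟩
  simp [e]

theorem qm {l : F} (h0 : l ≠ 0) (h4 : l ^ 4 ≠ 1) {t k : ℕ} (hk : 0 < k)
    (h : P2 l l (2 * t + k) t) : P2x l l (2 * t + k) t := by
  classical
  have hex : ∃ r, ¬ Reg l r := by
    by_contra hc
    push Not at hc
    obtain ⟨ρ, e, -⟩ := chain_fwd h0 h (t + 1) (fun r _ => hc r)
    nlinarith
  set r := Nat.find hex
  have hr : ∀ r' < r, Reg l r' := fun r' h => not_not.1 (Nat.find_min hex h)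
  have hr2 : ¬ Reg l r := Nat.find_spec hex
  have hdet : ∀ {n t}, P2 l l n t → l ^ (2 * n) = 1 := by
    intro n t h
    have := h.det h0
    rw [mul_pow, mul_eq_right₀ (by simp [h0]), ← pow_mul, mul_comm] at this
    exact this
  have fin : ∀ t1, t1 ≤ t → P2 l l (2 * t1 + k) t1 →
      (∀ t' < t1, ¬ P2 l l (2 * t1 + k) t') → P2x l l (2 * t + k) t := by
    intro t1 h1 h2 h3
    have h5 : P2x l l (2 * t1 + k) t1 := by
      rcases h2.reduce with h | ⟨t', h, h'⟩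
      · exact h
      · exact absurd h' (h3 t' h)
    obtain ⟨t0, rfl⟩ := Nat.exists_eq_add_of_le h1
    have d1 := hdet h
    have d2 := hdet h2
    have := h5.add (Q2 (α := l) (β := l) (m := t0) (by
      have e : l ^ (2 * (2 * (t1 + t0) + k)) = l ^ (2 * (2 * t1 + k)) * (l * l) ^ (2 * t0) := by
        ring
      rw [e, d2, one_mul] at d1
      exact d1))
    rwa [show 2 * t1 + k + 2 * t0 = 2 * (t1 + t0) + k by ring] at this
  obtain ⟨ρ, eρ, hρ⟩ := chain_fwd h0 h r hr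
  have d1 := hdet h
  by_cases c1 : (l ^ 4) ^ (2 * r + 1) = 1
  · have h5 : P2 (l ^ (2 * r + 1)) (l * l⁻¹ ^ (2 * r)) (2 * 0 + k) 0 := by
      set κ := l ^ (2 * r + 1) with hκ
      rw [mul_zero, zero_add]
      by_cases h2 : κ * κ = 1
      · exact P2.scalar1 _ h2 k
      have h3 : κ * κ = -1 := by
        have : (κ * κ - 1) * (κ * κ + 1) = 0 := by rw [hκ]; linear_combination c1
        rcases mul_eq_zero.1 this with h | h
        · exact absurd (sub_eq_zero.1 h) h2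
        · exact eq_neg_of_add_eq_zero_left h
      rcases Nat.even_or_odd' k with ⟨j, rfl | rfl⟩
      · exact P2.scalar2 _ h3 j
      · exfalso
        apply h2
        have : (κ * κ) ^ (2 * (t + j) + 1) = 1 := by
          have : (κ * κ) ^ (2 * (t + j) + 1) = (l ^ (2 * (2 * t + (2 * j + 1)))) ^ (2 * r + 1) := by
            rw [hκ]; ring
          rw [this, d1, one_pow]
        rw [h3, pow_succ, pow_mul] at this
        rw [h3]; simpa using this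
    have h6 := chain_bwd h0 r hr 0 h5
    rw [zero_add] at h6
    refine fin (r * k) (by omega) h6 ?_
    intro t' ht' h7
    obtain ⟨d, hd⟩ := Nat.exists_eq_add_of_lt ht'
    rw [show 2 * (r * k) + k = 2 * t' + (k + 2 * (d + 1)) by omega] at h7
    obtain ⟨ρ', e, -⟩ := chain_fwd h0 h7 r hr
    nlinarith
  have c2 : (l ^ 4) ^ (r + 1) = 1 := by
    by_contra c2; exact hr2 ⟨c1, c2⟩
  have k4 : (l ^ (2 * r + 1)) ^ 4 ≠ 1 := by rw [← pow_mul, mul_comm, pow_mul]; exact c1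
  have k0 : l ^ (2 * r + 1) ≠ 0 := by simp [h0]
  have k3 : (l ^ (2 * r + 1)) ^ 2 * (l * l⁻¹ ^ (2 * r)) = (l ^ (2 * r + 1))⁻¹ := by
    rw [lab1 h0]
    apply eq_inv_of_mul_eq_one_left
    rw [← c2]; ring
  rcases Nat.even_or_odd' k with ⟨j, rfl | rfl⟩
  · have h5 : P2 (l ^ (2 * r + 1))⁻¹ ((l ^ (2 * r + 1)) ^ 2 * (l * l⁻¹ ^ (2 * r))) 0 j := by
      rw [k3]; exact P2.zero _ _
    obtain ⟨n, e, h6⟩ := h5.mutate_back k0 k4
    rw [show n = 2 * j + 2 * j by omega] at h6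
    obtain ⟨n', e', -⟩ := hρ.mutate k0 k4
    refine fin (j + r * (2 * j)) (by omega) (chain_bwd h0 r hr j h6) ?_
    intro t' ht' h7
    obtain ⟨d, hd⟩ := Nat.exists_eq_add_of_lt ht'
    rw [show 2 * (j + r * (2 * j)) + 2 * j = 2 * t' + (2 * j + 2 * (d + 1)) by omega] at h7
    obtain ⟨ρ', e, h8⟩ := chain_fwd h0 h7 r hr
    obtain ⟨n'', e'', -⟩ := h8.mutate k0 k4
    nlinarith
  · exfalso
    have o1 : orderOf (l ^ 4) ∣ r + 1 := orderOf_dvd_of_pow_eq_one c2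
    have o2 : orderOf (l ^ 4) ∣ 2 * (t + j) + 1 := orderOf_dvd_of_pow_eq_one (by
      have : (l ^ 4) ^ (2 * (t + j) + 1) = (l ^ (2 * (2 * t + (2 * j + 1)))) ^ 2 := by ring
      rw [this, d1, one_pow])
    have o3 : Odd (orderOf (l ^ 4)) := Odd.of_dvd_nat (by simp) o2
    obtain ⟨s, hs⟩ := o3
    have o4 := Nat.le_of_dvd (by omega) o1
    have o5 : s ≠ 0 := by
      rintro rfl
      exact h4 (orderOf_eq_one_iff.1 hs)
    exact (hr s (by omega)).1 (by rw [← hs]; exact pow_orderOf_eq_one _)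

end Pool.Agent.Lib.MP_530e0f_al
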