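import Pool.Agent.Lib.MP_530e0f_al.Core
import Pool.Agent.Lib.MP_530e0f_al.P2

/-! The base theorem: no dominant eigenvalue off the fourth roots of unity. -/

namespace Pool.Agent.Lib.MP_530e0f_al

open Module Submodule
open LinearMap hiding sub_apply smul_apply add_apply zero_apply neg_apply

universe u

variable {F : Type u} [Field F]

theorem scalar_of_finrank_le_one {V : Type u} [AddCommGroup V] [Module F V]
    [FiniteDimensional F V] (h : finrank F V ≤ 1) (A : End F V) : ∃ c : F, A = c • 1 := by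
  obtain ⟨v, hv⟩ := finrank_le_one_iff.1 h
  obtain ⟨c, hc⟩ := hv (A v)
  refine ⟨c, ?_⟩
  ext w
  obtain ⟨d, rfl⟩ := hv w
  simp [← hc, smul_comm c d]

theorem det_red {V : Type u} [AddCommGroup V] [Module F V] [FiniteDimensional F V] (A : End F V)
    {c ξ : F} (hc : c ≠ 0) (h : ∀ x, A (sh A c x) = ξ • sh A c x) :
    LinearMap.det A * c ^ rk (sh A c) = c ^ finrank F V * ξ ^ rk (sh A c) ∧
    c • (1 : End F (range (sh A c))) + (sh A c).rangeRestrict ∘ₗ (range (sh A c)).subtype =
      ξ • 1 := by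
  have e : c • (1 : End F (range (sh A c))) + (sh A c).rangeRestrict ∘ₗ
      (range (sh A c)).subtype = ξ • 1 := by
    ext ⟨_, x, rfl⟩
    have := h x
    simp only [LinearMap.add_apply, LinearMap.smul_apply, End.one_apply, comp_apply,
      subtype_apply, coe_add, SetLike.val_smul, codRestrict_apply, rangeRestrict, ← this]
    rw [sh_apply A c (sh A c x)]; abel
  refine ⟨?_, e⟩
  have := det_sylv (range (sh A c)).subtype (sh A c).rangeRestrict c hc
  rw [← sh_factor, e, LinearMap.det_smul, map_one, mul_one] at this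
  exact this

theorem inQ_of_red {V : Type u} [AddCommGroup V] [Module F V] (A : End F V)
    {c ξ : F} (h : ∀ x, A (sh A c x) = ξ • sh A c x) : InQ A := by
  refine ⟨-(c * ξ), c + ξ, ?_⟩
  ext x
  have := h x
  simp only [sh_apply, map_sub, map_smul] at this
  simp only [End.mul_apply, LinearMap.add_apply, LinearMap.smul_apply, End.one_apply]
  linear_combination (norm := module) this

/-- statement of the base theorem in dimension `n` -/
def BaseStat (F : Type u) [Field F] (n : ℕ) : Prop :=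
  ∀ (V : Type u) [AddCommGroup V] [Module F V] [FiniteDimensional F V], finrank F V = n →
    ∀ A : End F V, LinearMap.det A ^ 2 = 1 → (∀ c : F, c ^ 4 ≠ 1 → ¬ Dom A c) →
      I3 A ∧ (¬ InQ A → NSol A)

theorem split_step {V T : Type u} [AddCommGroup V] [Module F V] [FiniteDimensional F V]
    [AddCommGroup T] [Module F T] [FiniteDimensional F T] (A : End F V) (ε : F)
    (t : T →ₗ[F] V) (ht : Function.Injective t) (hk : ∀ s, A (t s) = ε • t s)
    (hdis : Disjoint (range (sh A ε)) (range t)) (hT : NSol (ε • (1 : End F T)))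
    (hd : LinearMap.det A ^ 2 = 1) (hT2 : finrank F T ≤ 2) (hdom : Dom A ε)
    (hnd : ∀ c : F, c ^ 4 ≠ 1 → 2 * finrank F (ker (sh A c)) + finrank F T ≤ finrank F V)
    (ih : BaseStat F (finrank F V - finrank F T)) : I3 A ∧ (¬ InQ A → NSol A) := by
  obtain ⟨V1, h1, h2⟩ := hdis.exists_isCompl
  have inv : ∀ x ∈ V1, A x ∈ V1 := fun x hx => by
    simpa using add_mem (h1 ⟨x, rfl⟩) (smul_mem _ ε hx)
  let A1 : End F V1 := A.restrict inv
  have hb : Function.Bijective (t.coprod V1.subtype) := by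
    constructor
    · rw [← ker_eq_bot, eq_bot_iff]
      rintro ⟨s, x⟩ hx
      simp only [mem_ker, coprod_apply, subtype_apply] at hx
      have : (x : V) ∈ V1 ⊓ range t := ⟨x.2, -s, by rw [map_neg, neg_eq_of_add_eq_zero_right hx]⟩
      rw [h2.inf_eq_bot, mem_bot] at this
      rw [this, add_zero, map_eq_zero_iff _ ht] at hx
      simpa [hx] using this
    · intro v
      obtain ⟨x, hx, _, ⟨s, rfl⟩, rfl⟩ := mem_sup.1 (h2.sup_eq_top ▸ mem_top : v ∈ V1 ⊔ range t)
      exact ⟨(s, ⟨x, hx⟩), by simp [add_comm]⟩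
  let e := LinearEquiv.ofBijective _ hb
  have he : ∀ x, e ((ε • (1 : End F T)).prodMap A1 x) = A (e x) := by
    rintro ⟨s, x⟩
    change t (ε • s) + A x = A (t s + x)
    rw [map_add, hk, map_smul]
  have hdim : finrank F T + finrank F V1 = finrank F V := by
    rw [← e.finrank_eq, Module.finrank_prod]
  have hd1 : LinearMap.det A1 ^ 2 = 1 := by
    rw [← det_of_conj _ _ e he, LinearMap.det_prodMap, mul_pow, hT.i3.det_sq, one_mul] at hd
    exact hd
  obtain ⟨k1, k2⟩ := ih V1 (by omega) A1 hd1 (by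
    intro c hc
    have a1 := hnd c hc
    have a2 := rk_add_ker (sh A1 c)
    have a3 : finrank F (ker (sh A1 c)) ≤ finrank F (ker (sh A c)) := by
      rw [← Submodule.finrank_map_subtype_eq]
      apply Submodule.finrank_mono
      rintro _ ⟨x, hx, rfl⟩
      exact congrArg Subtype.val hx
    unfold Dom; omega)
  refine ⟨(hT.i3.prod k1).conj e he, fun hq => (hT.prod (k2 fun hq1 => hq ?_)).conj e he⟩
  obtain ⟨p, q, r1, r2⟩ : ∃ p q : F, A1 * A1 = q • A1 + p • 1 ∧ ε * ε = q * ε + p := by
    by_cases hinj : ker (sh A1 ε) = ⊥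
    · have a1 : finrank F V1 ≤ rk (sh A ε) := by
        rw [← rk_inj _ (ker_eq_bot.1 hinj)]
        unfold rk
        rw [← Submodule.finrank_map_subtype_eq]
        apply Submodule.finrank_mono
        rintro _ ⟨_, ⟨x, rfl⟩, rfl⟩
        exact ⟨x, rfl⟩
      obtain ⟨μ, hμ⟩ := scalar_of_finrank_le_one (V := V1) (by unfold Dom at hdom; omega) A1
      refine ⟨-(ε * μ), ε + μ, ?_, by ring⟩
      rw [hμ]; ext x; simp only [End.mul_apply, LinearMap.add_apply, LinearMap.smul_apply,
        End.one_apply, coe_add, SetLike.val_smul]; module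
    · obtain ⟨p, q, h⟩ := hq1
      obtain ⟨x, hx, hx0⟩ := Submodule.exists_mem_ne_zero_of_ne_bot hinj
      rw [mem_ker_sh] at hx
      refine ⟨p, q, h, smul_left_injective F hx0 ?_⟩
      have := congr($h x)
      simp only [End.mul_apply, LinearMap.add_apply, LinearMap.smul_apply, End.one_apply, hx,
        map_smul] at this
      simp only [mul_smul, add_smul, this]
  refine ⟨p, q, ?_⟩
  ext v
  obtain ⟨⟨s, x⟩, rfl⟩ := hb.2 v
  have a1 : A (A x) = q • A x + p • (x : V) := congrArg Subtype.val congr($r1 x)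
  simp only [coprod_apply, subtype_apply, End.mul_apply, map_add, hk, map_smul, a1,
    LinearMap.add_apply, LinearMap.smul_apply, End.one_apply, smul_smul, r2]
  module

theorem base (n : ℕ) : BaseStat F n := by
  induction n using Nat.strong_induction_on with
  | _ n ih =>
  intro V _ _ _ hn A hd hnd
  by_cases hall : ∀ c, ¬ Dom A c
  · simp only [Dom, not_lt] at hall
    rcases Nat.even_or_odd' n with ⟨m, hm | hm⟩
    · rcases core_even A m (by omega) (fun c => by have := hall c; omega) hd with h | ⟨h, h'⟩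
      · exact ⟨h.i3, fun _ => h⟩
      · exact ⟨h', fun hq => absurd h hq⟩
    · have := core_odd A m (by omega) (fun c => by have := hall c; omega) hd
      exact ⟨this.i3, fun _ => this⟩
  push Not at hall
  obtain ⟨ε, hε⟩ := hall
  have h4 : ε ^ 4 = 1 := by
    by_contra h; exact hnd ε h hε
  have h0 : ε ≠ 0 := by rintro rfl; simp at h4
  have hK := rk_add_ker (sh A ε)
  have hdom : 2 * rk (sh A ε) < finrank F V := hε
  have hle : ∀ c : F, c ^ 4 ≠ 1 → finrank F (ker (sh A c)) ≤ rk (sh A ε) := fun c hc =>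
    Submodule.finrank_mono (ker_le_range_sh A (by rintro rfl; exact hc h4))
  obtain ⟨y1, hy1, hy1'⟩ : ∃ y ∈ ker (sh A ε), y ∉ range (sh A ε) := by
    by_contra h; push Not at h
    have := Submodule.finrank_mono (show ker (sh A ε) ≤ range (sh A ε) from h)
    unfold rk at hdom hK; omega
  have hy0 : y1 ≠ 0 := fun h => hy1' (h ▸ zero_mem _)
  by_cases h2 : ε * ε = 1
  · refine split_step A ε (toSpanSingleton F V y1) (smul_left_injective F hy0) ?_ ?_
      (nsol_scalar1 h2) hd (by simp) hε ?_ (ih _ (by simp; omega))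
    · intro s; simp [mem_ker_sh.1 hy1, smul_comm s ε]
    · rw [← LinearMap.span_singleton_eq_range]; exact (disjoint_span_singleton' hy0).2 hy1'
    · intro c hc; have := hle c hc; simp; omega
  have h3 : ε * ε = -1 := by
    have : (ε * ε - 1) * (ε * ε + 1) = 0 := by linear_combination h4
    rcases mul_eq_zero.1 this with h | h
    · exact absurd (sub_eq_zero.1 h) h2
    · exact eq_neg_of_add_eq_zero_left h
  by_cases hZ : ∃ μ : F, μ ^ 4 ≠ 1 ∧ finrank F V < 2 * finrank F (ker (sh A μ)) + 2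
  · obtain ⟨μ, hμ, hμ2⟩ := hZ
    have hne : μ ≠ ε := by rintro rfl; exact hμ h4
    have a1 := hle μ hμ
    have a2 : ker (sh A μ) = range (sh A ε) :=
      Submodule.eq_of_le_of_finrank_le (ker_le_range_sh A hne) (by unfold rk at *; omega)
    have a3 : ∀ x, A (sh A ε x) = μ • sh A ε x := fun x => mem_ker_sh.1 (a2 ▸ ⟨x, rfl⟩)
    obtain ⟨d1, d2⟩ := det_red A h0 a3
    have hn2 : finrank F V = 2 * rk (sh A ε) + 1 := by omega
    have a4 : (ε ^ (rk (sh A ε) + 1) * μ ^ rk (sh A ε)) ^ 2 = 1 := by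
      have : LinearMap.det A = ε ^ (rk (sh A ε) + 1) * μ ^ rk (sh A ε) := by
        apply mul_right_cancel₀ (pow_ne_zero (rk (sh A ε)) h0)
        rw [d1, hn2]; ring
      rw [← this, hd]
    refine ⟨?_, fun h => absurd (inQ_of_red A a3) h⟩
    by_cases hμ0 : μ = 0
    · have : ker (sh A μ) = ⊥ := by
        rw [hμ0]; simpa [sh] using ker_eq_bot.2 (inj_of_det hd)
      rw [this, finrank_bot] at hμ2
      have r0 : rk (sh A ε) = 0 := by omega
      rw [r0] at a4
      exact absurd (by simpa [sq] using a4) h2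
    have a5 := ((zlem _ ε μ h0 hμ0 a4).cl (U := range (sh A ε)) rfl).clx_of_ne hne.symm
    rw [← d2, ← hn2] at a5
    rw [sh_factor A ε]
    exact i3_of_clx (injective_subtype _) (surjective_rangeRestrict _) a5
  push Not at hZ
  obtain ⟨y2, hy2, hy2'⟩ : ∃ y ∈ ker (sh A ε), y ∉ range (sh A ε) ⊔ F ∙ y1 := by
    by_contra h; push Not at h
    have a1 := finrank_sup_span hy1'
    have a2 : ker (sh A ε) = range (sh A ε) ⊔ F ∙ y1 :=
      Submodule.eq_of_le_of_finrank_le h (by unfold rk at *; omega)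
    have a3 : ∀ x, A (sh A ε x) = ε • sh A ε x := fun x =>
      mem_ker_sh.1 (a2 ▸ mem_sup_left ⟨x, rfl⟩)
    obtain ⟨d1, -⟩ := det_red A h0 a3
    have a4 := mul_right_cancel₀ (pow_ne_zero _ h0) d1
    have hn2 : finrank F V = 2 * rk (sh A ε) + 1 := by rw [a2] at hK; unfold rk at *; omega
    rw [a4, hn2] at hd
    apply h2
    have : (ε ^ 4) ^ rk (sh A ε) * (ε * ε) = 1 := by rw [← hd]; ring
    rwa [h4, one_pow, one_mul] at this
  obtain ⟨f, f1, f2⟩ := exists_fun hy2'
  have f3 : f y1 = 0 := f2 _ (mem_sup_right (mem_span_singleton_self _))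
  have key : ∀ s1 s2 : F, s1 • y1 + s2 • y2 ∈ range (sh A ε) → s1 = 0 ∧ s2 = 0 := by
    intro s1 s2 h
    have a1 := f2 _ (mem_sup_left h)
    simp only [map_add, map_smul, f1, f3, smul_eq_mul, mul_zero, mul_one, zero_add] at a1
    rw [a1, zero_smul, add_zero] at h
    refine ⟨?_, a1⟩
    by_contra h'
    exact hy1' ((Submodule.smul_mem_iff _ h').1 h)
  refine split_step A ε ((toSpanSingleton F V y1).coprod (toSpanSingleton F V y2)) ?_ ?_ ?_
    (nsol_scalar2 h3) hd (by simp) hε ?_ (ih _ (by simp; omega))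
  · rw [← ker_eq_bot, eq_bot_iff]
    rintro ⟨s1, s2⟩ h
    have : s1 • y1 + s2 • y2 = 0 := h
    simpa using key s1 s2 (this ▸ zero_mem _)
  · rintro ⟨s1, s2⟩
    simp only [coprod_apply, toSpanSingleton_apply, map_add, map_smul, mem_ker_sh.1 hy1,
      mem_ker_sh.1 hy2]
    module
  · rw [disjoint_def]
    rintro _ hx ⟨⟨s1, s2⟩, rfl⟩
    obtain ⟨rfl, rfl⟩ := key s1 s2 hx
    simp
  · intro c hc; have := hZ c hc; simpa using this

end Pool.Agent.Lib.MP_530e0f_al
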