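import Mathlib

/-! Basic linear algebra for products of three involutions. -/

namespace Pool.Agent.Lib.MP_530e0f_al

open Module Submodule
open LinearMap hiding sub_apply smul_apply add_apply zero_apply neg_apply

universe u

variable {F : Type u} [Field F]

section General

variable {V : Type*} [AddCommGroup V] [Module F V] {W : Type*} [AddCommGroup W] [Module F W]
  {U : Type*} [AddCommGroup U] [Module F U]

/-- rank -/
noncomputable abbrev rk (f : V →ₗ[F] W) : ℕ := finrank F (range f)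

/-- shifted operator -/
abbrev sh (A : End F V) (c : F) : End F V := A - c • (1 : End F V)

theorem sh_apply (A : End F V) (c : F) (x : V) : sh A c x = A x - c • x := rfl

theorem mem_ker_sh {A : End F V} {c : F} {x : V} : x ∈ ker (sh A c) ↔ A x = c • x := by
  rw [mem_ker, sh_apply, sub_eq_zero]

theorem rk_add_ker [FiniteDimensional F V] (f : V →ₗ[F] W) :
    rk f + finrank F (ker f) = finrank F V := f.finrank_range_add_finrank_ker

theorem rk_le_dom [FiniteDimensional F V] (f : V →ₗ[F] W) : rk f ≤ finrank F V := by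
  have := rk_add_ker f; omega

theorem rk_le_cod [FiniteDimensional F W] (f : V →ₗ[F] W) : rk f ≤ finrank F W :=
  Submodule.finrank_le _

theorem exists_fun {p : Submodule F V} {v : V} (hv : v ∉ p) :
    ∃ f : V →ₗ[F] F, f v = 1 ∧ ∀ x ∈ p, f x = 0 := by
  obtain ⟨f, hf, h⟩ := LinearMap.exists_extend_of_notMem (0 : p →ₗ[F] F) hv 1
  refine ⟨f, h, fun x hx => ?_⟩
  simpa using congr($hf ⟨x, hx⟩)

theorem exists_fun_ne {v : V} (hv : v ≠ 0) : ∃ f : V →ₗ[F] F, f v = 1 := by
  obtain ⟨f, h, -⟩ := exists_fun (F := F) (p := ⊥) (v := v) (by simpa using hv)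
  exact ⟨f, h⟩

theorem exists_fun2 {v w : V} (hv : ∀ c : F, v ≠ c • w) :
    ∃ f : V →ₗ[F] F, f v = 1 ∧ f w = 0 := by
  obtain ⟨f, h, h2⟩ := exists_fun (F := F) (p := F ∙ w) (v := v) (by
    rw [mem_span_singleton]; rintro ⟨c, hc⟩; exact hv c hc.symm)
  exact ⟨f, h, h2 _ (mem_span_singleton_self _)⟩

theorem factor (f : U →ₗ[F] V) (g : U →ₗ[F] W) (h : ker f ≤ ker g) :
    ∃ k : V →ₗ[F] W, k ∘ₗ f = g := by
  obtain ⟨s, hs⟩ := LinearMap.exists_rightInverse_of_surjective f.rangeRestrict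
    (by simp)
  obtain ⟨k, hk⟩ := LinearMap.exists_extend (p := range f) (g ∘ₗ s)
  refine ⟨k, ?_⟩
  ext x
  have h1 : k (f x) = g (s (f.rangeRestrict x)) := by
    simpa using congr($hk (f.rangeRestrict x))
  have h2 : f (s (f.rangeRestrict x)) = f x := by
    have := congr($hs (f.rangeRestrict x))
    simpa using congrArg Subtype.val this
  have h3 : s (f.rangeRestrict x) - x ∈ ker g := h (by simp [h2])
  rw [mem_ker, map_sub, sub_eq_zero] at h3
  simp [h1, h3]

theorem exists_section (f : V →ₗ[F] U) (hf : Function.Surjective f) :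
    ∃ s : U →ₗ[F] V, ∀ x, f (s x) = x := by
  obtain ⟨s, hs⟩ := LinearMap.exists_rightInverse_of_surjective f (range_eq_top.2 hf)
  exact ⟨s, fun x => by simpa using congr($hs x)⟩

theorem finrank_map_add (f : V →ₗ[F] W) (p : Submodule F V) [FiniteDimensional F V] :
    finrank F (p.map f) + finrank F ↥(p ⊓ ker f) = finrank F p := by
  have h := rk_add_ker (f.domRestrict p)
  have h1 : range (f.domRestrict p) = p.map f := by
    ext x; simp
  have h3 : (ker (f.domRestrict p)).map p.subtype = p ⊓ ker f := by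
    ext x; simp; tauto
  have h2 : finrank F (ker (f.domRestrict p)) = finrank F ↥(p ⊓ ker f) := by
    rw [← Submodule.finrank_map_subtype_eq, h3]
  unfold rk at h
  rw [h1, h2] at h
  exact h

theorem finrank_map_inj (f : V →ₗ[F] W) (hf : Function.Injective f) (p : Submodule F V) :
    finrank F (p.map f) = finrank F p :=
  (Submodule.equivMapOfInjective f hf p).finrank_eq.symm

theorem finrank_comap_inj (f : V →ₗ[F] W) (hf : Function.Injective f) (p : Submodule F W) :
    finrank F (p.comap f) = finrank F ↥(p ⊓ range f) := by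
  rw [← finrank_map_inj f hf, Submodule.map_comap_eq, inf_comm]

theorem rk_inj (f : V →ₗ[F] W) (hf : Function.Injective f) : rk f = finrank F V :=
  LinearMap.finrank_range_of_inj hf

theorem rk_surj (f : V →ₗ[F] W) (hf : Function.Surjective f) : rk f = finrank F W := by
  unfold rk; rw [range_eq_top.2 hf, finrank_top]

theorem inj_of_rk [FiniteDimensional F V] (f : V →ₗ[F] W) (h : finrank F V ≤ rk f) :
    Function.Injective f := by
  have := rk_add_ker f
  rw [← ker_eq_bot, ← Submodule.finrank_eq_zero]; omega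

theorem surj_of_rk [FiniteDimensional F W] (f : V →ₗ[F] W) (h : finrank F W ≤ rk f) :
    Function.Surjective f := by
  rw [← range_eq_top]
  exact Submodule.eq_top_of_finrank_eq (le_antisymm (rk_le_cod f) h)

theorem rk_comp_le_left [FiniteDimensional F W] (a : U →ₗ[F] W) (b : V →ₗ[F] U) :
    rk (a ∘ₗ b) ≤ rk a := Submodule.finrank_mono (range_comp_le_range _ _)

theorem rk_comp_le_right [FiniteDimensional F V] (a : U →ₗ[F] W) (b : V →ₗ[F] U) :
    rk (a ∘ₗ b) ≤ rk b := by
  have h1 := rk_add_ker (a ∘ₗ b)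
  have h2 := rk_add_ker b
  have h3 : finrank F (ker b) ≤ finrank F (ker (a ∘ₗ b)) :=
    Submodule.finrank_mono (ker_le_ker_comp _ _)
  omega

theorem exact_of_rk [FiniteDimensional F V] [FiniteDimensional F U] (a : U →ₗ[F] V)
    (b : V →ₗ[F] U) (h : finrank F U ≤ rk (a ∘ₗ b)) :
    Function.Injective a ∧ Function.Surjective b :=
  ⟨inj_of_rk a (h.trans (rk_comp_le_left a b)), surj_of_rk b (h.trans (rk_comp_le_right a b))⟩

theorem rk_exact (a : U →ₗ[F] W) (b : V →ₗ[F] U) (ha : Function.Injective a)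
    (hb : Function.Surjective b) : rk (a ∘ₗ b) = finrank F U := by
  unfold rk
  rw [range_comp_of_range_eq_top _ (range_eq_top.2 hb)]
  exact rk_inj a ha

/-- nilpotency along an exact sequence -/
theorem nil_exact {A B : Type*} [AddCommGroup A] [Module F A] [AddCommGroup B] [Module F B]
    (f : End F V) (fA : End F A) (fB : End F B) (i : A →ₗ[F] V) (π : V →ₗ[F] B)
    (hk : ∀ x, π x = 0 → ∃ y, i y = x) (hi : ∀ y, f (i y) = i (fA y))
    (hπ : ∀ x, π (f x) = fB (π x)) (hA : IsNilpotent fA) (hB : IsNilpotent fB) :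
    IsNilpotent f := by
  obtain ⟨m, hm⟩ := hA
  obtain ⟨k, hk'⟩ := hB
  have h1 : ∀ j y, (f ^ j) (i y) = i ((fA ^ j) y) := by
    intro j; induction j with
    | zero => simp
    | succ j ih => intro y; simp [pow_succ', ih, hi]
  have h2 : ∀ j x, π ((f ^ j) x) = (fB ^ j) (π x) := by
    intro j; induction j with
    | zero => simp
    | succ j ih => intro x; simp [pow_succ', ih, hπ]
  refine ⟨m + k, ?_⟩
  ext x
  obtain ⟨y, hy⟩ := hk ((f ^ k) x) (by rw [h2, hk']; simp)
  simp [pow_add, ← hy, h1, hm]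

theorem det_of_conj (f : End F V) (g : End F W) (e : V ≃ₗ[F] W) (h : ∀ x, e (f x) = g (e x)) :
    LinearMap.det f = LinearMap.det g := by
  have : g = (e : V →ₗ[F] W) ∘ₗ f ∘ₗ (e.symm : W →ₗ[F] V) := by
    ext x; simp [h]
  rw [this, LinearMap.det_conj]

/-- determinant along an exact sequence -/
theorem det_exact [FiniteDimensional F V] {A B : Type*} [AddCommGroup A] [Module F A]
    [AddCommGroup B] [Module F B]
    (f : End F V) (fA : End F A) (fB : End F B) (i : A →ₗ[F] V) (π : V →ₗ[F] B)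
    (hinj : Function.Injective i) (hsurj : Function.Surjective π)
    (hk : ∀ x, π x = 0 → ∃ y, i y = x) (h0 : ∀ y, π (i y) = 0) (hi : ∀ y, f (i y) = i (fA y))
    (hπ : ∀ x, π (f x) = fB (π x)) :
    LinearMap.det f = LinearMap.det fA * LinearMap.det fB := by
  have he : ker π ≤ (ker π).comap f := by
    intro x hx
    simp only [mem_comap, mem_ker] at *
    rw [hπ, hx, map_zero]
  rw [LinearMap.det_eq_det_mul_det (ker π) f he]
  congr 1
  · let e : A ≃ₗ[F] ker π := LinearEquiv.ofBijective (i.codRestrict (ker π) h0) ⟨by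
      intro x y h; exact hinj (congrArg Subtype.val h), by
      rintro ⟨x, hx⟩; obtain ⟨y, hy⟩ := hk x hx; exact ⟨y, Subtype.ext hy⟩⟩
    refine (det_of_conj _ _ e ?_).symm
    intro x; apply Subtype.ext; exact (hi x).symm
  · refine det_of_conj _ _ (π.quotKerEquivOfSurjective hsurj) ?_
    intro x
    obtain ⟨x, rfl⟩ := Submodule.Quotient.mk_surjective _ x
    simp [hπ]

/-- Sylvester's determinant identity -/
theorem det_sylv [FiniteDimensional F V] [FiniteDimensional F U] (a : U →ₗ[F] V)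
    (b : V →ₗ[F] U) (c : F) (hc : c ≠ 0) :
    LinearMap.det (c • (1 : End F V) + a ∘ₗ b) * c ^ finrank F U =
      c ^ finrank F V * LinearMap.det (c • (1 : End F U) + b ∘ₗ a) := by
  have key : ∀ (a : U →ₗ[F] V), LinearMap.det ((1 : End F V) + a ∘ₗ b) =
      LinearMap.det ((1 : End F U) + b ∘ₗ a) := by
    intro a
    let bV := Module.finBasis F V
    let bU := Module.finBasis F U
    rw [← LinearMap.det_toMatrix bV, ← LinearMap.det_toMatrix bU, map_add, map_add,
      LinearMap.toMatrix_comp bV bU bV, LinearMap.toMatrix_comp bU bV bU, LinearMap.toMatrix_one,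
      LinearMap.toMatrix_one, Matrix.det_one_add_mul_comm]
  have h1 : c • (1 : End F V) + a ∘ₗ b = c • (1 + (c⁻¹ • a) ∘ₗ b) := by
    ext x; simp [smul_smul, hc]
  have h2 : c • (1 : End F U) + b ∘ₗ a = c • (1 + b ∘ₗ (c⁻¹ • a)) := by
    ext x; simp [smul_smul, hc]
  rw [h1, h2, LinearMap.det_smul, LinearMap.det_smul, key]; ring

theorem ker_flanders_le [FiniteDimensional F U] (a : U →ₗ[F] V)
    (b : V →ₗ[F] U) (c : F) (hc : c ≠ 0) :
    finrank F (ker (sh (a ∘ₗ b) c)) ≤ finrank F (ker (sh (b ∘ₗ a) c)) := by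
  let g : ker (sh (a ∘ₗ b) c) →ₗ[F] ker (sh (b ∘ₗ a) c) :=
    (b.domRestrict _).codRestrict _ (by
      rintro ⟨x, hx⟩
      simp only [mem_ker_sh, comp_apply, domRestrict_apply] at hx ⊢
      rw [hx, map_smul])
  refine LinearMap.finrank_le_finrank_of_injective (f := g) ?_
  rw [← ker_eq_bot, eq_bot_iff]
  rintro ⟨x, hx⟩ h
  have h1 : b x = 0 := congrArg Subtype.val h
  have h2 := mem_ker_sh.1 hx
  simp only [comp_apply, h1, map_zero] at h2
  simpa [hc] using h2.symm

theorem ker_flanders [FiniteDimensional F U] [FiniteDimensional F V] (a : U →ₗ[F] V)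
    (b : V →ₗ[F] U) (c : F) (hc : c ≠ 0) :
    finrank F (ker (sh (a ∘ₗ b) c)) = finrank F (ker (sh (b ∘ₗ a) c)) :=
  le_antisymm (ker_flanders_le a b c hc) (ker_flanders_le b a c hc)

theorem ker_le_range_sh (A : End F V) {c d : F} (h : c ≠ d) : ker (sh A c) ≤ range (sh A d) := by
  intro x hx
  rw [mem_ker_sh] at hx
  refine ⟨(c - d)⁻¹ • x, ?_⟩
  have : c - d ≠ 0 := sub_ne_zero.2 h
  rw [map_smul, sh_apply, hx, ← sub_smul, smul_smul, inv_mul_cancel₀ this, one_smul]

theorem ext_equiv {Z : Type*} [AddCommGroup Z] [Module F Z] [FiniteDimensional F V]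
    [FiniteDimensional F W] (j1 : Z →ₗ[F] V) (j2 : Z →ₗ[F] W) (h1 : Function.Injective j1)
    (h2 : Function.Injective j2) (h : finrank F V = finrank F W) :
    ∃ k : V ≃ₗ[F] W, ∀ z, k (j1 z) = j2 z := by
  let θ : V ≃ₗ[F] W := LinearEquiv.ofFinrankEq _ _ h
  have h3 : Function.Injective ((θ : V →ₗ[F] W) ∘ₗ j1) := θ.injective.comp h1
  obtain ⟨g, hg⟩ := Submodule.exists_linearEquiv_restrict_eq
    ((LinearEquiv.ofInjective _ h3).symm.trans (LinearEquiv.ofInjective _ h2))
  refine ⟨θ.trans g, fun z => ?_⟩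
  have := hg (LinearEquiv.ofInjective _ h3 z)
  simpa using this.symm

/-- uniqueness of exact factorisations -/
theorem unique_exact [FiniteDimensional F V] [FiniteDimensional F W] [FiniteDimensional F U]
    (a1 : U →ₗ[F] V) (b1 : V →ₗ[F] U) (a2 : U →ₗ[F] W) (b2 : W →ₗ[F] U)
    (ha1 : Function.Injective a1) (hb1 : Function.Surjective b1)
    (ha2 : Function.Injective a2) (hb2 : Function.Surjective b2)
    (h : b1 ∘ₗ a1 = b2 ∘ₗ a2) (hd : finrank F V = finrank F W) :
    ∃ e : V ≃ₗ[F] W, (∀ u, e (a1 u) = a2 u) ∧ ∀ x, b2 (e x) = b1 x := by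
  have hh : ∀ u, b1 (a1 u) = b2 (a2 u) := fun u => congr($h u)
  let j1 : ker (b1 ∘ₗ a1) →ₗ[F] ker b1 := (a1.domRestrict _).codRestrict _ (fun x => x.2)
  let j2 : ker (b1 ∘ₗ a1) →ₗ[F] ker b2 := (a2.domRestrict _).codRestrict _ (fun x => by
    have := x.2
    simp only [mem_ker, comp_apply, hh] at this
    simpa using this)
  obtain ⟨k, hk⟩ := ext_equiv j1 j2
    (fun x y hxy => Subtype.ext (ha1 (congrArg Subtype.val hxy)))
    (fun x y hxy => Subtype.ext (ha2 (congrArg Subtype.val hxy))) (by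
      have := rk_add_ker b1; have := rk_add_ker b2
      have := rk_surj b1 hb1; have := rk_surj b2 hb2; omega)
  obtain ⟨e1, he1⟩ := factor (a1.coprod (ker b1).subtype)
    (a2.coprod ((ker b2).subtype ∘ₗ (k : ker b1 →ₗ[F] ker b2))) (by
      rintro ⟨u, x⟩ hx
      simp only [mem_ker, coprod_apply, subtype_apply, comp_apply, LinearEquiv.coe_coe] at hx ⊢
      have hu : u ∈ ker (b1 ∘ₗ a1) := by
        have := congrArg b1 hx
        have hx2 : b1 x = 0 := x.2
        simpa [hx2] using this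
      have : x = - j1 ⟨u, hu⟩ := by
        apply Subtype.ext
        simp only [j1, NegMemClass.coe_neg, codRestrict_apply, domRestrict_apply]
        exact eq_neg_of_add_eq_zero_right hx
      rw [this, map_neg, hk]
      simp [j2])
  have e1a : ∀ u, e1 (a1 u) = a2 u := fun u => by simpa using congr($he1 (u, 0))
  have e1k : ∀ x : ker b1, e1 x = k x := fun x => by simpa using congr($he1 (0, x))
  obtain ⟨s, hs⟩ := exists_section b2 hb2
  let e : V →ₗ[F] W := e1 + s ∘ₗ (b1 - b2 ∘ₗ e1)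
  have eb : ∀ x, b2 (e x) = b1 x := fun x => by simp [e, hs]
  have einj : Function.Injective e := by
    rw [← ker_eq_bot, eq_bot_iff]
    intro x hx
    have hx0 : e x = 0 := hx
    have hb : b1 x = 0 := by rw [← eb, hx0, map_zero]
    have h3 : e1 x = k ⟨x, hb⟩ := e1k ⟨x, hb⟩
    have h4 : b2 (k ⟨x, hb⟩) = 0 := (k ⟨x, hb⟩).2
    have h5 : k ⟨x, hb⟩ = 0 := by simpa [e, hb, h3, h4] using hx0
    have h6 := k.map_eq_zero_iff.1 h5
    exact congrArg Subtype.val h6
  refine ⟨LinearEquiv.ofBijective e ⟨einj,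
    (LinearMap.injective_iff_surjective_of_finrank_eq_finrank hd).1 einj⟩, ?_, eb⟩
  intro u
  change e (a1 u) = _
  simp [e, e1a, hh]


/-- product of three involutions -/
def I3 (A : End F V) : Prop :=
  ∃ J1 J2 J3 : End F V, J1 * J1 = 1 ∧ J2 * J2 = 1 ∧ J3 * J3 = 1 ∧ J1 * J2 * J3 = A

/-- annihilated by a monic quadratic -/
def InQ (A : End F V) : Prop := ∃ p q : F, A * A = q • A + p • (1 : End F V)

/-- unipotent square -/
def Nil2 (A : End F V) : Prop := IsNilpotent (A * A - 1)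

/-- solution whose first two factors have product with spectrum in the fourth roots of one -/
def NSol (A : End F V) : Prop :=
  ∃ J1 J2 J3 : End F V, J1 * J1 = 1 ∧ J2 * J2 = 1 ∧ J3 * J3 = 1 ∧ J1 * J2 * J3 = A ∧
    IsNilpotent ((J1 * J2) ^ 4 - 1)

/-- dominant eigenvalue -/
def Dom (A : End F V) (c : F) : Prop := 2 * rk (sh A c) < finrank F V

/-- invariant subspace -/
def Inv3 (J1 J2 J3 : End F V) (p : Submodule F V) : Prop :=
  (∀ x ∈ p, J1 x ∈ p) ∧ (∀ x ∈ p, J2 x ∈ p) ∧ (∀ x ∈ p, J3 x ∈ p)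

/-- the balance property of a solution -/
def GP (J1 J2 J3 : End F V) : Prop :=
  ∀ c : F, c ^ 4 ≠ 1 → ∀ p : Submodule F V, Inv3 J1 J2 J3 p → ∀ K0 I0 : Submodule F V,
    K0 ≤ ker (sh (J1 * J2 * J3) c) → range (sh (J1 * J2 * J3) c) ≤ I0 →
    (Dom (J1 * J2 * J3) c → K0 ≤ range (sh (J1 * J2 * J3) c) ∧ ker (sh (J1 * J2 * J3) c) ≤ I0) →
    2 * finrank F ↥(p ⊓ K0) ≤ finrank F p ∧ finrank F V + finrank F p ≤ 2 * finrank F ↥(p ⊔ I0)

/-- balanced solution -/
def GSol (A : End F V) : Prop :=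
  ∃ J1 J2 J3 : End F V, J1 * J1 = 1 ∧ J2 * J2 = 1 ∧ J3 * J3 = 1 ∧ J1 * J2 * J3 = A ∧ GP J1 J2 J3

theorem NSol.i3 {A : End F V} (h : NSol A) : I3 A := by
  obtain ⟨a, b, c, h1, h2, h3, h4, -⟩ := h
  exact ⟨a, b, c, h1, h2, h3, h4⟩

theorem GSol.i3 {A : End F V} (h : GSol A) : I3 A := by
  obtain ⟨a, b, c, h1, h2, h3, h4, -⟩ := h
  exact ⟨a, b, c, h1, h2, h3, h4⟩

theorem det_inv_sq {J : End F V} (h : J * J = 1) : LinearMap.det J ^ 2 = 1 := by
  rw [sq, ← map_mul, h, map_one]

theorem I3.det_sq {A : End F V} (h : I3 A) : LinearMap.det A ^ 2 = 1 := by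
  obtain ⟨a, b, c, h1, h2, h3, rfl⟩ := h
  rw [map_mul, map_mul, mul_pow, mul_pow, det_inv_sq h1, det_inv_sq h2, det_inv_sq h3]; simp

theorem I3.inj {A : End F V} (h : I3 A) : Function.Injective A := by
  obtain ⟨a, b, c, h1, h2, h3, rfl⟩ := h
  have : ∀ J : End F V, J * J = 1 → Function.Injective J := fun J hJ =>
    Function.LeftInverse.injective (g := J) (fun x => congr($hJ x))
  exact (this a h1).comp ((this b h2).comp (this c h3))

theorem conj_eq (e : V ≃ₗ[F] W) {A : End F V} {B : End F W} (h : ∀ x, e (A x) = B (e x)) :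
    e.conjAlgEquiv F A = B := by
  ext x
  obtain ⟨x, rfl⟩ := e.surjective x
  simp [LinearEquiv.conjAlgEquiv_apply, h]

theorem I3.conj {A : End F V} {B : End F W} (hA : I3 A) (e : V ≃ₗ[F] W)
    (h : ∀ x, e (A x) = B (e x)) : I3 B := by
  obtain ⟨a, b, c, h1, h2, h3, h4⟩ := hA
  let φ := e.conjAlgEquiv F
  refine ⟨φ a, φ b, φ c, ?_, ?_, ?_, ?_⟩
  · rw [← map_mul, h1, map_one]
  · rw [← map_mul, h2, map_one]
  · rw [← map_mul, h3, map_one]
  · rw [← map_mul, ← map_mul, h4]; exact conj_eq e h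

theorem NSol.conj {A : End F V} {B : End F W} (hA : NSol A) (e : V ≃ₗ[F] W)
    (h : ∀ x, e (A x) = B (e x)) : NSol B := by
  obtain ⟨a, b, c, h1, h2, h3, h4, h5⟩ := hA
  let φ := e.conjAlgEquiv F
  refine ⟨φ a, φ b, φ c, ?_, ?_, ?_, ?_, ?_⟩
  · rw [← map_mul, h1, map_one]
  · rw [← map_mul, h2, map_one]
  · rw [← map_mul, h3, map_one]
  · rw [← map_mul, ← map_mul, h4]; exact conj_eq e h
  · have := h5.map φ
    simpa using this

theorem prodMap_pow' (A : End F V) (B : End F W) (k : ℕ) :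
    (A.prodMap B : End F (V × W)) ^ k = (A ^ k).prodMap (B ^ k) := by
  induction k with
  | zero => ext <;> simp
  | succ k ih => rw [pow_succ, ih, pow_succ, pow_succ, LinearMap.prodMap_mul]

theorem I3.prod {A : End F V} {B : End F W} (hA : I3 A) (hB : I3 B) :
    I3 (A.prodMap B : End F (V × W)) := by
  obtain ⟨a, b, c, h1, h2, h3, h4⟩ := hA
  obtain ⟨a', b', c', h1', h2', h3', h4'⟩ := hB
  refine ⟨a.prodMap a', b.prodMap b', c.prodMap c', ?_, ?_, ?_, ?_⟩ <;>
    simp only [LinearMap.prodMap_mul, *, LinearMap.prodMap_one]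

theorem NSol.prod {A : End F V} {B : End F W} (hA : NSol A) (hB : NSol B) :
    NSol (A.prodMap B : End F (V × W)) := by
  obtain ⟨a, b, c, h1, h2, h3, h4, h5⟩ := hA
  obtain ⟨a', b', c', h1', h2', h3', h4', h5'⟩ := hB
  refine ⟨a.prodMap a', b.prodMap b', c.prodMap c', ?_, ?_, ?_, ?_, ?_⟩
  any_goals simp only [LinearMap.prodMap_mul, *, LinearMap.prodMap_one]
  refine nil_exact _ _ _ (LinearMap.inl F V W) (LinearMap.snd F V W) ?_ ?_ ?_ h5 h5'
  · rintro ⟨x, y⟩ h; exact ⟨x, by simp at h; simp [h]⟩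
  · intro y; simp [prodMap_pow']
  · intro y; simp [prodMap_pow']

theorem i3_of_subsingleton [Subsingleton V] (A : End F V) : I3 A :=
  ⟨1, 1, 1, by simp, by simp, by simp, Subsingleton.elim _ _⟩

theorem unit_of_nil {M : End F V} (h : IsNilpotent M) {c : F} (hc : c ≠ 0) :
    Function.Bijective (sh M c) := by
  have h1 : IsUnit (c • (1 : End F V)) := by
    rw [← Algebra.algebraMap_eq_smul_one]; exact (IsUnit.mk0 c hc).map _
  have h2 : IsUnit (c • (1 : End F V) - M) := by
    rw [sub_eq_add_neg]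
    exact h.neg.isUnit_add_left_of_commute h1 (by simp [Commute, SemiconjBy])
  have h3 : IsUnit (sh M c) := by
    have := h2.neg; simpa using this
  exact (Module.End.isUnit_iff _).1 h3

theorem NSol.gsol [FiniteDimensional F V] {A : End F V} (hA : NSol A) : GSol A := by
  obtain ⟨J1, J2, J3, h1, h2, h3, h4, h5⟩ := hA
  refine ⟨J1, J2, J3, h1, h2, h3, h4, ?_⟩
  intro c hc p hp K0 I0 hK hI _
  have hb := unit_of_nil h5 (sub_ne_zero.2 hc)
  have j33 : ∀ x, J3 (J3 x) = x := fun x => congr($h3 x)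
  have j3inj : Function.Injective J3 := Function.LeftInverse.injective (g := J3) j33
  have hM : ∀ x, (J1 * J2) x = A (J3 x) := fun x => by simp [← h4, j33]
  rw [h4] at hK hI
  generalize J1 * J2 = M at hM hb
  have p4 : ∀ x, (M ^ 4) x = M (M (M (M x))) := fun x => by simp [pow_succ]
  constructor
  · by_contra hlt
    set K1 := p ⊓ K0
    have e1 := Submodule.finrank_sup_add_finrank_inf_eq K1 (K1.map J3)
    have e2 := finrank_map_inj J3 j3inj K1
    have e3 : finrank F ↥(K1 ⊔ K1.map J3) ≤ finrank F p := Submodule.finrank_mono (by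
      refine sup_le inf_le_left ?_
      rintro _ ⟨x, hx, rfl⟩; exact hp.2.2 x hx.1)
    have e4 : K1 ⊓ K1.map J3 ≠ ⊥ := by
      rw [Ne, ← Submodule.finrank_eq_zero]; omega
    obtain ⟨v, ⟨hv1, w, hw, hwv⟩, hv0⟩ := Submodule.exists_mem_ne_zero_of_ne_bot e4
    have hv := mem_ker_sh.1 (hK hv1.2)
    have hw' := mem_ker_sh.1 (hK hw.2)
    have m1 : M v = c • w := by rw [hM, ← hwv, j33, hw']
    have m2 : M w = c • v := by rw [hM, hwv, hv]
    apply hv0
    apply hb.1
    have : (M ^ 4) v = c ^ 4 • v := by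
      simp only [p4, m1, m2, map_smul, smul_smul]
      congr 1; ring
    rw [map_zero, sh_apply, LinearMap.sub_apply, this, sub_smul]; simp
  · by_contra hlt
    set W1 := p ⊔ I0
    have e1 := Submodule.finrank_sup_add_finrank_inf_eq W1 (W1.map J3)
    have e2 := finrank_map_inj J3 j3inj W1
    have e3 : finrank F p ≤ finrank F ↥(W1 ⊓ W1.map J3) := Submodule.finrank_mono (by
      refine le_inf le_sup_left ?_
      intro x hx
      exact ⟨J3 x, Submodule.mem_sup_left (hp.2.2 x hx), j33 x⟩)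
    set W2 := W1 ⊔ W1.map J3
    have i3 : ∀ x ∈ W2, J3 x ∈ W2 := by
      intro x hx
      obtain ⟨y, hy, _, ⟨z, hz, rfl⟩, rfl⟩ := Submodule.mem_sup.1 hx
      rw [map_add, j33]
      exact add_mem (Submodule.mem_sup_right ⟨y, hy, rfl⟩) (Submodule.mem_sup_left hz)
    have iN : ∀ x, A x - c • x ∈ W2 := fun x =>
      Submodule.mem_sup_left (Submodule.mem_sup_right (hI ⟨x, rfl⟩))
    have iM : ∀ x ∈ W2, M x ∈ W2 := by
      intro x hx
      have := add_mem (iN (J3 x)) (smul_mem _ c (i3 x hx))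
      simpa [hM] using this
    have i2 : ∀ x, M (M x) - c ^ 2 • x ∈ W2 := by
      intro x
      have a1 := iN (J3 (M x))
      have a2 := smul_mem _ c (i3 _ (iN (J3 x)))
      have := add_mem a1 a2
      rw [← hM, ← hM, map_sub, map_smul, j33, smul_sub, smul_smul] at this
      simpa [sq] using this
    have e4 : W2 = ⊤ := by
      rw [eq_top_iff]
      intro y _
      obtain ⟨x, rfl⟩ := hb.2 y
      have a1 := i2 (M (M x))
      have a2 := smul_mem _ (c ^ 2) (i2 x)
      have := add_mem a1 a2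
      convert this using 1
      rw [sh_apply, LinearMap.sub_apply, p4, End.one_apply]
      module
    rw [e4, finrank_top] at e1
    omega

end General

/-- a solution with a factorisation through `U` -/
structure Mod (F : Type u) [Field F] (U : Type u) [AddCommGroup U] [Module F U] where
  V : Type u
  [ac : AddCommGroup V]
  [md : Module F V]
  [fd : FiniteDimensional F V]
  J1 : End F V
  J2 : End F V
  J3 : End F V
  a : U →ₗ[F] V
  b : V →ₗ[F] U

attribute [instance] Mod.ac Mod.md Mod.fd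

namespace Mod

variable {U : Type u} [AddCommGroup U] [Module F U]

/-- the defining equations -/
structure Ok (M : Mod F U) (c : F) (R : End F U) : Prop where
  h1 : M.J1 * M.J1 = 1
  h2 : M.J2 * M.J2 = 1
  h3 : M.J3 * M.J3 = 1
  prod : M.J1 * M.J2 * M.J3 = c • (1 : End F M.V) + M.a ∘ₗ M.b
  red : R = c • (1 : End F U) + M.b ∘ₗ M.a

/-- dimension -/
noncomputable abbrev dim (M : Mod F U) : ℕ := finrank F M.V

/-- submodules -/
def Sub (M : Mod F U) (U' : Submodule F U) (x : ℕ) : Prop :=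
  ∃ p : Submodule F M.V, Inv3 M.J1 M.J2 M.J3 p ∧ (∀ y ∈ U', M.a y ∈ p) ∧ (∀ y ∈ p, M.b y ∈ U') ∧
    finrank F p = x

/-- all subs and quotients small -/
def Sm (M : Mod F U) : Prop :=
  ∀ U' x, M.Sub U' x → x ≤ 2 * finrank F U' ∧ M.dim + 2 * finrank F U' ≤ x + 2 * finrank F U

theorem Ok.i3 {M : Mod F U} {c : F} {R : End F U} (h : M.Ok c R) :
    I3 (c • (1 : End F M.V) + M.a ∘ₗ M.b) := ⟨_, _, _, h.h1, h.h2, h.h3, h.prod⟩

end Mod

/-- existence of a solution with given reduced part -/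
def Cl {U : Type u} [AddCommGroup U] [Module F U] (c : F) (R : End F U) (n : ℕ) : Prop :=
  ∃ M : Mod F U, M.Ok c R ∧ M.dim = n

theorem cl_of_i3 {U V : Type u} [AddCommGroup U] [Module F U] [AddCommGroup V] [Module F V]
    [FiniteDimensional F V] {c : F} (a : U →ₗ[F] V) (b : V →ₗ[F] U)
    (h : I3 (c • (1 : End F V) + a ∘ₗ b)) :
    Cl c (c • (1 : End F U) + b ∘ₗ a) (finrank F V) := by
  obtain ⟨J1, J2, J3, h1, h2, h3, h4⟩ := h
  exact ⟨⟨V, J1, J2, J3, a, b⟩, ⟨h1, h2, h3, h4, rfl⟩, rfl⟩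

theorem Cl.conj {U U' : Type u} [AddCommGroup U] [Module F U] [AddCommGroup U'] [Module F U']
    {c : F} {R : End F U} {R' : End F U'} {n : ℕ} (h : Cl c R n) (e : U ≃ₗ[F] U')
    (he : ∀ x, e (R x) = R' (e x)) : Cl c R' n := by
  obtain ⟨M, hM, hn⟩ := h
  refine ⟨⟨M.V, M.J1, M.J2, M.J3, M.a ∘ₗ (e.symm : U' →ₗ[F] U), (e : U →ₗ[F] U') ∘ₗ M.b⟩,
    ⟨hM.h1, hM.h2, hM.h3, ?_, ?_⟩, hn⟩
  · rw [hM.prod]; ext x; simp
  · ext x
    obtain ⟨x, rfl⟩ := e.surjective x
    simp [← he, hM.red]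

end Pool.Agent.Lib.MP_530e0f_al
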