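import Pool.Agent.Lib.MP_530e0f_al.Sourour

/-! The core construction when no eigenvalue is dominant. -/

namespace Pool.Agent.Lib.MP_530e0f_al

open Module Submodule
open LinearMap hiding sub_apply smul_apply add_apply zero_apply neg_apply

universe u

variable {F : Type u} [Field F]

section Trans

variable {V : Type u} [AddCommGroup V] [Module F V] [FiniteDimensional F V]

theorem finrank_Z_le (A : End F V) (W : Submodule F V) :
    finrank F ↥(W ⊔ W.map A) ≤ 2 * finrank F W := by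
  have := Submodule.finrank_sup_add_finrank_inf_eq W (W.map A)
  have := Submodule.finrank_map_le A W
  omega

theorem stuck (A : End F V) (W : Submodule F V) (c : F) (h1 : range (sh A c) ≤ W ⊔ W.map A)
    (h2 : finrank F W < rk (sh A c)) (h3 : W ⊔ W.map A ≠ ⊤) :
    ∃ x, x ∉ W ⊔ W.map A ∧ sh A c x ∈ W ∧ sh A c x ≠ 0 := by
  obtain ⟨x, hx, hq⟩ := not_union h3 (q := (W.map (sh A c)).comap (sh A c)) (by
    intro h
    have : range (sh A c) ≤ W.map (sh A c) := by
      rintro _ ⟨y, rfl⟩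
      exact (h ▸ mem_top : y ∈ (W.map (sh A c)).comap (sh A c))
    have h4 := Submodule.finrank_mono this
    have := Submodule.finrank_map_le (sh A c) W
    unfold rk at h2
    omega)
  obtain ⟨w, hw, _, ⟨w', hw', rfl⟩, e⟩ := mem_sup.1 (h1 ⟨x, rfl⟩)
  have e2 : sh A c (x - w') = w + c • w' := by
    rw [map_sub, ← e, sh_apply]; abel
  refine ⟨x - w', fun h => hx ?_, ?_, fun h => hq ⟨w', hw', ?_⟩⟩
  · simpa using add_mem h (mem_sup_left hw' : w' ∈ W ⊔ W.map A)
  · rw [e2]; exact add_mem hw (smul_mem _ _ hw')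
  · rw [map_sub, sub_eq_zero] at h; exact h.symm

theorem finrank_inf_ker (W : Submodule F V) (f : V →ₗ[F] F) {w : V} (hw : w ∈ W) (hf : f w = 1) :
    finrank F ↥(W ⊓ ker f) + 1 = finrank F W := by
  have := finrank_map_add f W
  have h : W.map f = ⊤ := by
    rw [eq_top_iff]; intro c _; exact ⟨c • w, smul_mem _ _ hw, by simp [hf]⟩
  rw [h, finrank_top, Module.finrank_self] at this
  omega

theorem grow (A : End F V) (W : Submodule F V)
    (hZ : finrank F ↥(W ⊔ W.map A) = 2 * finrank F W) (hn : 2 * finrank F W + 2 ≤ finrank F V)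
    (hr : ∀ c, finrank F W < rk (sh A c)) :
    ∃ W' : Submodule F V, finrank F W' = finrank F W + 1 ∧
      finrank F ↥(W' ⊔ W'.map A) = 2 * finrank F W' := by
  set Z := W ⊔ W.map A with hZd
  have fin : ∀ (W' : Submodule F V) (x x2 : V), finrank F W' ≤ finrank F W + 1 → x ∉ Z →
      x2 ∉ Z ⊔ F ∙ x → (Z ⊔ F ∙ x) ⊔ (F ∙ x2) ≤ W' ⊔ W'.map A →
      finrank F W' = finrank F W + 1 ∧ finrank F ↥(W' ⊔ W'.map A) = 2 * finrank F W' := by
    intro W' x x2 h1 h2 h3 h4
    have := Submodule.finrank_mono h4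
    rw [finrank_sup_span h3, finrank_sup_span h2] at this
    have := finrank_Z_le A W'
    omega
  have ex2 : ∀ x, ∃ x2, x2 ∉ Z ⊔ F ∙ x := by
    intro x
    by_contra h; push Not at h
    have := finrank_sup_span_le Z x
    rw [eq_top_iff'.2 h, finrank_top] at this
    omega
  by_cases hx : ∃ x, x ∉ Z ∧ A x ∉ Z ⊔ F ∙ x
  · obtain ⟨x, h1, h2⟩ := hx
    refine ⟨W ⊔ F ∙ x, fin _ x (A x) (finrank_sup_span_le _ _) h1 h2 ?_⟩
    refine sup_le (sup_le (sup_le_sup le_sup_left (map_mono le_sup_left))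
      (le_sup_right.trans le_sup_left)) ?_
    rw [span_singleton_le_iff_mem]
    exact mem_sup_right ⟨x, mem_sup_right (mem_span_singleton_self _), rfl⟩
  push Not at hx
  have hx' : ∀ x, x ∉ Z → ∃ c : F, A x - c • x ∈ Z := by
    intro x h
    obtain ⟨z, hz, _, hy, e⟩ := mem_sup.1 (hx x h)
    obtain ⟨c, rfl⟩ := mem_span_singleton.1 hy
    exact ⟨c, by rw [← e]; simpa using hz⟩
  have pair : ∀ (y1 y2 : V) (c1 c2 : F), y1 ∉ Z → y2 ∉ Z ⊔ F ∙ y1 → A y1 - c1 • y1 ∈ Z →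
      A y2 - c2 • y2 ∈ Z → c1 = c2 := by
    intro y1 y2 c1 c2 k1 k2 k3 k4
    obtain ⟨f, f1, f2⟩ := exists_fun k2
    have f3 : f y1 = 0 := f2 _ (mem_sup_right (mem_span_singleton_self _))
    obtain ⟨g0, g1, g2⟩ := exists_fun k1
    let g := g0 - g0 y2 • f
    have g3 : ∀ z ∈ Z, g z = 0 := fun z hz => by simp [g, g2 z hz, f2 z (mem_sup_left hz)]
    have g4 : g y1 = 1 := by simp [g, g1, f3]
    have g5 : g y2 = 0 := by simp [g, f1]
    obtain ⟨c, hc⟩ := hx' (y1 + y2) (fun h => by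
      have := f2 _ (mem_sup_left h); simp [f1, f3] at this)
    have k5 := sub_mem (sub_mem hc k3) k4
    have e1 := f2 _ (mem_sup_left k5)
    have e2 := g3 _ k5
    simp only [map_sub, map_add, map_smul, f1, f3, g4, g5, smul_eq_mul] at e1 e2
    linear_combination e2 - e1
  obtain ⟨x1, hx1⟩ := ex2 0
  have hx1' : x1 ∉ Z := fun h => hx1 (mem_sup_left h)
  obtain ⟨c, hc⟩ := hx' x1 hx1'
  obtain ⟨x3, hx3⟩ := ex2 x1
  obtain ⟨c3, hc3⟩ := hx' x3 (fun h => hx3 (mem_sup_left h))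
  have all : ∀ y, y ∉ Z → A y - c • y ∈ Z := by
    intro y hy
    obtain ⟨d, hd⟩ := hx' y hy
    by_cases h : y ∈ Z ⊔ F ∙ x1
    · have : x3 ∉ Z ⊔ F ∙ y := fun h' => hx3 ((sup_le le_sup_left
        ((span_singleton_le_iff_mem _ _).2 h)) h')
      rw [pair x1 x3 c c3 hx1' hx3 hc hc3, ← pair y x3 d c3 hy this hd hc3]; exact hd
    · rw [pair x1 y c d hx1' h hc hd]; exact hd
  have hrange : range (sh A c) ≤ Z := by
    rintro _ ⟨y, rfl⟩
    by_cases hy : y ∈ Z
    · have := sub_mem (all (y + x1) (fun h => hx1' (by simpa using sub_mem h hy))) hc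
      convert this using 1
      rw [sh_apply, map_add]; module
    · exact all y hy
  obtain ⟨x, k1, k2, k3⟩ := stuck A W c hrange (hr c) (fun h => hx1' (by rw [hZd, h]; trivial))
  obtain ⟨x4, hx4⟩ := ex2 x
  obtain ⟨w, hw, _, ⟨w', hw', rfl⟩, e⟩ := mem_sup.1 (hrange ⟨x4, rfl⟩)
  set x2 := x4 - w'
  have e2 : sh A c x2 ∈ W := by
    have : sh A c x2 = w + c • w' := by rw [map_sub, ← e, sh_apply]; abel
    rw [this]; exact add_mem hw (smul_mem _ _ hw')
  have hx2 : x2 ∉ Z ⊔ F ∙ x := fun h => hx4 (by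
    simpa [x2] using add_mem h (mem_sup_left (mem_sup_left hw') : w' ∈ Z ⊔ F ∙ x))
  set w0 := sh A c x
  obtain ⟨f, hf⟩ := exists_fun_ne (F := F) k3
  let W' := ((W ⊓ ker f) ⊔ F ∙ (w0 + x2)) ⊔ F ∙ x
  refine ⟨W', fin W' x x2 ?_ k1 hx2 ?_⟩
  · have a1 := finrank_sup_span_le ((W ⊓ ker f) ⊔ F ∙ (w0 + x2)) x
    have a2 := finrank_sup_span_le (W ⊓ ker f) (w0 + x2)
    have a3 := finrank_inf_ker W f k2 hf
    simp only [W']; omega
  set Z' := W' ⊔ W'.map A
  have hN : ∀ y ∈ W', sh A c y ∈ Z' := fun y hy =>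
    sub_mem (mem_sup_right ⟨y, hy, rfl⟩) (smul_mem _ _ (mem_sup_left hy))
  have b1 : x ∈ W' := mem_sup_right (mem_span_singleton_self _)
  have b2 : w0 + x2 ∈ W' := mem_sup_left (mem_sup_right (mem_span_singleton_self _))
  have b3 : ∀ y ∈ W, y - f y • w0 ∈ W' := fun y hy =>
    mem_sup_left (mem_sup_left ⟨sub_mem hy (smul_mem _ _ k2), by simp [hf]⟩)
  have b4 : w0 ∈ Z' := hN x b1
  have b5 : ∀ y ∈ W, y ∈ Z' := fun y hy => by
    simpa using add_mem (mem_sup_left (b3 y hy) : _ ∈ Z') (smul_mem _ (f y) b4)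
  have b6 : sh A c w0 ∈ Z' := by
    have := sub_mem (hN _ b2) (b5 _ e2)
    rwa [map_add, add_sub_cancel_right] at this
  refine sup_le (sup_le (sup_le b5 ?_) ?_) ?_
  · rintro _ ⟨y, hy, rfl⟩
    have := add_mem (add_mem (hN _ (b3 y hy)) (smul_mem _ (f y) b6)) (smul_mem _ c (b5 y hy))
    convert this using 1
    rw [map_sub, map_smul, sh_apply A c y]; abel
  · rw [span_singleton_le_iff_mem]; exact mem_sup_left b1
  · rw [span_singleton_le_iff_mem]
    simpa using sub_mem (mem_sup_left b2 : _ ∈ Z') b4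

theorem exists_W (A : End F V) (m : ℕ) (hn : 2 * m ≤ finrank F V) (hr : ∀ c, m ≤ rk (sh A c)) :
    ∃ W : Submodule F V, finrank F W = m ∧ finrank F ↥(W ⊔ W.map A) = 2 * m := by
  induction m with
  | zero => exact ⟨⊥, by simp, by simp⟩
  | succ m ih =>
    obtain ⟨W, h1, h2⟩ := ih (by omega) (fun c => by have := hr c; omega)
    obtain ⟨W', h3, h4⟩ := grow A W (by omega) (by omega) (fun c => by have := hr c; omega)
    exact ⟨W', by omega, by omega⟩

theorem exists_W_odd (A : End F V) (m : ℕ) (hn : 2 * m + 1 = finrank F V)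
    (hr : ∀ c, m < rk (sh A c)) :
    ∃ W : Submodule F V, finrank F W = m ∧ finrank F ↥(W ⊔ W.map A) = 2 * m ∧
      ∃ y ∈ W, A (A y) ∉ W ⊔ W.map A := by
  obtain ⟨W, h1, h2⟩ := exists_W A m (by omega) (fun c => (hr c).le)
  by_cases h : ∃ y ∈ W, A (A y) ∉ W ⊔ W.map A
  · exact ⟨W, h1, h2, h⟩
  push Not at h
  set Z := W ⊔ W.map A with hZd
  have hZ : Z ≠ ⊤ := fun h => by rw [h, finrank_top] at h2; omega
  have top : ∀ v, v ∉ Z → Z ⊔ (F ∙ v) = ⊤ := fun v hv =>
    Submodule.eq_top_of_finrank_eq (by rw [finrank_sup_span hv]; omega)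
  have inv : ∀ z ∈ Z, A z ∈ Z := by
    intro z hz
    obtain ⟨w, hw, _, ⟨w', hw', rfl⟩, rfl⟩ := mem_sup.1 hz
    rw [map_add]; exact add_mem (mem_sup_right ⟨w, hw, rfl⟩) (h w' hw')
  obtain ⟨v, hv⟩ : ∃ a, a ∉ Z := by
    by_contra h; push Not at h; exact hZ (eq_top_iff'.2 h)
  have dec : ∀ y, ∃ z ∈ Z, ∃ c : F, z + c • v = y := by
    intro y
    obtain ⟨z, hz, _, hy, e⟩ := mem_sup.1 ((top v hv).symm ▸ mem_top : y ∈ Z ⊔ F ∙ v)
    obtain ⟨c, rfl⟩ := mem_span_singleton.1 hy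
    exact ⟨z, hz, c, e⟩
  obtain ⟨z, hz, c, e⟩ := dec (A v)
  have hrange : range (sh A c) ≤ Z := by
    rintro _ ⟨y, rfl⟩
    obtain ⟨z', hz', d, rfl⟩ := dec y
    have := add_mem (sub_mem (inv z' hz') (smul_mem _ c hz')) (smul_mem _ d hz)
    convert this using 1
    rw [sh_apply, map_add, map_smul, ← e]; module
  obtain ⟨x, k1, k2, k3⟩ := stuck A W c hrange (by rw [h1]; exact hr c) hZ
  set w0 := sh A c x with hw0
  obtain ⟨f, hf⟩ := exists_fun_ne (F := F) k3
  let W' := (W ⊓ ker f) ⊔ F ∙ x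
  have a3 := finrank_inf_ker W f k2 hf
  have d1 : finrank F W' = m := by
    have := finrank_sup_span (p := W ⊓ ker f) (x := x) (fun h => k1 (mem_sup_left h.1))
    simp only [W']; omega
  set Z' := W' ⊔ W'.map A
  have hN : ∀ y ∈ W', sh A c y ∈ Z' := fun y hy =>
    sub_mem (mem_sup_right ⟨y, hy, rfl⟩) (smul_mem _ _ (mem_sup_left hy))
  have b1 : x ∈ W' := mem_sup_right (mem_span_singleton_self _)
  have b3 : ∀ y ∈ W, y - f y • w0 ∈ W' := fun y hy =>
    mem_sup_left ⟨sub_mem hy (smul_mem _ _ k2), by simp [hf]⟩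
  have b4 : w0 ∈ Z' := hN x b1
  have b5 : ∀ y ∈ W, y ∈ Z' := fun y hy => by
    simpa using add_mem (mem_sup_left (b3 y hy) : _ ∈ Z') (smul_mem _ (f y) b4)
  have t1 : Z' ⊔ (F ∙ A w0) = ⊤ := by
    rw [eq_top_iff, ← top x k1]
    refine sup_le (sup_le (fun y hy => mem_sup_left (b5 y hy)) ?_) ?_
    · rintro _ ⟨y, hy, rfl⟩
      have := add_mem (mem_sup_left (mem_sup_right ⟨_, b3 y hy, rfl⟩) : _ ∈ Z' ⊔ (F ∙ A w0))
        (smul_mem _ (f y) (mem_sup_right (mem_span_singleton_self (A w0))))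
      simpa using this
    · rw [span_singleton_le_iff_mem]; exact mem_sup_left (mem_sup_left b1)
  have t2 := finrank_sup_span_le Z' (A w0)
  rw [t1, finrank_top] at t2
  have t3 : finrank F Z' ≤ 2 * finrank F W' := finrank_Z_le A W'
  refine ⟨W', d1, (by omega : finrank F Z' = 2 * m), x, b1, fun hA => ?_⟩
  have : A w0 ∈ Z' := by
    rw [hw0, sh_apply, map_sub, map_smul]
    exact sub_mem hA (smul_mem _ _ (mem_sup_right ⟨x, b1, rfl⟩))
  rw [sup_eq_left.2 ((span_singleton_le_iff_mem _ _).2 this)] at t1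
  rw [t1, finrank_top] at t3
  omega

end Trans

section Coord

variable {V W T : Type u} [AddCommGroup V] [Module F V] [FiniteDimensional F V]
  [AddCommGroup W] [Module F W] [FiniteDimensional F W]
  [AddCommGroup T] [Module F T] [FiniteDimensional F T]

theorem bc_nil2 (S T' : End F W) (h1 : Nil2 S) (h2 : Nil2 T') : Nil2 (bc (S * T') (S + T')) := by
  refine nil2_exact _ T' S ((-S).prod 1) ((1 : End F W).coprod S) ?_ ?_ ?_ h2 h1
  · rintro ⟨x, y⟩ h
    refine ⟨y, ?_⟩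
    simp only [coprod_apply, End.one_apply] at h
    simp [eq_neg_of_add_eq_zero_left h]
  · intro y; simp
  · rintro ⟨x, y⟩; simp; abel

theorem bc_det (P : End F W) : LinearMap.det (bc P (P + 1)) = LinearMap.det P := by
  rw [det_exact (bc P (P + 1)) 1 P ((-P).prod 1) ((1 : End F W).coprod P)]
  · simp
  · intro x y h; simpa using congrArg Prod.snd h
  · intro x; exact ⟨(x, 0), by simp⟩
  · rintro ⟨x, y⟩ h
    refine ⟨y, ?_⟩
    simp only [coprod_apply, End.one_apply] at h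
    simp [eq_neg_of_add_eq_zero_left h]
  · intro y; simp
  · intro y; simp
  · rintro ⟨x, y⟩; simp; abel

/-- model operator -/
def mdl (P Q : End F W) (γ : W →ₗ[F] T) (w0 : T →ₗ[F] W) : End F ((W × W) × T) :=
  ((P ∘ₗ LinearMap.snd F W W ∘ₗ LinearMap.fst F _ T).prod
    (LinearMap.fst F W W ∘ₗ LinearMap.fst F _ T + Q ∘ₗ LinearMap.snd F W W ∘ₗ LinearMap.fst F _ T
      + w0 ∘ₗ LinearMap.snd F _ T)).prod
    (γ ∘ₗ LinearMap.snd F W W ∘ₗ LinearMap.fst F _ T - LinearMap.snd F _ T)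

theorem mdl_apply (P Q : End F W) (γ : W →ₗ[F] T) (w0 : T →ₗ[F] W) (x y : W) (s : T) :
    mdl P Q γ w0 ((x, y), s) = ((P y, x + Q y + w0 s), γ y - s) := rfl

/-- model involution -/
def mdlJ (X : End F W) (w0 : T →ₗ[F] W) : End F ((W × W) × T) :=
  ((LinearMap.fst F W W ∘ₗ LinearMap.fst F _ T + X ∘ₗ LinearMap.snd F W W ∘ₗ LinearMap.fst F _ T
      + w0 ∘ₗ LinearMap.snd F _ T).prod (-LinearMap.snd F W W ∘ₗ LinearMap.fst F _ T)).prod
    (-LinearMap.snd F _ T)

theorem mdlJ_apply (X : End F W) (w0 : T →ₗ[F] W) (x y : W) (s : T) :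
    mdlJ X w0 ((x, y), s) = ((x + X y + w0 s, -y), -s) := rfl

theorem mdlJ_sq (X : End F W) (w0 : T →ₗ[F] W) : mdlJ X w0 * mdlJ X w0 = 1 := by
  apply LinearMap.ext; rintro ⟨⟨x, y⟩, s⟩
  simp [mdlJ_apply]; abel

theorem mdl_mul (P Q R : End F W) (γ : W →ₗ[F] T) (w0 : T →ₗ[F] W) (x y : W) (s : T) :
    (mdl P Q γ w0 * mdlJ (R + Q) w0) ((x, y), s) = ((-P y, x + R y), s - γ y) := by
  simp [mdlJ_apply, mdl_apply]; constructor <;> abel

theorem mdl_det (P Q : End F W) (γ : W →ₗ[F] T) (w0 : T →ₗ[F] W) :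
    LinearMap.det (mdl P Q γ w0) ^ 2 = LinearMap.det P ^ 2 := by
  have h1 : LinearMap.det (mdl P Q γ w0 * mdlJ (P + 1 + Q) w0) = LinearMap.det P := by
    rw [det_exact _ 1 (bc P (P + 1)) (inr F _ T) (LinearMap.fst F _ T), bc_det]
    · simp
    · exact inr_injective
    · exact fst_surjective
    · rintro ⟨x, y⟩ h; exact ⟨y, by simp at h; simp [h]⟩
    · simp
    · intro y; exact (mdl_mul P Q (P + 1) γ w0 0 0 y).trans (by simp)
    · rintro ⟨⟨x, y⟩, s⟩; rw [mdl_mul]; simp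
  rw [← h1, map_mul, mul_pow, det_inv_sq (mdlJ_sq (P + 1 + Q) w0), mul_one]

theorem mdl_nsol (P Q : End F W) (γ : W →ₗ[F] T) (w0 : T →ₗ[F] W)
    (hd : LinearMap.det P ^ 2 = 1) (hP : ∀ p : F, P = p • 1 → P * P = 1) :
    NSol (mdl P Q γ w0) := by
  obtain ⟨S, T', rfl, h1, h2⟩ := sourour _ W rfl P hd hP
  have h3 : Nil2 (mdl (S * T') Q γ w0 * mdlJ (S + T' + Q) w0) := by
    refine nil2_exact _ 1 _ (inr F _ T) (LinearMap.fst F _ T) ?_ ?_ ?_ nil2_one (bc_nil2 S T' h1 h2)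
    · rintro ⟨x, y⟩ h; exact ⟨y, by simp at h; simp [h]⟩
    · intro y; exact (mdl_mul _ Q _ γ w0 0 0 y).trans (by simp)
    · rintro ⟨⟨x, y⟩, s⟩; rw [mdl_mul]; simp
  obtain ⟨J1, J2, k1, k2, k3⟩ := rev_of_nil2 h3
  refine ⟨J1, J2, mdlJ (S + T' + Q) w0, k1, k2, mdlJ_sq _ _, by
    rw [k3, mul_assoc, mdlJ_sq, mul_one], ?_⟩
  rw [k3]
  set M := mdl (S * T') Q γ w0 * mdlJ (S + T' + Q) w0
  have : M ^ 4 - 1 = (M * M - 1) * (M * M + 1) := by
    simp only [pow_succ, pow_zero, mul_add, sub_mul, one_mul, mul_one, mul_assoc]; abel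
  rw [this]
  exact Commute.isNilpotent_mul_right (by
    simp only [Commute, SemiconjBy, mul_add, add_mul, sub_mul, mul_sub, one_mul, mul_one]; abel) h3

/-- the coordinate map -/
def crd (A : End F V) (i : W →ₗ[F] V) (t : T →ₗ[F] V) : (W × W) × T →ₗ[F] V :=
  (i.coprod (A ∘ₗ i)).coprod t

theorem crd_apply (A : End F V) (i : W →ₗ[F] V) (t : T →ₗ[F] V) (x y : W) (s : T) :
    crd A i t ((x, y), s) = i x + A (i y) + t s := rfl

theorem crd_data (A : End F V) (i : W →ₗ[F] V) (t : T →ₗ[F] V)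
    (hb : Function.Bijective (crd A i t)) :
    ∃ (P Q : End F W) (γ : W →ₗ[F] T), ∀ y, A (A (i y)) = i (P y) + A (i (Q y)) + t (γ y) := by
  let e := LinearEquiv.ofBijective _ hb
  let g : W →ₗ[F] (W × W) × T := (e.symm : V →ₗ[F] _) ∘ₗ A ∘ₗ A ∘ₗ i
  refine ⟨LinearMap.fst F W W ∘ₗ LinearMap.fst F _ T ∘ₗ g,
    LinearMap.snd F W W ∘ₗ LinearMap.fst F _ T ∘ₗ g, LinearMap.snd F _ T ∘ₗ g, fun y => ?_⟩
  exact (e.apply_symm_apply (A (A (i y)))).symm

theorem crd_conj (A : End F V) (i : W →ₗ[F] V) (t : T →ₗ[F] V) (w0 : T →ₗ[F] W)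
    (ht : ∀ s, A (t s) + t s = A (i (w0 s))) (P Q : End F W) (γ : W →ₗ[F] T)
    (h : ∀ y, A (A (i y)) = i (P y) + A (i (Q y)) + t (γ y)) (x) :
    crd A i t (mdl P Q γ w0 x) = A (crd A i t x) := by
  obtain ⟨⟨x, y⟩, s⟩ := x
  simp only [mdl_apply, crd_apply, map_add, map_sub, h, ← ht]
  abel

theorem crd_det (A : End F V) (i : W →ₗ[F] V) (t : T →ₗ[F] V) (w0 : T →ₗ[F] W)
    (hb : Function.Bijective (crd A i t))
    (ht : ∀ s, A (t s) + t s = A (i (w0 s))) (P Q : End F W) (γ : W →ₗ[F] T)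
    (h : ∀ y, A (A (i y)) = i (P y) + A (i (Q y)) + t (γ y)) :
    LinearMap.det P ^ 2 = LinearMap.det A ^ 2 := by
  rw [← mdl_det P Q γ w0, det_of_conj _ A (LinearEquiv.ofBijective _ hb)
    (crd_conj A i t w0 ht P Q γ h)]

theorem crd_nsol (A : End F V) (i : W →ₗ[F] V) (t : T →ₗ[F] V) (w0 : T →ₗ[F] W)
    (hb : Function.Bijective (crd A i t))
    (ht : ∀ s, A (t s) + t s = A (i (w0 s))) (P Q : End F W) (γ : W →ₗ[F] T)
    (h : ∀ y, A (A (i y)) = i (P y) + A (i (Q y)) + t (γ y)) (hd : LinearMap.det A ^ 2 = 1)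
    (hP : ∀ p : F, P = p • 1 → P * P = 1) : NSol A :=
  (mdl_nsol P Q γ w0 (by rw [crd_det A i t w0 hb ht P Q γ h, hd]) hP).conj
    (LinearEquiv.ofBijective _ hb) (crd_conj A i t w0 ht P Q γ h)

theorem core_even (A : End F V) (m : ℕ) (hn : 2 * m = finrank F V) (hr : ∀ c, m ≤ rk (sh A c))
    (hd : LinearMap.det A ^ 2 = 1) : NSol A ∨ (InQ A ∧ I3 A) := by
  obtain ⟨W, h1, h2⟩ := exists_W A m hn.le hr
  have bij : ∀ i : W →ₗ[F] V, Function.Surjective (crd A i (0 : PUnit.{u + 1} →ₗ[F] V)) ∨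
      Function.Injective (crd A i (0 : PUnit.{u + 1} →ₗ[F] V)) →
      Function.Bijective (crd A i (0 : PUnit.{u + 1} →ₗ[F] V)) := by
    intro i h
    have := LinearMap.injective_iff_surjective_of_finrank_eq_finrank
      (f := crd A i (0 : PUnit.{u + 1} →ₗ[F] V)) (by
        simp [h1, Module.finrank_zero_of_subsingleton]; omega)
    unfold Function.Bijective; tauto
  have hb := bij W.subtype (Or.inl (by
    intro v
    have : W ⊔ W.map A = ⊤ := Submodule.eq_top_of_finrank_eq (by omega)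
    obtain ⟨w, hw, _, ⟨w', hw', rfl⟩, rfl⟩ := mem_sup.1 (this ▸ mem_top : v ∈ W ⊔ W.map A)
    exact ⟨((⟨w, hw⟩, ⟨w', hw'⟩), 0), by simp [crd_apply]⟩))
  obtain ⟨P, Q, γ, h⟩ := crd_data A _ _ hb
  by_cases hP : ∀ p : F, P = p • 1 → P * P = 1
  · exact Or.inl (crd_nsol A _ _ 0 hb (by simp) P Q γ h hd hP)
  push Not at hP
  obtain ⟨p, rfl, hp⟩ := hP
  have hdp := crd_det A _ _ 0 hb (by simp) _ Q γ h
  rw [hd, LinearMap.det_smul, map_one, mul_one, ← pow_mul, mul_comm] at hdp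
  simp only [LinearMap.zero_apply, add_zero, LinearMap.smul_apply, End.one_apply, map_smul] at h
  by_cases hQ : ∃ q : F, Q = q • 1
  · obtain ⟨q, rfl⟩ := hQ
    refine Or.inr ⟨⟨p, q, ?_⟩, ?_⟩
    · ext v
      obtain ⟨⟨⟨x, y⟩, s⟩, rfl⟩ := hb.2 v
      simp only [crd_apply, End.mul_apply, map_add, h, LinearMap.smul_apply, End.one_apply,
        map_smul, LinearMap.add_apply, LinearMap.zero_apply, add_zero]
      module
    · have := q1 (W := W) (-p) (by rw [← hdp, Even.neg_pow (by simp)]) (q • 1)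
      refine this.conj ((LinearEquiv.prodUnique).symm.trans (LinearEquiv.ofBijective _ hb)) ?_
      rintro ⟨x, y⟩
      change crd A _ _ ((-(-p • y), x + q • y), _) = A (crd A _ _ ((x, y), _))
      simp only [crd_apply, map_add, h, LinearMap.smul_apply, End.one_apply,
        map_smul, LinearMap.zero_apply, add_zero, neg_smul, neg_neg, LinearMap.neg_apply]
      module
  push Not at hQ
  obtain ⟨x0, hx0⟩ := exists_not_eigen hQ
  obtain ⟨f, f1, f2⟩ := exists_fun2 hx0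
  have hp0 : p ≠ 0 := by
    rintro rfl
    rcases Nat.eq_zero_or_pos (finrank F W) with h0 | h0
    · have : Subsingleton W := Module.finrank_zero_iff.1 h0
      exact hp (Subsingleton.elim _ _)
    · rw [zero_pow (by omega)] at hdp; simp at hdp
  let φ : W →ₗ[F] F := (p - 1) • f
  have φ1 : φ (Q x0) = p - 1 := by simp [φ, f1]
  have φ2 : φ x0 = 0 := by simp [φ, f2]
  let i' : W →ₗ[F] V := W.subtype + A ∘ₗ W.subtype ∘ₗ φ.smulRight x0
  have hi' : ∀ x, i' x = crd A W.subtype (0 : PUnit.{u + 1} →ₗ[F] V) ((x, φ x • x0), 0) :=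
    fun x => by simp [i', crd_apply]
  have hA : ∀ x y, A (crd A W.subtype (0 : PUnit.{u + 1} →ₗ[F] V) ((x, y), 0)) =
      crd A W.subtype (0 : PUnit.{u + 1} →ₗ[F] V) ((p • y, x + Q y), 0) := fun x y => by
    simp only [crd_apply, map_add, h, map_smul, map_zero, add_zero]; abel
  have hadd : ∀ x y x' y', crd A W.subtype (0 : PUnit.{u + 1} →ₗ[F] V) ((x, y), 0) +
      crd A W.subtype (0 : PUnit.{u + 1} →ₗ[F] V) ((x', y'), 0) =
      crd A W.subtype (0 : PUnit.{u + 1} →ₗ[F] V) ((x + x', y + y'), 0) := fun x y x' y' => by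
    rw [← map_add]; rfl
  have hb' := bij i' (Or.inr (by
    rw [← ker_eq_bot, eq_bot_iff]
    rintro ⟨⟨x, y⟩, s⟩ hx
    rw [mem_ker, crd_apply, hi', hi', hA, hadd, LinearMap.zero_apply, add_zero] at hx
    have := hb.1 (hx.trans (map_zero _).symm)
    simp only [Prod.ext_iff, Prod.fst_zero, Prod.snd_zero, map_smul] at this
    obtain ⟨⟨e1, e2⟩, -⟩ := this
    have e3 := congrArg φ e1
    have e4 := congrArg φ e2
    simp only [map_add, map_smul, φ1, φ2, smul_eq_mul, map_zero, mul_zero, add_zero] at e3 e4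
    have e5 : φ y = 0 := by
      have : p * φ y = 0 := by linear_combination e4
      simpa [hp0] using this
    simp only [e3, e5, zero_smul, smul_zero, add_zero, zero_add] at e1 e2
    simp [e1, e2]))
  obtain ⟨P', Q', γ', h'⟩ := crd_data A _ _ hb'
  refine Or.inl (crd_nsol A _ _ 0 hb' (by simp) P' Q' γ' h' hd ?_)
  rintro p' rfl
  have e := h' x0
  rw [hi', hi', hi', hA, hA, hA, hadd, LinearMap.zero_apply, add_zero] at e
  have := hb.1 e
  simp only [Prod.ext_iff, map_smul, φ2, LinearMap.smul_apply, End.one_apply, zero_smul,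
    smul_zero, map_zero, add_zero, zero_add, smul_eq_mul, mul_zero] at this
  obtain ⟨⟨e1, e2⟩, -⟩ := this
  have e4 := congrArg φ e2
  have e3 := congrArg (f ∘ₗ Q) e1
  simp only [map_add, map_smul, φ1, comp_apply, f1, smul_eq_mul] at e3 e4
  have : p' = 1 := by linear_combination e4 - e3
  simp [this]

theorem core_odd (A : End F V) (m : ℕ) (hn : 2 * m + 1 = finrank F V) (hr : ∀ c, m < rk (sh A c))
    (hd : LinearMap.det A ^ 2 = 1) : NSol A := by
  obtain ⟨W, h1, h2, y1, hy1, hy2⟩ := exists_W_odd A m hn hr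
  set Z := W ⊔ W.map A with hZd
  have top : ∀ v, v ∉ Z → Z ⊔ (F ∙ v) = ⊤ := fun v hv =>
    Submodule.eq_top_of_finrank_eq (by rw [finrank_sup_span hv]; omega)
  have bij : ∀ v, v ∉ Z → Function.Bijective (crd A W.subtype (toSpanSingleton F V v)) := by
    intro v hv
    have hs : Function.Surjective (crd A W.subtype (toSpanSingleton F V v)) := by
      intro y
      obtain ⟨_, hz, _, hy, rfl⟩ := mem_sup.1 ((top v hv).symm ▸ mem_top : y ∈ Z ⊔ F ∙ v)
      obtain ⟨c, rfl⟩ := mem_span_singleton.1 hy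
      obtain ⟨w, hw, _, ⟨w', hw', rfl⟩, rfl⟩ := mem_sup.1 hz
      exact ⟨((⟨w, hw⟩, ⟨w', hw'⟩), c), rfl⟩
    exact ⟨(LinearMap.injective_iff_surjective_of_finrank_eq_finrank (by simp [h1]; omega)).2 hs,
      hs⟩
  obtain ⟨v, hv, w0, hw0⟩ : ∃ v, v ∉ Z ∧ ∃ w0 : W, A v + v = A w0 := by
    obtain ⟨⟨⟨w1, w2⟩, c⟩, e⟩ := (bij _ hy2).2 (A (A (A y1)) + A (A y1))
    simp only [crd_apply, subtype_apply, toSpanSingleton_apply] at e
    refine ⟨A (A y1) - w1 - c • A y1, fun h => hy2 ?_, w2 - w1 - c • ⟨y1, hy1⟩, ?_⟩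
    · have := add_mem (add_mem h (smul_mem _ c (mem_sup_right ⟨y1, hy1, rfl⟩ : A y1 ∈ Z)))
        (mem_sup_left w1.2 : (w1 : V) ∈ Z)
      simpa using this
    · simp only [map_sub, map_smul, AddSubgroupClass.coe_sub, SetLike.val_smul]
      linear_combination (norm := module) -e
  have hb := bij v hv
  obtain ⟨P, Q, γ, h⟩ := crd_data A _ _ hb
  by_cases hP : ∀ p : F, P = p • 1 → P * P = 1
  · exact crd_nsol A _ _ (toSpanSingleton F W w0) hb (by simp [← smul_add, hw0]) P Q γ h hd hP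
  push Not at hP
  obtain ⟨p, rfl, hp⟩ := hP
  have hdp := crd_det A _ _ (toSpanSingleton F W w0) hb (by simp [← smul_add, hw0]) _ Q γ h
  rw [hd, LinearMap.det_smul, map_one, mul_one] at hdp
  simp only [LinearMap.smul_apply, End.one_apply, map_smul, subtype_apply,
    toSpanSingleton_apply] at h
  have hge : 2 ≤ finrank F W := by
    by_contra hlt
    apply hp
    rcases (by omega : finrank F W = 0 ∨ finrank F W = 1) with h | h
    · have : Subsingleton W := Module.finrank_zero_iff.1 h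
      exact Subsingleton.elim _ _
    · rw [h, pow_one] at hdp
      rw [smul_mul_smul_comm, ← sq, hdp]; simp
  have hp0 : p ≠ 0 := by
    rintro rfl
    rw [zero_pow (by omega)] at hdp; simp at hdp
  have hγ : γ ⟨y1, hy1⟩ ≠ 0 := by
    intro h0
    apply hy2
    have := h ⟨y1, hy1⟩
    rw [h0, zero_smul, add_zero] at this
    rw [this]
    exact add_mem (mem_sup_left (smul_mem _ _ hy1)) (mem_sup_right ⟨_, (Q ⟨y1, hy1⟩).2, rfl⟩)
  obtain ⟨y0, hy0, hy0'⟩ : ∃ y0 ∈ ker γ, y0 ≠ 0 := by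
    apply Submodule.exists_mem_ne_zero_of_ne_bot
    have := rk_add_ker γ
    have := rk_le_cod γ
    rw [Module.finrank_self] at this
    rw [Ne, ← Submodule.finrank_eq_zero]; omega
  have g0 : γ y0 = 0 := hy0
  let v' : V := v - p • (y0 : V) + A y0
  have hv' : v' ∉ Z := fun h => hv (by
    have := add_mem (sub_mem h (mem_sup_right ⟨_, y0.2, rfl⟩ : A y0 ∈ Z))
      (smul_mem _ p (mem_sup_left y0.2 : (y0 : V) ∈ Z))
    simpa [v'] using this)
  refine crd_nsol A _ _ (toSpanSingleton F W (w0 - p • y0 + Q y0 + y0)) (bij v' hv') ?_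
    (p • 1 + p • γ.smulRight y0) (Q - γ.smulRight y0) γ ?_ hd ?_
  · intro s
    simp only [toSpanSingleton_apply, map_smul, subtype_apply, map_add, map_sub, v', h, g0,
      ← hw0]
    module
  · intro y
    simp only [toSpanSingleton_apply, map_smul, subtype_apply, map_add, map_sub, v', h,
      LinearMap.add_apply, LinearMap.smul_apply, End.one_apply, smulRight_apply,
      LinearMap.sub_apply]
    module
  · intro p' hp'
    exfalso
    have e1 := congr($hp' y0)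
    have e2 := congr($hp' ⟨y1, hy1⟩)
    simp only [LinearMap.add_apply, LinearMap.smul_apply, End.one_apply, smulRight_apply, g0,
      zero_smul, smul_zero, add_zero] at e1 e2
    rw [← smul_left_injective F hy0' e1] at e2
    simp [hp0, hγ, hy0'] at e2

end Coord

end Pool.Agent.Lib.MP_530e0f_al
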