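import Pool.Agent.Lib.MP_530e0f_al.Sharp

/-! Liu's necessary condition for products of three involutions and its converse. -/

namespace Pool.Agent.Lib.MP_530e0f_al.Sharp

universe u

open Module Submodule Pool.Agent.Lib.MP_530e0f_al
open LinearMap hiding sub_apply smul_apply add_apply zero_apply neg_apply

variable {F : Type u} [Field F]
variable {V : Type u} [AddCommGroup V] [Module F V] [FiniteDimensional F V]

theorem liu_nec {A : End F V} (hA : I3 A) {l : F} (h4 : l ^ 4 ≠ 1) :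
    rk (sh A (l⁻¹ ^ 3)) ≤ 3 * rk (sh A l) := by
  have b0 := rk_le_dom (sh A (l⁻¹ ^ 3))
  by_cases hD : Dom A l
  swap
  · unfold Dom at hD; omega
  have h0 : l ≠ 0 := hD.ne_zero hA
  obtain ⟨n', e, M, o, d⟩ := (cl_of_i3 _ _ (sh_factor A l ▸ hA)).mutate h0 h4
  obtain ⟨-, -, r3⟩ := rel h0 h4 _ _ (injective_subtype _) (surjective_rangeRestrict _) M.a M.b
    o.red
  rw [← sh_factor] at r3
  have a1 := wy_zero (M.b ∘ₗ M.a)
  have a2 := (rk_comp_le_left M.b M.a).trans (rk_le_dom M.b)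
  have a3 := wy_zero (sh A (l⁻¹ ^ 3))
  rw [r3] at a1
  unfold Mod.dim at d
  unfold rk at *
  omega

theorem liu_suff (A : End F V) (hd : LinearMap.det A ^ 2 = 1) (e : ℕ)
    (he : e = 0 ∨ (e ≤ 2 ∧ (LinearMap.det A = 1 ∨ ¬ 4 ∣ finrank F V)))
    (h : ∀ l : F, l ^ 4 ≠ 1 → 2 * rk (sh A l) < finrank F V →
      (l ^ 12 ≠ 1 → finrank F V ≤ 2 * rk (sh A l) + 2 * rk (sh A l ^ 2) + e) ∧
      ∀ μ : F, μ ≠ l → (l ^ 2 * μ) ^ 4 ≠ 1 →
        3 * finrank F V ≤ 4 * rk (sh A l) + 2 * rk (sh A μ) + e)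
    (hL : ∀ l : F, l ^ 4 ≠ 1 → rk (sh A (l⁻¹ ^ 3)) ≤ 3 * rk (sh A l)) : I3 A := by
  by_cases hc : ∀ c : F, c ^ 4 ≠ 1 → ¬ Dom A c
  · exact (base _ V rfl A hd hc).1
  push Not at hc
  obtain ⟨l, h4, hD⟩ := hc
  have h0 : l ≠ 0 := ne_zero_of_dom hd hD
  have w0 := wy_zero (sh A l)
  unfold Dom at hD
  obtain ⟨hb1, hb2⟩ := h l h4 hD
  have hl := hL l h4
  obtain ⟨R, -, rP⟩ := red A h0 h4
  have n2 : l⁻¹ ^ 3 ≠ l := by
    intro h; apply h4
    rw [pow_succ' l 3]; nth_rw 1 [← h]; field_simp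
  have hb3 := hb2 _ n2 (by
    rw [show l ^ 2 * l⁻¹ ^ 3 = l⁻¹ by field_simp]; exact inv_pow_four h4)
  have w1 := wy_zero (sh A (l⁻¹ ^ 3))
  have he2 : e ≤ 2 := by omega
  set n := finrank F V with hn
  set u := wy (sh A (l⁻¹ ^ 3)) with hu
  have ua : Antitone u := wy_anti _
  have uz : ∀ k, rk (sh A l) ≤ k → u k = 0 := fun k hk => by rw [← rP]; exact wy_eq_zero _ hk
  obtain ⟨c, c0, c1, c2, c3⟩ : ∃ c : ℕ → ℕ, c 0 ≤ max (u 0) (2 * n - 3 * wy (sh A l) 0) ∧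
      (∀ k, c (k + 1) ≤ c k) ∧ (∀ k, c (k + 1) ≤ u k ∧ u (k + 1) ≤ c k) ∧
      ∑ k ∈ Finset.range n, c k + n = (3 * n - 4 * wy (sh A l) 0) + wy (sh A l) 0 +
        ∑ k ∈ Finset.range n, u k := by
    by_cases hs : 3 * wy (sh A l) 0 ≤ 2 * n
    · obtain ⟨N, hN⟩ : ∃ N, n = N + 1 := ⟨n - 1, by omega⟩
      have := ins_sum ua (2 * n - 3 * wy (sh A l) 0) N
      refine ⟨ins u (2 * n - 3 * wy (sh A l) 0), le_rfl, ins_anti ua _, ins_int ua _, ?_⟩
      rw [uz N (by omega), ← hN] at this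
      omega
    · set v := u 0 + 2 * n - 3 * wy (sh A l) 0 with hv
      have := ins_sum ua v n
      rw [Finset.sum_range_succ' (ins u v), Finset.sum_range_succ u, uz n (by omega)] at this
      have i0 : ins u v 0 = max (u 0) v := rfl
      refine ⟨fun k => ins u v (k + 1), (ins_int ua v 0).1.trans (le_max_left _ _),
        fun k => ins_anti ua v _, fun k => ⟨?_, ?_⟩, by beta_reduce; omega⟩
      · exact (ins_int ua v (k + 1)).1.trans (ua (Nat.le_succ k))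
      · exact le_max_left _ _
  obtain ⟨X, _, _, _, B, x1, x2, x3, x4, x5, x6⟩ := step A h4 hd (by omega)
    (3 * n - 4 * wy (sh A l) 0) (by omega) c c1 c2 c3
  refine x6 (main _ X x1 B (by rw [x2, hd]) fun ν hν => ?_)
  have key : 2 * wy (sh B ν) 0 ≤ 3 * n - 4 * wy (sh A l) 0 + e := by
    by_cases c1 : ν = l⁻¹
    · rw [c1, x5]; omega
    by_cases c2 : ν = l ^ 3
    · rw [c2, x3]
      have a1 := hb1 (by rw [c2, ← pow_mul] at hν; exact hν)
      have a2 := wy_add (sh A l) 1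
      rw [pow_one] at a2
      simp only [zero_add, Nat.reduceAdd] at a2 ⊢
      omega
    have k0 : ν = l ^ 2 * (ν / l ^ 2) := by field_simp
    have k1 : ν / l ^ 2 ≠ l := fun h => c2 (by rw [k0, h]; ring)
    have k2 : ν / l ^ 2 ≠ l⁻¹ ^ 3 := fun h => c1 (by rw [k0, h]; field_simp)
    have a1 := hb2 _ k1 (by rw [← k0]; exact hν)
    have a2 := wy_zero (sh A (ν / l ^ 2))
    rw [k0, x4 _ k1 k2]
    omega
  have := wy_zero (sh B ν)
  rcases he with he | ⟨-, he⟩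
  · left; omega
  · refine Or.inr ⟨by omega, ?_⟩
    rw [x2]
    exact he.imp id fun h => by omega

end Pool.Agent.Lib.MP_530e0f_al.Sharp
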