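import Pool.Agent.Lib.MP_530e0f_al.Liu

/-! Explicit rank conditions under which Liu's necessary condition characterises products of
three involutions. -/

namespace Pool.Agent.Lib.MP_530e0f_al.LiuConverse

universe u

open Module Pool.Agent.Lib.MP_530e0f_al

theorem result {F : Type u} [Field F] (n : ℕ) (A : Matrix (Fin n) (Fin n) F) (e : ℕ)
    (he : e = 0 ∨ (e ≤ 2 ∧ (A.det = 1 ∨ ¬ 4 ∣ n)))
    (h : ∀ l : F, l ^ 4 ≠ 1 → 2 * (A - l • (1 : Matrix (Fin n) (Fin n) F)).rank < n →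
      (l ^ 12 ≠ 1 → n ≤ 2 * (A - l • (1 : Matrix (Fin n) (Fin n) F)).rank +
        2 * ((A - l • (1 : Matrix (Fin n) (Fin n) F)) ^ 2).rank + e) ∧
      ∀ μ : F, μ ≠ l → (l ^ 2 * μ) ^ 4 ≠ 1 →
        3 * n ≤ 4 * (A - l • (1 : Matrix (Fin n) (Fin n) F)).rank +
          2 * (A - μ • (1 : Matrix (Fin n) (Fin n) F)).rank + e) :
    (∃ J1 J2 J3 : Matrix (Fin n) (Fin n) F, J1 * J1 = 1 ∧ J2 * J2 = 1 ∧ J3 * J3 = 1 ∧
      A = J1 * J2 * J3) ↔
    (A.det = 1 ∨ A.det = -1) ∧ ∀ l : F, l ^ 4 ≠ 1 →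
      (A - l⁻¹ ^ 3 • (1 : Matrix (Fin n) (Fin n) F)).rank ≤
        3 * (A - l • (1 : Matrix (Fin n) (Fin n) F)).rank := by
  have hdet : LinearMap.det (Matrix.toLinAlgEquiv' A) = A.det := LinearMap.det_toLin' A
  have hs : ∀ l : F, sh (Matrix.toLinAlgEquiv' A) l = Matrix.toLinAlgEquiv' (A - l • 1) := by
    intro l
    rw [map_sub, map_smul, map_one]
  have hr : ∀ l : F, rk (sh (Matrix.toLinAlgEquiv' A) l) =
      (A - l • (1 : Matrix (Fin n) (Fin n) F)).rank := fun l => by rw [hs]; rfl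
  have hr2 : ∀ l : F, rk (sh (Matrix.toLinAlgEquiv' A) l ^ 2) =
      ((A - l • (1 : Matrix (Fin n) (Fin n) F)) ^ 2).rank := fun l => by
    rw [hs, ← map_pow]; rfl
  have hn : finrank F (Fin n → F) = n := by simp
  constructor
  · rintro ⟨J1, J2, J3, h1, h2, h3, h4⟩
    have hI : I3 (Matrix.toLinAlgEquiv' A) := ⟨Matrix.toLinAlgEquiv' J1, Matrix.toLinAlgEquiv' J2,
      Matrix.toLinAlgEquiv' J3, by rw [← map_mul, h1, map_one], by rw [← map_mul, h2, map_one],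
      by rw [← map_mul, h3, map_one], by rw [← map_mul, ← map_mul, h4]⟩
    refine ⟨?_, fun l hl => ?_⟩
    · rw [← hdet]; exact sq_eq_one_iff.1 hI.det_sq
    · rw [← hr, ← hr]; exact Sharp.liu_nec hI hl
  · rintro ⟨hd, hL⟩
    obtain ⟨J1, J2, J3, k1, k2, k3, k4⟩ := Sharp.liu_suff (Matrix.toLinAlgEquiv' A)
      (by rw [hdet]; rcases hd with h | h <;> simp [h]) e (by rw [hdet, hn]; exact he)
      (by simp only [hr, hr2, hn]; exact h) (by simp only [hr]; exact hL)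
    refine ⟨Matrix.toLinAlgEquiv'.symm J1, Matrix.toLinAlgEquiv'.symm J2,
      Matrix.toLinAlgEquiv'.symm J3, by rw [← map_mul, k1, map_one],
      by rw [← map_mul, k2, map_one], by rw [← map_mul, k3, map_one], ?_⟩
    rw [← map_mul, ← map_mul, k4, AlgEquiv.symm_apply_apply]

end Pool.Agent.Lib.MP_530e0f_al.LiuConverse
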