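import Pool.Agent.Lib.MP_530e0f_al.Back

/-! The main induction. -/

namespace Pool.Agent.Lib.MP_530e0f_al

open Module Submodule
open LinearMap hiding sub_apply smul_apply add_apply zero_apply neg_apply

universe u

variable {F : Type u} [Field F]
variable {V U : Type u} [AddCommGroup V] [Module F V] [AddCommGroup U] [Module F U]

open Classical in
/-- the measure maximised -/
noncomputable def ms (N : End F V) : ℕ := 2 * rk N + if N * N = 0 then 0 else 1

/-- maximal factorisations -/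
def MaxAt (c : F) (a : U →ₗ[F] V) (b : V →ₗ[F] U) : Prop :=
  I3 (c • 1 + a ∘ₗ b) ∧ ∀ (a' : U →ₗ[F] V) (b' : V →ₗ[F] U), b' ∘ₗ a' = b ∘ₗ a →
    I3 (c • 1 + a' ∘ₗ b') → ms (a' ∘ₗ b') ≤ ms (a ∘ₗ b)

theorem dualMap_inj {W : Type u} [AddCommGroup W] [Module F W] {f g : V →ₗ[F] W}
    (h : f.dualMap = g.dualMap) : f = g := by
  ext x
  by_contra hne
  obtain ⟨φ, hφ⟩ := exists_fun_ne (F := F) (sub_ne_zero.2 hne)
  have : φ (f x) = φ (g x) := congr($h φ x)
  rw [map_sub, this, sub_self] at hφ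
  exact zero_ne_one hφ

theorem dual_mul (f g : End F V) : (f * g).dualMap = (g.dualMap : End F _) * f.dualMap := rfl

theorem dual_sc (c : F) (N : End F V) :
    (c • 1 + N : End F V).dualMap = c • (1 : End F (Dual F V)) + N.dualMap := by
  ext φ x; simp

theorem dual_sh (A : End F V) (c : F) : (sh A c).dualMap = sh A.dualMap c := by
  ext φ x; simp

theorem I3.dual {A : End F V} (h : I3 A) : I3 (V := Dual F V) A.dualMap := by
  obtain ⟨J1, J2, J3, h1, h2, h3, rfl⟩ := h
  refine ⟨J3.dualMap, J2.dualMap, J1.dualMap, ?_, ?_, ?_, rfl⟩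
  · rw [← dual_mul, h3]; rfl
  · rw [← dual_mul, h2]; rfl
  · rw [← dual_mul, h1]; rfl

theorem rk_dual {W : Type u} [AddCommGroup W] [Module F W] (f : V →ₗ[F] W) :
    rk f.dualMap = rk f := LinearMap.finrank_range_dualMap_eq_finrank_range f

theorem ms_dual (N : End F V) : ms (V := Dual F V) N.dualMap = ms N := by
  unfold ms
  rw [rk_dual, ← dual_mul]
  congr 2
  apply propext
  constructor
  · intro h; exact dualMap_inj (h.trans (by ext; simp))
  · intro h; rw [h]; ext; simp

variable [FiniteDimensional F V] [FiniteDimensional F U]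

theorem exists_dualMap (g : Dual F U →ₗ[F] Dual F V) : ∃ f : V →ₗ[F] U, f.dualMap = g := by
  refine ⟨((evalEquiv F U).symm : _ →ₗ[F] U) ∘ₗ g.dualMap ∘ₗ (evalEquiv F V : V →ₗ[F] _), ?_⟩
  ext φ x
  simp

theorem I3.of_dual {A : End F V} (h : I3 (V := Dual F V) A.dualMap) : I3 A :=
  h.dual.conj (evalEquiv F V).symm (fun x => by
    obtain ⟨x, rfl⟩ := (evalEquiv F V).surjective x
    rw [LinearEquiv.symm_apply_eq, LinearEquiv.symm_apply_apply]
    ext φ; simp)

theorem MaxAt.dual {c : F} {a : U →ₗ[F] V} {b : V →ₗ[F] U} (h : MaxAt c a b) :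
    MaxAt c b.dualMap a.dualMap := by
  refine ⟨by rw [dualMap_comp_dualMap, ← dual_sc]; exact h.1.dual, fun a' b' e hI => ?_⟩
  obtain ⟨β, rfl⟩ := exists_dualMap a'
  obtain ⟨α, rfl⟩ := exists_dualMap b'
  rw [dualMap_comp_dualMap, dualMap_comp_dualMap] at e
  rw [dualMap_comp_dualMap, ← dual_sc] at hI
  rw [dualMap_comp_dualMap, dualMap_comp_dualMap, ms_dual, ms_dual]
  exact h.2 α β (dualMap_inj e) hI.of_dual

theorem exists_max {c : F} (a : U →ₗ[F] V) (b : V →ₗ[F] U) (h : I3 (c • 1 + a ∘ₗ b)) :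
    ∃ (a' : U →ₗ[F] V) (b' : V →ₗ[F] U), b' ∘ₗ a' = b ∘ₗ a ∧ MaxAt c a' b' := by
  have hb : ∀ N : End F V, ms N ≤ 2 * finrank F V + 1 := fun N => by
    have := rk_le_dom N
    unfold ms; split_ifs <;> omega
  induction hk : 2 * finrank F V + 1 - ms (a ∘ₗ b) using Nat.strong_induction_on
    generalizing a b with
  | _ k ih =>
  by_cases hm : MaxAt c a b
  · exact ⟨a, b, rfl, hm⟩
  simp only [MaxAt, h, true_and, not_forall, not_le] at hm
  obtain ⟨a', b', e, hI, hlt⟩ := hm
  have := hb (a' ∘ₗ b')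
  obtain ⟨a'', b'', e', hm'⟩ := ih _ (by omega) a' b' hI rfl
  exact ⟨a'', b'', e'.trans e, hm'⟩

theorem ms_lt_of_rk {N N' : End F V} (h : rk N < rk N') : ms N < ms N' := by
  unfold ms; split_ifs <;> omega

theorem not_dom_of_inj {A : End F V} {c : F} (h : ∀ x, A x = c • x → x = 0) : ¬ Dom A c := by
  unfold Dom
  rw [rk_inj _ (ker_eq_bot.1 (eq_bot_iff.2 fun x hx => h x (mem_ker_sh.1 hx)))]
  omega

theorem no_other_sq {c d : F} {N : End F V} (h : ∀ x, N (N x) = d • N x) {μ : F} (h1 : μ ≠ c)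
    (h2 : μ ≠ c + d) : ¬ Dom (c • 1 + N) μ := by
  apply not_dom_of_inj
  intro x hx
  have e : N x = (μ - c) • x := by
    have : c • x + N x = μ • x := hx
    rw [sub_smul, ← this]; abel
  have := h x
  rw [e, map_smul, e, smul_smul, smul_smul, ← sub_eq_zero, ← sub_smul, smul_eq_zero] at this
  refine this.resolve_left fun h => ?_
  have : (μ - c) * (μ - (c + d)) = 0 := by linear_combination h
  rcases mul_eq_zero.1 this with h | h
  · exact h1 (sub_eq_zero.1 h)
  · exact h2 (sub_eq_zero.1 h)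

section Cases

variable (ih : ∀ m ≤ finrank F V, MStat F m) {c : F} (h0 : c ≠ 0) (h4 : c ^ 4 ≠ 1)
  {a : U →ₗ[F] V} {b : V →ₗ[F] U} (hm : MaxAt c a b) (hlt : finrank F V < 2 * finrank F U)
  (hP : ∀ p : F, b ∘ₗ a ≠ p • 1)

include ih h0 hm in
theorem av (hno : ∀ μ : F, μ ≠ c → μ ^ 4 ≠ 1 → ¬ Dom (c • 1 + a ∘ₗ b) μ) (y : V) (h1 : b y = 0)
    (h2 : y ∉ range (a ∘ₗ b)) : finrank F U ≤ rk (a ∘ₗ b) ∨
    (ker (a ∘ₗ b) ≤ range (a ∘ₗ b) ⊔ F ∙ y ∧ ((a ∘ₗ b) * (a ∘ₗ b) = 0 → b ∘ₗ a = 0)) := by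
  rcases avail a b y h1 h2 with ⟨a', b', e, hu⟩ | h
  · have := hm.2 a' b' e (up (ih _ le_rfl) h0 hm.1 hu hno)
    have := ms_lt_of_rk hu.rk_lt
    omega
  · exact h

include ih h0 hm hlt hP in
theorem dom_case (hD : Dom (c • 1 + a ∘ₗ b) c) : ker b ≤ range (a ∘ₗ b) := by
  intro y hy
  by_contra h2
  have hK := rk_add_ker (a ∘ₗ b)
  have hD' := hD
  unfold Dom at hD'
  rw [sh_add_self] at hD'
  rcases av ih h0 hm (fun μ hμ _ hd => by
    have := Submodule.finrank_mono (ker_le_range_sh (c • 1 + a ∘ₗ b) hμ.symm)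
    rw [sh_add_self] at this
    unfold Dom rk at *
    omega) y hy h2 with h | ⟨k1, k2⟩
  · omega
  · have a1 := finrank_sup_span h2
    have a2 : ker (a ∘ₗ b) = range (a ∘ₗ b) ⊔ F ∙ y :=
      Submodule.eq_of_le_of_finrank_le k1 (by unfold rk at *; omega)
    apply hP 0
    rw [zero_smul]
    apply k2
    ext x
    exact (a2 ▸ mem_sup_left ⟨x, rfl⟩ : (a ∘ₗ b) x ∈ ker (a ∘ₗ b))

omit [FiniteDimensional F V] [FiniteDimensional F U] in
theorem scalar_of_exact (ha : Function.Injective a) (hb : Function.Surjective b) {d : F}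
    (h : ∀ x, a (b (a (b x))) = d • a (b x)) : b ∘ₗ a = d • 1 := by
  ext y
  obtain ⟨x, rfl⟩ := hb y
  apply ha
  simp [h]

include ih h0 hm hP in
theorem gamma1 (hN : ∀ x, a (b (a (b x))) = 0) : ker b ≤ range (a ∘ₗ b) := by
  intro y hy
  by_contra h2
  rcases av ih h0 hm (fun μ hμ _ => no_other_sq (d := 0) (by simpa using hN) hμ (by simpa using hμ))
    y hy h2 with h | ⟨k1, k2⟩
  · obtain ⟨ha, hb⟩ := exact_of_rk a b h
    exact hP 0 (scalar_of_exact ha hb (by simpa using hN))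
  · apply hP 0
    rw [zero_smul]
    exact k2 (LinearMap.ext hN)

include ih h0 hm hP in
theorem beta_case {d : F} (hd : d ≠ 0) (hN : ∀ x, a (b (a (b x))) = d • a (b x))
    (hz : ¬ ((c + d) ^ 4 ≠ 1 ∧ Dom (c • 1 + a ∘ₗ b) (c + d) ∧
      4 * rk (sh (c • 1 + a ∘ₗ b) (c + d)) = finrank F V)) :
    ker b = ⊥ ∨ finrank F (ker (a ∘ₗ b)) ≤ 1 := by
  by_cases hb : ker b = ⊥
  · exact Or.inl hb
  obtain ⟨y, hy, hy0⟩ := Submodule.exists_mem_ne_zero_of_ne_bot hb
  have hy' : b y = 0 := hy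
  have kr : ∀ x ∈ range (a ∘ₗ b), a (b x) = 0 → x = 0 := by
    rintro _ ⟨x, rfl⟩ h
    have := hN x
    rw [comp_apply] at h
    rw [h] at this
    exact (smul_eq_zero.1 this.symm).resolve_left hd
  have h2 : y ∉ range (a ∘ₗ b) := fun h => hy0 (kr y h (by simp [hy']))
  rcases avail a b y hy h2 with ⟨a', b', e, hu⟩ | h | ⟨k1, -⟩
  · exfalso
    have hlt := ms_lt_of_rk hu.rk_lt
    suffices I3 (c • 1 + a' ∘ₗ b') by have := hm.2 a' b' e this; omega
    by_cases hk : (c + d) ^ 4 ≠ 1 ∧ Dom (c • 1 + a ∘ₗ b) (c + d)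
    · have hs : ∀ N : End F V, sh (c • 1 + N) (c + d) = sh N d := fun N => by
        rw [sh_add]; simp
      obtain ⟨y, φ, e', p1, p2, -, p3⟩ := hu
      refine (lm ih (B' := c • 1 + a' ∘ₗ b') hm.1 hk.1 hk.2 h0 ?_ ?_ ?_ ?_).resolve_right
        (fun h => hz ⟨hk.1, hk.2, h.1⟩)
      · intro x
        simp [hs, hN]
      · rw [hs, hs, rk_flanders a a' b b' e hd]
      · rw [hs, sh_add_self, e']
        rcases p3 with p3 | p3
        · convert rk_smulRight_le (φ ∘ₗ sh (a ∘ₗ b) d) y using 2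
          ext x
          simp only [comp_apply] at p3
          simp [hN, p1, p3]
        · convert rk_smulRight_le φ (a (b y) - d • y) using 2
          ext x
          simp only [comp_apply] at p3
          simp only [End.mul_apply, sh_apply, LinearMap.add_apply, comp_apply, smulRight_apply,
            map_sub, map_add, map_smul, hN, p1, p3, smul_eq_mul]
          module
      · rw [hs, sh_add_self, e']
        ext x
        simp only [comp_apply] at p3
        rcases p3 with p3 | p3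
        · simp only [End.mul_apply, sh_apply, LinearMap.add_apply, comp_apply, smulRight_apply,
            map_sub, map_add, map_smul, hN, p1, p3, smul_eq_mul, LinearMap.zero_apply, map_zero]
          module
        · simp only [End.mul_apply, sh_apply, LinearMap.add_apply, comp_apply, smulRight_apply,
            map_sub, map_add, map_smul, hN, p1, p3, smul_eq_mul, LinearMap.zero_apply, map_zero]
          module
    · refine up (ih _ le_rfl) h0 hm.1 hu (fun μ hμ hμ4 => ?_)
      by_cases e : μ = c + d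
      · subst e; exact fun h => hk ⟨hμ4, h⟩
      · exact no_other_sq (d := d) hN hμ e
  · obtain ⟨ha, hb⟩ := exact_of_rk a b h
    exact absurd (scalar_of_exact ha hb hN) (hP d)
  · right
    rw [← finrank_span_singleton (K := F) hy0]
    apply Submodule.finrank_mono
    intro x hx
    obtain ⟨z, hz, w, hw, rfl⟩ := mem_sup.1 (k1 hx)
    obtain ⟨t, rfl⟩ := mem_span_singleton.1 hw
    have : a (b (z + t • y)) = 0 := hx
    rw [kr z hz (by simpa [hy'] using this), zero_add]
    exact hw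

include ih h0 h4 hm in
theorem gamma_flip (hN : ∀ x, a (b (a (b x))) = 0) (hk : ker b ≤ range (a ∘ₗ b)) (u : U)
    (hu : a (b (a u)) ≠ 0) : finrank F (ker b) ≤ 1 := by
  by_contra hc
  obtain ⟨y, hy, hy2⟩ : ∃ y ∈ ker b, y ∉ F ∙ a (b (a u)) := by
    by_contra h; push Not at h
    have := Submodule.finrank_mono (show ker b ≤ F ∙ a (b (a u)) from h)
    rw [finrank_span_singleton hu] at this
    exact hc this
  obtain ⟨a', b', e1, e2, e3, e4, e5⟩ := flip a b hN y hy (hk hy) u hu
    (fun t ht => hy2 (ht ▸ smul_mem _ _ (mem_span_singleton_self _)))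
  have hI : I3 (c • 1 + a' ∘ₗ b') := by
    by_cases hD : Dom (c • 1 + a ∘ₗ b) c
    · refine (lm ih (B' := c • 1 + a' ∘ₗ b') hm.1 h4 hD h0 ?_ ?_ ?_ ?_).resolve_right
        (fun h => h4 (by rw [← h.2]; ring))
      · intro x; simp [hN]
      · simpa using e2
      · simpa using e4
      · simpa using e5
    · refine base_transfer h0 a a' b b' e1 hm.1 (fun μ hμ _ =>
        no_other_sq (d := 0) (by simpa using hN) hμ (by simpa using hμ)) (fun _ => ?_)
      unfold Dom at *
      rwa [sh_add_self, e2, ← sh_add_self (a ∘ₗ b) c]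
  have := hm.2 a' b' e1 hI
  unfold ms at this
  rw [if_neg e3, if_pos (LinearMap.ext hN)] at this
  omega

include ih h0 hm hP in
theorem gamma_rematch (h1 : ∀ u, a (b (a u)) = 0) (h2 : ∀ x, b (a (b x)) = 0) (x : V) :
    a (b x) = 0 := by
  by_contra hx
  obtain ⟨u1, hu1⟩ : ∃ u, b (a u) ≠ 0 := by
    by_contra h; push Not at h; exact hP 0 (by rw [zero_smul]; exact LinearMap.ext h)
  obtain ⟨a', b', e1, e2, y, k1, k2⟩ := rematch a b h1 h2 u1 hu1 x hx
  have hm' : MaxAt c a' b' := by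
    unfold MaxAt at *
    rw [e1, e2]; exact hm
  have := gamma1 ih h0 hm' (by rw [e2]; exact hP) (fun x => by
    have : ∀ x, a' (b' x) = a (b x) := fun x => congr($e1 x)
    rw [this, this]; exact h1 _) k1
  rw [e1] at this
  exact k2 this

include ih h0 h4 hm hlt hP in
theorem exit_max : ∃ M : Mod F U, M.Ok c (c • 1 + b ∘ₗ a) ∧ M.dim = finrank F V ∧ M.Sm := by
  have hm' := hm.dual
  have ih' : ∀ m ≤ finrank F (Dual F V), MStat F m := by rw [Subspace.dual_finrank_eq]; exact ih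
  have hlt' : finrank F (Dual F V) < 2 * finrank F (Dual F U) := by
    rw [Subspace.dual_finrank_eq, Subspace.dual_finrank_eq]; exact hlt
  have hP' : ∀ p : F, a.dualMap ∘ₗ b.dualMap ≠ p • 1 := fun p h =>
    hP p (dualMap_inj (h.trans (by ext; simp)))
  have hdom : ∀ μ, rk (sh (c • 1 + b.dualMap ∘ₗ a.dualMap) μ) = rk (sh (c • 1 + a ∘ₗ b) μ) :=
    fun μ => by rw [dualMap_comp_dualMap, ← dual_sc, ← dual_sh, rk_dual]
  have tr1 : ker a.dualMap ≤ range (b.dualMap ∘ₗ a.dualMap) → ker (a ∘ₗ b) ≤ range a := by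
    intro h
    rwa [dualMap_comp_dualMap, ker_dualMap_eq_dualAnnihilator_range,
      range_dualMap_eq_dualAnnihilator_ker, Subspace.dualAnnihilator_le_dualAnnihilator_iff] at h
  have tr2 : finrank F (ker a.dualMap) + rk a = finrank F V := by
    have := rk_add_ker a.dualMap
    rw [rk_dual, Subspace.dual_finrank_eq] at this
    omega
  have tr3 : finrank F (ker (b.dualMap ∘ₗ a.dualMap)) = finrank F (ker (a ∘ₗ b)) := by
    have := rk_add_ker (b.dualMap ∘ₗ a.dualMap)
    rw [dualMap_comp_dualMap, rk_dual, Subspace.dual_finrank_eq] at this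
    have := rk_add_ker (a ∘ₗ b)
    rw [dualMap_comp_dualMap]
    omega
  by_cases hG : GSol (c • 1 + a ∘ₗ b)
  · refine from_g h4 a b hG fun hD => ⟨dom_case ih h0 hm hlt hP hD,
      tr1 (dom_case ih' h0 hm' hlt' hP' ?_)⟩
    unfold Dom at *
    rwa [hdom, Subspace.dual_finrank_eq]
  have hq : InQ (c • 1 + a ∘ₗ b) := by
    by_contra hq; exact hG (gsol_of_i3 (ih _ le_rfl) hm.1 hq)
  have r1 := rk_add_ker (a ∘ₗ b)
  have r2 : finrank F (ker b) ≤ finrank F (ker (a ∘ₗ b)) :=
    Submodule.finrank_mono (ker_le_ker_comp _ _)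
  have r3 := rk_comp_le_left a b
  by_cases hk : ker (a ∘ₗ b) = ⊥
  · rw [hk, finrank_bot] at r1 r2
    exact from_small h4 a b hm.1 (by omega) (by omega)
  obtain ⟨d, hN⟩ : ∃ d : F, ∀ x, a (b (a (b x))) = d • a (b x) := by
    obtain ⟨p, q, h⟩ := hq
    obtain ⟨y, hy, hy0⟩ := Submodule.exists_mem_ne_zero_of_ne_bot hk
    have hy' : a (b y) = 0 := hy
    have e1 := congr($h y)
    simp only [End.mul_apply, LinearMap.add_apply, LinearMap.smul_apply, End.one_apply, comp_apply,
      hy', add_zero, map_smul, smul_smul, ← add_smul, smul_zero] at e1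
    have e2 := smul_left_injective F hy0 e1
    refine ⟨q - 2 * c, fun x => ?_⟩
    have e3 := congr($h x)
    simp only [End.mul_apply, LinearMap.add_apply, LinearMap.smul_apply, End.one_apply, comp_apply,
      map_smul, map_add] at e3
    linear_combination (norm := module) e3 - e2 • x
  have hN' : ∀ φ, b.dualMap (a.dualMap (b.dualMap (a.dualMap φ))) =
      d • b.dualMap (a.dualMap φ) := fun φ => by ext x; simp [hN]
  by_cases hd : d = 0
  swap
  · have hz : ¬ ((c + d) ^ 4 ≠ 1 ∧ Dom (c • 1 + a ∘ₗ b) (c + d) ∧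
        4 * rk (sh (c • 1 + a ∘ₗ b) (c + d)) = finrank F V) :=
      fun h => hG (gsol_of_zero h.1 hm.1 h.2.1 h.2.2)
    have b1 := beta_case ih h0 hm hP hd hN hz
    have b2 := beta_case ih' h0 hm' hP' hd hN' (by
      unfold Dom at *
      rwa [hdom, Subspace.dual_finrank_eq])
    rw [tr3] at b2
    refine from_small h4 a b hm.1 ?_ ?_
    · rcases b1 with h | h
      · rw [h, finrank_bot]; omega
      · omega
    · rcases b2 with h | h
      · rw [h, finrank_bot] at tr2; omega
      · omega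
  subst hd
  simp only [zero_smul] at hN hN'
  have g1 := gamma1 ih h0 hm hP hN
  have g2' := gamma1 ih' h0 hm' hP' hN'
  have g2 := tr1 g2'
  have f1 := gamma_flip ih h0 h4 hm hN g1
  have f2 := gamma_flip ih' h0 h4 hm' hN' g2'
  have s1 := Submodule.finrank_mono g1
  have s2 := Submodule.finrank_mono g2
  unfold rk at r1 r3 tr2
  have f2' : (∃ x, b (a (b x)) ≠ 0) → finrank F V ≤ rk a + 1 := by
    rintro ⟨x, hx⟩
    obtain ⟨φ, hφ⟩ := exists_fun_ne (F := F) hx
    have := f2 φ (fun h => by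
      have : φ (b (a (b x))) = 0 := congr($h x)
      rw [hφ] at this; exact one_ne_zero this)
    unfold rk; omega
  by_cases c1 : ∃ u, a (b (a u)) ≠ 0
  · obtain ⟨u, hu⟩ := c1
    have t1 := f1 u hu
    by_cases c2 : ∃ x, b (a (b x)) ≠ 0
    · exact from_small h4 a b hm.1 t1 (f2' c2)
    · push Not at c2
      have : finrank F (range (a ∘ₗ b)) ≤ finrank F (ker b) :=
        Submodule.finrank_mono (by rintro _ ⟨x, rfl⟩; exact c2 x)
      exact from_small h4 a b hm.1 t1 (by unfold rk; omega)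
  · push Not at c1
    have t2 : finrank F (range a) ≤ finrank F (ker (a ∘ₗ b)) :=
      Submodule.finrank_mono (by rintro _ ⟨x, rfl⟩; exact c1 x)
    by_cases c2 : ∃ x, b (a (b x)) ≠ 0
    · have := f2' c2
      exact from_small h4 a b hm.1 (by unfold rk at this; omega) this
    · push Not at c2
      have : range (a ∘ₗ b) = ⊥ := by
        rw [eq_bot_iff]; rintro _ ⟨x, rfl⟩; exact gamma_rematch ih h0 hm hP c1 c2 x
      rw [this, finrank_bot] at r1 s1
      exact from_small h4 a b hm.1 (by omega) (by unfold rk; omega)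

end Cases

theorem mstat (n : ℕ) : MStat F n := by
  induction n using Nat.strong_induction_on with
  | _ n ih =>
  intro V U _ _ _ _ _ _ hn l a b h0 h4 ha hb hlt hC
  by_cases hs : ∃ p : F, b ∘ₗ a = p • 1
  · obtain ⟨p, hp⟩ := hs
    have e : l • (1 : End F U) + b ∘ₗ a = (l + p) • 1 := by rw [hp, add_smul]
    have hx : Clx l (l • 1 + b ∘ₗ a) n := by
      rw [e] at hC ⊢
      by_cases h : p = 0
      · rw [h, add_zero] at hC ⊢
        obtain ⟨k, rfl⟩ := Nat.exists_eq_add_of_lt hlt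
        exact (qm h0 h4 (k := k + 1) (by omega) (P2.of_cl hC rfl)).clx rfl
      · exact hC.clx_of_ne (by simpa using h)
    refine ⟨i3_of_clx ha hb (hn ▸ hx), fun h => absurd (inQ_of_red _ (c := l) (ξ := l + p) ?_) h⟩
    intro x
    have : b (a (b x)) = p • b x := congr($hp (b x))
    simp [this, add_smul]
  push Not at hs
  obtain ⟨n', e, M, o, d⟩ := hC.mutate h0 h4
  obtain ⟨a', b', e', hm⟩ := exists_max M.a M.b o.i3
  obtain ⟨M', o', d', s'⟩ := exit_max (fun m hm => ih m (by unfold Mod.dim at d; omega))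
    (inv_ne_zero h0) (inv_pow_four h4) hm (by unfold Mod.dim at d; omega) (by
      intro p hp
      apply hs ((l ^ 2)⁻¹ * (l⁻¹ + p) - l)
      have := o.red
      rw [← e', hp, ← add_smul] at this
      rw [sub_smul, mul_smul, ← this, smul_smul, inv_mul_cancel₀ (pow_ne_zero 2 h0), one_smul]
      abel)
  rw [e', ← o.red] at o'
  have := back h0 h4 a b ha hb (by omega) M' o' (by unfold Mod.dim at *; omega) s'
  exact ⟨this.i3, fun _ => this⟩

end Pool.Agent.Lib.MP_530e0f_al
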