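import Pool.Agent.Lib.MP_530e0f_al.Basic

/-! Reversible operators. -/

namespace Pool.Agent.Lib.MP_530e0f_al

open Module Submodule Polynomial
open LinearMap hiding sub_apply smul_apply add_apply zero_apply neg_apply

universe u

variable {F : Type u} [Field F]

theorem rv_quot (f : F[X]) (s : F[X] ⧸ Ideal.span {f})
    (h1 : Ideal.Quotient.mk _ X * s = 1) (h2 : aeval s f = 0) :
    ∃ σ : (F[X] ⧸ Ideal.span {f}) →ₗ[F] (F[X] ⧸ Ideal.span {f}), (∀ x, σ (σ x) = x) ∧
      ∀ x, (X : F[X]) • σ ((X : F[X]) • σ x) = x := by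
  let σ : (F[X] ⧸ Ideal.span {f}) →ₐ[F] (F[X] ⧸ Ideal.span {f}) :=
    Ideal.Quotient.liftₐ _ (aeval s) (by
      intro a ha
      obtain ⟨c, rfl⟩ := Ideal.mem_span_singleton'.1 ha
      simp [h2])
  have e1 : σ (Ideal.Quotient.mk _ X) = s := by
    change aeval s (X : F[X]) = s
    simp
  have e2 : σ s = Ideal.Quotient.mk _ X := by
    have := congrArg σ h1
    rw [map_mul, e1, map_one] at this
    calc σ s = (Ideal.Quotient.mk _ X * s) * σ s := by rw [h1, one_mul]
      _ = _ := by rw [mul_assoc, this, mul_one]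
  have e3 : σ.comp σ = AlgHom.id _ _ := by
    apply Ideal.Quotient.algHom_ext
    apply Polynomial.algHom_ext
    simp only [AlgHom.comp_apply, Ideal.Quotient.mkₐ_eq_mk, e1, e2, AlgHom.id_apply]
  have e4 : ∀ x, σ (σ x) = x := fun x => congr($e3 x)
  refine ⟨σ.toLinearMap, e4, fun x => ?_⟩
  change Ideal.Quotient.mk _ X * σ (Ideal.Quotient.mk _ X * σ x) = x
  rw [map_mul, e1, e4, ← mul_assoc, h1, one_mul]

theorem rv_prime_pow (p : F[X]) (hp : Irreducible p) (e N : ℕ) (h : p ^ e ∣ (X * X - 1) ^ N) :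
    ∃ σ : (F[X] ⧸ Ideal.span {p ^ e}) →ₗ[F] (F[X] ⧸ Ideal.span {p ^ e}), (∀ x, σ (σ x) = x) ∧
      ∀ x, (X : F[X]) • σ ((X : F[X]) • σ x) = x := by
  rcases Nat.eq_zero_or_pos e with rfl | he
  · have : Subsingleton (F[X] ⧸ Ideal.span {p ^ 0}) := by
      rw [Ideal.Quotient.subsingleton_iff]; simp
    exact ⟨0, fun _ => Subsingleton.elim _ _, fun _ => Subsingleton.elim _ _⟩
  have h1 : p ∣ X * X - 1 := hp.prime.dvd_of_dvd_pow ((dvd_pow_self p he.ne').trans h)
  obtain ⟨ε, hε, h2⟩ : ∃ ε : F, ε * ε = 1 ∧ p ∣ X - C ε := by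
    rw [show (X * X - 1 : F[X]) = (X - C 1) * (X - C (-1)) by simp; ring] at h1
    rcases hp.prime.dvd_or_dvd h1 with h | h
    · exact ⟨1, by simp, h⟩
    · exact ⟨-1, by simp, h⟩
  have h3 : Associated p (X - C ε) := hp.associated_of_dvd (irreducible_X_sub_C ε) h2
  set t : F[X] ⧸ Ideal.span {p ^ e} := Ideal.Quotient.mk _ X
  set ε' : F[X] ⧸ Ideal.span {p ^ e} := algebraMap F _ ε
  have hε' : ε' * ε' = 1 := by rw [← map_mul, hε, map_one]
  have h4 : (t - ε') ^ e = 0 := by
    have : Ideal.Quotient.mk (Ideal.span {p ^ e}) ((X - C ε) ^ e) = 0 := by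
      rw [Ideal.Quotient.eq_zero_iff_mem, Ideal.mem_span_singleton]
      exact pow_dvd_pow_of_dvd h2 e
    rw [map_pow, map_sub] at this
    exact this
  have h5 : IsUnit t := by
    have := IsNilpotent.isUnit_add_left_of_commute ⟨e, h4⟩ (IsUnit.of_mul_eq_one _ hε')
      (Commute.all _ _)
    simpa using this
  obtain ⟨s, hs⟩ := h5.exists_right_inv
  refine rv_quot _ s hs ?_
  obtain ⟨c, hc⟩ := pow_dvd_pow_of_dvd h3.symm.dvd e
  have h6 : aeval s ((X - C ε) ^ e) = 0 := by
    rw [map_pow, map_sub, aeval_X, aeval_C]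
    have : s - ε' = (-ε' * s) * (t - ε') := by
      linear_combination ε' * hs - s * hε'
    change (s - ε') ^ e = 0
    rw [this, mul_pow, h4, mul_zero]
  have h7 := congrArg (aeval s) hc
  rw [map_mul, h6, zero_mul] at h7
  exact h7

theorem rev_of_nil2 {V : Type u} [AddCommGroup V] [Module F V] [FiniteDimensional F V]
    {M : End F V} (h : Nil2 M) : ∃ J1 J2 : End F V, J1 * J1 = 1 ∧ J2 * J2 = 1 ∧ J1 * J2 = M := by
  classical
  obtain ⟨N, hN⟩ := h
  obtain ⟨ι, _, p, hp, e, ⟨Φ⟩⟩ := Module.equiv_directSum_of_isTorsion (R := F[X])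
    (M := AEval' M) (AEval.isTorsion_of_finiteDimensional F V M)
  have kill : ∀ x : AEval' M, ((X * X - 1 : F[X]) ^ N) • x = 0 := by
    intro x
    obtain ⟨x, rfl⟩ := (AEval'.of M).surjective x
    have := AEval.of_aeval_smul M ((X * X - 1 : F[X]) ^ N) x
    rw [← this]
    simp [hN]
  have hd : ∀ i, p i ^ e i ∣ (X * X - 1) ^ N := by
    intro i
    have h1 := congrArg Φ (kill (Φ.symm (DirectSum.lof F[X] ι _ i (Submodule.Quotient.mk 1))))
    rw [map_smul, map_zero, LinearEquiv.apply_symm_apply, ← map_smul] at h1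
    have h2 := congrArg (DirectSum.component F[X] ι _ i) h1
    rw [DirectSum.component.lof_self, map_zero, ← Submodule.Quotient.mk_smul,
      Submodule.Quotient.mk_eq_zero, smul_eq_mul, mul_one] at h2
    exact Ideal.mem_span_singleton.1 h2
  choose σ h1 h2 using fun i => rv_prime_pow (p i) (hp i) (e i) N (hd i)
  let S : (DirectSum ι fun i => F[X] ⧸ F[X] ∙ p i ^ e i) →ₗ[F]
      (DirectSum ι fun i => F[X] ⧸ F[X] ∙ p i ^ e i) := DirectSum.lmap σ
  have S1 : ∀ x, S (S x) = x := by
    intro x; ext i; simp [S, h1]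
  have S2 : ∀ x, (X : F[X]) • S ((X : F[X]) • S x) = x := by
    intro x; ext i
    exact h2 i (x i)
  let Ψ : V ≃ₗ[F] (DirectSum ι fun i => F[X] ⧸ F[X] ∙ p i ^ e i) :=
    (AEval'.of M).trans (Φ.restrictScalars F)
  have hΨ : ∀ x, Ψ (M x) = (X : F[X]) • Ψ x := by
    intro x
    simp [Ψ, ← AEval'.X_smul_of]
  let J : End F V := (Ψ.symm : _ →ₗ[F] V) ∘ₗ S ∘ₗ (Ψ : V →ₗ[F] _)
  have hJ : ∀ x, Ψ (J x) = S (Ψ x) := fun x => by simp [J]
  have JJ : J * J = 1 := by
    ext x; apply Ψ.injective; simp [hJ, S1]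
  refine ⟨M * J, J, ?_, JJ, by rw [mul_assoc, JJ, mul_one]⟩
  ext x; apply Ψ.injective; simp [hJ, hΨ, S2]

/-- the block companion operator -/
def bc {W : Type*} [AddCommGroup W] [Module F W] (P R : End F W) : End F (W × W) :=
  ((-P) ∘ₗ LinearMap.snd F W W).prod (LinearMap.fst F W W + R ∘ₗ LinearMap.snd F W W)

@[simp] theorem bc_apply {W : Type*} [AddCommGroup W] [Module F W] (P R : End F W) (x : W × W) :
    bc P R x = (-P x.2, x.1 + R x.2) := rfl

theorem q1_aux {W : Type u} [AddCommGroup W] [Module F W] [FiniteDimensional F W] (p : F)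
    (hp : p ^ (2 * finrank F W) = 1) :
    ∃ (R : End F W) (J1 J2 : End F (W × W)), J1 * J1 = 1 ∧ J2 * J2 = 1 ∧
      J1 * J2 = bc (p • 1) R := by
  set m := finrank F W with hm
  rcases Nat.eq_zero_or_pos m with h0 | h0
  · have : Subsingleton W := Module.finrank_zero_iff.1 h0
    exact ⟨0, 1, 1, by simp, by simp, Subsingleton.elim _ _⟩
  set c : F := -p ^ m
  have hc : c * c = 1 := by rw [← hp]; simp only [c]; ring
  let f : F[X] := X ^ (2 * m) - C c
  have hf : f.Monic := monic_X_pow_sub_C _ (by omega)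
  have hd : f.natDegree = 2 * m := natDegree_X_pow_sub_C
  let B := F[X] ⧸ Ideal.span {f}
  have fB : finrank F B = 2 * m := by
    rw [← hd]; exact (AdjoinRoot.powerBasis' hf).finrank
  haveI : FiniteDimensional F B := (AdjoinRoot.powerBasis' hf).finite
  let t : B := Ideal.Quotient.mk _ X
  have ht : t ^ (2 * m) = algebraMap F B c := by
    have : Ideal.Quotient.mk (Ideal.span {f}) f = 0 := by
      rw [Ideal.Quotient.eq_zero_iff_mem]; exact Ideal.mem_span_singleton_self _
    rw [map_sub, map_pow, sub_eq_zero] at this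
    exact this
  let c' : B := algebraMap F B c
  let p' : B := algebraMap F B p
  have hc' : c' * c' = 1 := by rw [← map_mul, hc, map_one]
  have hcp : c' = -p' ^ m := by simp [c', p', c]
  have sd : ∀ (a : F) (x : B), a • x = algebraMap F B a * x := fun a x => Algebra.smul_def a x
  let r : B := c' * t ^ (2 * m - 1)
  have hr : t * r = 1 := by
    rw [← hc']
    calc t * r = c' * t ^ (2 * m - 1 + 1) := by simp only [r]; ring
      _ = _ := by rw [show 2 * m - 1 + 1 = 2 * m by omega, ht]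
  have hr2 : r ^ (2 * m) = c' := by
    have : (t * r) ^ (2 * m) = 1 := by rw [hr, one_pow]
    rw [mul_pow, ht] at this
    linear_combination c' * this - r ^ (2 * m) * hc'
  obtain ⟨σ, s1, s2⟩ := rv_quot f r hr (by
    simp only [f, map_sub, map_pow, aeval_X, aeval_C]; rw [hr2]; exact sub_self _)
  let s : B := p' * r
  have hts : t * s = p' := by simp only [s]; linear_combination p' * hr
  let z : ℕ → B := fun k => t ^ k + s ^ k
  have zm : z m = 0 := by
    have h1 : t ^ m * (t ^ m + s ^ m) = 0 := by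
      rw [mul_add, ← pow_add, ← two_mul, ht, ← mul_pow, hts]
      change c' + _ = 0
      rw [hcp]; ring
    have h2 : (t * r) ^ m = 1 := by rw [hr, one_pow]
    simp only [z]
    linear_combination r ^ m * h1 - (t ^ m + s ^ m) * h2
  let g : Fin m → B := fun k => if k.1 = 0 then 1 else z k
  let W0 : Submodule F B := span F (Set.range g)
  have w1 : (1 : B) ∈ W0 := subset_span ⟨⟨0, h0⟩, by simp [g]⟩
  have wz : ∀ k ≤ m, z k ∈ W0 := by
    intro k hk
    rcases Nat.eq_zero_or_pos k with rfl | hk0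
    · simpa [z] using add_mem w1 w1
    rcases hk.eq_or_lt with rfl | hk
    · rw [zm]; exact zero_mem _
    · exact subset_span ⟨⟨k, hk⟩, by simp [g, hk0.ne']⟩
  have winv : ∀ x ∈ W0, (t + s) * x ∈ W0 := by
    intro x hx
    induction hx using span_induction with
    | mem x hx =>
      obtain ⟨⟨k, hk⟩, rfl⟩ := hx
      rcases k with _ | k
      · simpa [g, z] using wz 1 h0
      · have : (t + s) * z (k + 1) = z (k + 2) + p • z k := by
          rw [sd]
          change _ = _ + p' * _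
          simp only [z]; rw [← hts]; ring
        simp only [g, Nat.add_eq_zero_iff, one_ne_zero, and_false, if_false, this]
        exact add_mem (wz _ (by omega)) (smul_mem _ _ (wz _ (by omega)))
    | zero => simp
    | add x y _ _ hx hy => rw [mul_add]; exact add_mem hx hy
    | smul a x _ hx => rw [mul_smul_comm]; exact smul_mem _ _ hx
  have wle : finrank F W0 ≤ m := by
    have := finrank_range_le_card (R := F) g
    rw [Fintype.card_fin] at this
    exact this
  let η : End F W0 := (LinearMap.mulLeft F (t + s)).restrict winv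
  let Φ : W0 × W0 →ₗ[F] B := W0.subtype.coprod (LinearMap.mulLeft F t ∘ₗ W0.subtype)
  have hΦ : ∀ x, Φ (bc (p • 1) η x) = t * Φ x := by
    rintro ⟨x, y⟩
    change -(p • (y : B)) + t * (x + (t + s) * y) = t * (x + t * y)
    rw [sd]
    change -(p' * _) + _ = _
    rw [← hts]; ring
  have hs : Function.Surjective Φ := by
    have hp : ∀ k : ℕ, t ^ k ∈ range Φ := by
      intro k
      induction k with
      | zero => exact ⟨(⟨1, w1⟩, 0), by simp [Φ]⟩
      | succ k ih => obtain ⟨x, hx⟩ := ih; exact ⟨_, by rw [hΦ, hx, pow_succ']⟩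
    intro b
    obtain ⟨b, rfl⟩ := Ideal.Quotient.mk_surjective b
    change _ ∈ range Φ
    induction b using Polynomial.induction_on' with
    | add a b ha hb => rw [map_add]; exact add_mem ha hb
    | monomial k a =>
      have : Ideal.Quotient.mk (Ideal.span {f}) (monomial k a) = a • t ^ k := by
        rw [← C_mul_X_pow_eq_monomial, map_mul, map_pow, sd]; rfl
      rw [this]; exact smul_mem _ _ (hp k)
  have hge := LinearMap.finrank_le_finrank_of_surjective hs
  rw [Module.finrank_prod] at hge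
  have weq : finrank F W = finrank F W0 := by omega
  let θ : W ≃ₗ[F] W0 := LinearEquiv.ofFinrankEq _ _ weq
  let Φ' : (W0 × W0) ≃ₗ[F] B := LinearEquiv.ofBijective Φ
    ⟨(LinearMap.injective_iff_surjective_of_finrank_eq_finrank (by
      rw [Module.finrank_prod]; omega)).2 hs, hs⟩
  let Ψ : (W × W) ≃ₗ[F] B := (θ.prodCongr θ).trans Φ'
  let R : End F W := (θ.symm : W0 →ₗ[F] W) ∘ₗ η ∘ₗ (θ : W →ₗ[F] W0)
  have hΨ : ∀ x, Ψ (bc (p • 1) R x) = t * Ψ x := by
    rintro ⟨x, y⟩
    change Φ _ = t * Φ _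
    rw [← hΦ]
    simp [R]
  let J : End F (W × W) := (Ψ.symm : B →ₗ[F] _) ∘ₗ σ ∘ₗ (Ψ : _ →ₗ[F] B)
  have hJ : ∀ x, Ψ (J x) = σ (Ψ x) := fun x => Ψ.apply_symm_apply _
  have JJ : J * J = 1 := by
    apply LinearMap.ext; intro x; apply Ψ.injective
    rw [End.mul_apply, hJ, hJ, s1]; rfl
  refine ⟨R, bc (p • 1) R * J, J, ?_, JJ, by rw [mul_assoc, JJ, mul_one]⟩
  apply LinearMap.ext; intro x; apply Ψ.injective
  simp only [End.mul_apply, hJ, hΨ, End.one_apply]
  exact s2 _

/-- scalar block companion operators are products of three involutions -/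
theorem q1 {W : Type u} [AddCommGroup W] [Module F W] [FiniteDimensional F W] (p : F)
    (hp : p ^ (2 * finrank F W) = 1) (Q : End F W) : I3 (bc (p • 1) Q) := by
  obtain ⟨R, J1, J2, h1, h2, h3⟩ := q1_aux (W := W) (-p) (by rw [← hp, Even.neg_pow (by simp)])
  let J : End F (W × W) := (LinearMap.fst F W W + (R + Q) ∘ₗ LinearMap.snd F W W).prod (-LinearMap.snd F W W)
  have JJ : J * J = 1 := by
    apply LinearMap.ext; rintro ⟨x, y⟩; simp [J]; abel
  refine ⟨J1, J2, J, h1, h2, JJ, ?_⟩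
  rw [h3]
  apply LinearMap.ext; rintro ⟨x, y⟩; simp [J]; abel

end Pool.Agent.Lib.MP_530e0f_al
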