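import Pool.Agent.Lib.MP_530e0f_al.Weyr

/-! An explicit sufficient condition for products of three involutions. -/

namespace Pool.Agent.Lib.MP_530e0f_al.Sharp

universe u

open Module Submodule Pool.Agent.Lib.MP_530e0f_al
open LinearMap hiding sub_apply smul_apply add_apply zero_apply neg_apply

variable {F : Type u} [Field F]

section

variable {V U X : Type u} [AddCommGroup V] [Module F V] [AddCommGroup U] [Module F U]
  [AddCommGroup X] [Module F X] [FiniteDimensional F V] [FiniteDimensional F U]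
  [FiniteDimensional F X]

theorem rel {l : F} (h0 : l ≠ 0) (h4 : l ^ 4 ≠ 1) (a : U →ₗ[F] V) (b : V →ₗ[F] U)
    (ha : Function.Injective a) (hb : Function.Surjective b) (a' : U →ₗ[F] X) (b' : X →ₗ[F] U)
    (e : l ^ 2 • (l • (1 : End F U) + b ∘ₗ a) = l⁻¹ • 1 + b' ∘ₗ a') :
    (∀ k, wy (sh (l⁻¹ • 1 + a' ∘ₗ b') (l ^ 3)) k = wy (sh (l • 1 + a ∘ₗ b) l) (k + 1)) ∧
    (∀ μ : F, μ ≠ l → μ ≠ l⁻¹ ^ 3 →
      wy (sh (l⁻¹ • 1 + a' ∘ₗ b') (l ^ 2 * μ)) = wy (sh (l • 1 + a ∘ₗ b) μ)) ∧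
    wy (b' ∘ₗ a') = wy (sh (l • 1 + a ∘ₗ b) (l⁻¹ ^ 3)) := by
  have e1 : ∀ μ : F, sh (b' ∘ₗ a') (l ^ 2 * μ - l⁻¹) = l ^ 2 • sh (b ∘ₗ a) (μ - l) := by
    intro μ
    rw [← sh_add, ← e, ← sh_add]
    ext x; simp only [sh_apply, LinearMap.smul_apply, smul_sub, smul_smul]
  have n1 : ∀ μ : F, μ ≠ l⁻¹ ^ 3 → l ^ 2 * μ - l⁻¹ ≠ 0 := by
    intro μ hμ h
    apply hμ
    rw [sub_eq_zero] at h
    rw [← mul_right_inj' (pow_ne_zero 2 h0), h]; field_simp
  have n2 : l ≠ l⁻¹ ^ 3 := by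
    intro h; apply h4
    rw [pow_succ' l 3]; nth_rw 1 [h]; field_simp
  have e2 : ∀ μ : F, μ ≠ l⁻¹ ^ 3 →
      wy (sh (l⁻¹ • 1 + a' ∘ₗ b') (l ^ 2 * μ)) = wy (sh (b ∘ₗ a) (μ - l)) := by
    intro μ hμ
    rw [sh_add, wy_flanders _ _ (n1 μ hμ), e1, wy_smul _ (pow_ne_zero 2 h0)]
  refine ⟨fun k => ?_, fun μ h1 h2 => ?_, ?_⟩
  · rw [pow_succ l 2, e2 l n2, sh_add_self, wy_exact a b ha hb]
    simp [sh]
  · rw [e2 μ h2, sh_add, wy_flanders a b (sub_ne_zero.2 h1)]
  · rw [sh_add, wy_flanders a b (sub_ne_zero.2 n2.symm), ← wy_smul (sh _ _) (pow_ne_zero 2 h0), ← e1,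
      show l ^ 2 * l⁻¹ ^ 3 - l⁻¹ = 0 by field_simp; simp]
    simp [sh]

theorem ne_zero_of_dom {A : End F V} {l : F} (hd : LinearMap.det A ^ 2 = 1) (hD : Dom A l) :
    l ≠ 0 := by
  rintro rfl
  unfold Dom at hD
  rw [rk_inj _ (by simpa [sh] using inj_of_det hd)] at hD
  omega

/-- the reduced operator on the range of `A - l` -/
theorem red (A : End F V) {l : F} (h0 : l ≠ 0) (h4 : l ^ 4 ≠ 1) :
    ∃ R : End F (range (sh A l)),
      LinearMap.det A * l ^ rk (sh A l) = l ^ finrank F V * LinearMap.det R ∧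
      wy (l ^ 2 • R - l⁻¹ • 1) = wy (sh A (l⁻¹ ^ 3)) := by
  set R : End F (range (sh A l)) := l • 1 + (sh A l).rangeRestrict ∘ₗ (range (sh A l)).subtype
    with hR
  have rP := (rel h0 h4 _ _ (injective_subtype _) (surjective_rangeRestrict _) LinearMap.id
    (l ^ 2 • R - l⁻¹ • 1) (by rw [← hR]; simp)).2.2
  rw [← sh_factor, comp_id] at rP
  have d1 := det_sylv (range (sh A l)).subtype (sh A l).rangeRestrict l h0
  rw [← sh_factor, ← hR] at d1
  exact ⟨R, d1, rP⟩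

/-- one step of the reduction -/
theorem step (A : End F V) {l : F} (h4 : l ^ 4 ≠ 1) (hd : LinearMap.det A ^ 2 = 1)
    (hdom : finrank F V < 2 * wy (sh A l) 0) (n' : ℕ)
    (hn' : n' + 4 * wy (sh A l) 0 = 3 * finrank F V) (c : ℕ → ℕ) (hanti : ∀ k, c (k + 1) ≤ c k)
    (hint : ∀ k, c (k + 1) ≤ wy (sh A (l⁻¹ ^ 3)) k ∧ wy (sh A (l⁻¹ ^ 3)) (k + 1) ≤ c k)
    (hsum : ∑ k ∈ Finset.range (finrank F V), c k + finrank F V =
      n' + wy (sh A l) 0 + ∑ k ∈ Finset.range (finrank F V), wy (sh A (l⁻¹ ^ 3)) k) :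
    ∃ (X : Type u) (_ : AddCommGroup X) (_ : Module F X) (_ : FiniteDimensional F X)
      (B : End F X), finrank F X = n' ∧ LinearMap.det B = LinearMap.det A ∧
      (∀ k, wy (sh B (l ^ 3)) k = wy (sh A l) (k + 1)) ∧
      (∀ μ : F, μ ≠ l → μ ≠ l⁻¹ ^ 3 → wy (sh B (l ^ 2 * μ)) = wy (sh A μ)) ∧
      wy (sh B l⁻¹) = c ∧ (I3 B → I3 A) := by
  have w0 := wy_zero (sh A l)
  have hD : Dom A l := by unfold Dom; omega
  have h0 : l ≠ 0 := ne_zero_of_dom hd hD
  set R : End F (range (sh A l)) := l • 1 + (sh A l).rangeRestrict ∘ₗ (range (sh A l)).subtype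
    with hR
  have rP := (rel h0 h4 _ _ (injective_subtype _) (surjective_rangeRestrict _) LinearMap.id
    (l ^ 2 • R - l⁻¹ • 1) (by rw [← hR]; simp)).2.2
  rw [← sh_factor, comp_id] at rP
  obtain ⟨X, _, _, _, a', b', e1, e2, -⟩ := flanders_suff _ _ rfl (l ^ 2 • R - l⁻¹ • 1) c
    (antitone_nat_of_succ_le hanti) (by rw [rP]; exact hint)
  have e3 : l ^ 2 • R = l⁻¹ • 1 + b' ∘ₗ a' := by rw [e1]; simp
  obtain ⟨r1, r2, r3⟩ := rel h0 h4 _ _ (injective_subtype _) (surjective_rangeRestrict _) a' b' e3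
  rw [← sh_factor] at r1 r2 r3
  unfold rk at w0
  have hX : finrank F X = n' := by
    obtain ⟨m, hm⟩ : ∃ m, finrank F V = m + 1 := ⟨finrank F V - 1, by omega⟩
    have z1 : wy (b' ∘ₗ a') m = 0 := wy_eq_zero _ (by omega)
    have := wy_sum_eq a' b' (m + 1) (by have := wy_inter a' b' m; omega)
      (wy_eq_zero _ (by omega))
    rw [e2, r3] at this
    rw [hm] at hsum
    omega
  refine ⟨X, inferInstance, inferInstance, inferInstance, l⁻¹ • 1 + a' ∘ₗ b', hX, ?_, r1, r2,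
    by rw [sh_add_self, e2], fun hI => ?_⟩
  · have d1 := det_sylv (range (sh A l)).subtype (sh A l).rangeRestrict l h0
    have d2 := det_sylv a' b' l⁻¹ (inv_ne_zero h0)
    rw [← sh_factor, ← hR] at d1
    rw [← e3, LinearMap.det_smul, hX] at d2
    set ρ := finrank F (range (sh A l))
    have k : l ^ (4 * ρ) = l ^ n' * l ^ finrank F V := by rw [← pow_add]; congr 1; omega
    apply mul_right_cancel₀ (pow_ne_zero ρ (inv_ne_zero h0))
    apply mul_right_cancel₀ (pow_ne_zero (2 * ρ) h0)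
    have k2 : LinearMap.det A * l⁻¹ ^ ρ * l ^ (2 * ρ) = LinearMap.det A * l ^ ρ := by
      rw [inv_pow]; field_simp; ring
    rw [d2, k2, d1, inv_pow]
    field_simp
    linear_combination (LinearMap.det R) * k
  · have c1 := cl_of_i3 _ _ hI
    rw [← e3] at c1
    obtain ⟨m, e4, c2⟩ := c1.mutate_back h0 h4
    rw [show m = finrank F V by omega] at c2
    exact ((mstat _).dom h0 h4 hD c2).1

theorem wy_other (A : End F V) {μ l : F} (h : μ ≠ l) : wy (sh A μ) 0 ≤ rk (sh A l) := by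
  have a1 := wy_zero (sh A μ)
  have a2 := rk_add_ker (sh A μ)
  have a3 := Submodule.finrank_mono (ker_le_range_sh A h)
  unfold rk at *
  omega

theorem wy_one (N : End F V) : wy N 1 ≤ rk N := by
  have := wy_add N 1
  rw [pow_one] at this
  omega

end

/-- insert the part `s` into the partition `u` -/
def ins (u : ℕ → ℕ) (s : ℕ) : ℕ → ℕ
  | 0 => max (u 0) s
  | k + 1 => max (u (k + 1)) (min s (u k))

theorem ins_sum {u : ℕ → ℕ} (hu : Antitone u) (s N : ℕ) :
    ∑ k ∈ Finset.range (N + 1), ins u s k + min s (u N) =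
      ∑ k ∈ Finset.range (N + 1), u k + s := by
  induction N with
  | zero => simp [ins]; omega
  | succ N ih =>
    rw [Finset.sum_range_succ _ (N + 1), Finset.sum_range_succ u (N + 1)]
    have : u (N + 1) ≤ u N := hu (Nat.le_succ N)
    have e : ins u s (N + 1) = max (u (N + 1)) (min s (u N)) := rfl
    omega

theorem ins_int {u : ℕ → ℕ} (hu : Antitone u) (s k : ℕ) :
    ins u s (k + 1) ≤ u k ∧ u (k + 1) ≤ ins u s k := by
  have := hu (Nat.le_succ k)
  rcases k with _ | k <;> simp only [ins, Nat.succ_eq_add_one] at this ⊢ <;> omega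

theorem ins_anti {u : ℕ → ℕ} (hu : Antitone u) (s k : ℕ) : ins u s (k + 1) ≤ ins u s k := by
  have := hu (Nat.le_succ k)
  rcases k with _ | k <;> simp only [ins, Nat.succ_eq_add_one] at this ⊢ <;> omega

theorem main (n : ℕ) : ∀ (V : Type u) [AddCommGroup V] [Module F V] [FiniteDimensional F V],
    finrank F V = n → ∀ A : End F V, LinearMap.det A ^ 2 = 1 →
    (∀ l : F, l ^ 4 ≠ 1 → n ≤ 2 * rk (sh A l) ∨
      (n ≤ 2 * rk (sh A l) + 2 ∧ (LinearMap.det A = 1 ∨ ¬ 4 ∣ n))) → I3 A := by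
  induction n using Nat.strong_induction_on with
  | _ n ih =>
  intro V _ _ _ hn A hd H
  by_cases h : ∀ c : F, c ^ 4 ≠ 1 → ¬ Dom A c
  · exact (base n V hn A hd h).1
  push Not at h
  obtain ⟨l, h4, hD⟩ := h
  have h0 : l ≠ 0 := ne_zero_of_dom hd hD
  have w0 := wy_zero (sh A l)
  unfold Dom at hD
  obtain ⟨hb, hs⟩ := (H l h4).resolve_left (by omega)
  obtain ⟨R, d1, rP⟩ := red A h0 h4
  have n2 : l⁻¹ ^ 3 ≠ l := by
    intro h; apply h4
    rw [pow_succ' l 3]; nth_rw 1 [← h]; field_simp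
  have hρ : rk (sh A l) ≠ 0 := by
    intro hz
    rw [hz, LinearMap.det_eq_one_of_finrank_eq_zero hz, pow_zero, mul_one, mul_one] at d1
    rw [d1] at hd
    apply h4
    have : finrank F V = 1 ∨ finrank F V = 2 := by omega
    rcases this with e | e <;> rw [e] at hd
    · linear_combination (l ^ 2 + 1) * hd
    · linear_combination hd
  set u := wy (sh A (l⁻¹ ^ 3)) with hu
  have ua : Antitone u := wy_anti _
  have uz : ∀ k, rk (sh A l) ≤ k → u k = 0 := fun k hk => by rw [← rP]; exact wy_eq_zero _ hk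
  have u0 : u 0 ≤ rk (sh A l) := wy_other A n2
  obtain ⟨c, c0, c1, c2, c3⟩ : ∃ c : ℕ → ℕ, c 0 ≤ rk (sh A l) ∧ (∀ k, c (k + 1) ≤ c k) ∧
      (∀ k, c (k + 1) ≤ u k ∧ u (k + 1) ≤ c k) ∧
      ∑ k ∈ Finset.range n, c k + n = (3 * n - 4 * wy (sh A l) 0) + wy (sh A l) 0 +
        ∑ k ∈ Finset.range n, u k := by
    by_cases h41 : n = 4 ∧ rk (sh A l) = 1
    · obtain ⟨e1, e2⟩ := h41
      have dA : LinearMap.det A = 1 := hs.resolve_right (by rw [e1]; simp)
      obtain ⟨r, hr⟩ := scalar_of_finrank_le_one (le_of_eq e2) R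
      have e2' : finrank F (range (sh A l)) = 1 := e2
      rw [dA, hr, LinearMap.det_smul, e2, e2', hn, e1, map_one] at d1
      have z : l ^ 2 • R - l⁻¹ • 1 = 0 := by
        rw [hr, smul_smul, ← sub_smul, show l ^ 2 * r - l⁻¹ = 0 by
          field_simp
          apply mul_left_cancel₀ h0
          linear_combination -d1, zero_smul]
      have u1 : u 0 = 1 := by
        have := wy_zero (l ^ 2 • R - l⁻¹ • 1)
        rw [rP, z] at this
        have z2 : rk (0 : End F (range (sh A l))) = 0 := by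
          unfold rk; rw [LinearMap.range_zero, finrank_bot]
        omega
      refine ⟨fun _ => 0, by simp, by simp, fun k => ⟨by simp, (uz _ (by omega)).le⟩, ?_⟩
      rw [e1]
      simp only [Finset.sum_range_succ, Finset.sum_range_zero, u1, uz 1 (by omega),
        uz 2 (by omega), uz 3 (by omega)]
      omega
    · obtain ⟨N, hN⟩ : ∃ N, n = N + 1 := ⟨n - 1, by omega⟩
      have := ins_sum ua (2 * n - 3 * wy (sh A l) 0) N
      refine ⟨ins u (2 * n - 3 * wy (sh A l) 0), ?_, ins_anti ua _,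
        ins_int ua _, ?_⟩
      · simp only [ins]; omega
      · rw [uz N (by omega), ← hN] at this
        omega
  obtain ⟨X, _, _, _, B, x1, x2, x3, x4, x5, x6⟩ := step A h4 hd (by omega)
    (3 * n - 4 * wy (sh A l) 0) (by omega) c c1 c2 (by rw [hn]; exact c3)
  refine x6 (ih _ (by omega) X x1 B (by rw [x2, hd]) fun ν _ => Or.inr ⟨?_, ?_⟩)
  · have key : wy (sh B ν) 0 ≤ rk (sh A l) := by
      by_cases c1 : ν = l⁻¹
      · rw [c1, x5]; exact c0
      by_cases c2 : ν = l ^ 3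
      · rw [c2, x3]; exact wy_one _
      have k0 : ν = l ^ 2 * (ν / l ^ 2) := by field_simp
      have k1 : ν / l ^ 2 ≠ l := fun h => c2 (by rw [k0, h]; ring)
      have k2 : ν / l ^ 2 ≠ l⁻¹ ^ 3 := fun h => c1 (by rw [k0, h]; field_simp)
      rw [k0, x4 _ k1 k2]
      exact wy_other A k1
    have := wy_zero (sh B ν)
    omega
  · rw [x2]
    exact hs.imp id fun h => by omega

end Pool.Agent.Lib.MP_530e0f_al.Sharp
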