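import Pool.Agent.Lib.MP_530e0f_al.Rev

/-! A factorisation theorem of Sourour type and transversal subspaces. -/

namespace Pool.Agent.Lib.MP_530e0f_al

open Module Submodule
open LinearMap hiding sub_apply smul_apply add_apply zero_apply neg_apply

universe u

variable {F : Type u} [Field F]

section General

variable {V : Type*} [AddCommGroup V] [Module F V]

theorem nil2_exact {A B : Type*} [AddCommGroup A] [Module F A] [AddCommGroup B] [Module F B]
    (f : End F V) (fA : End F A) (fB : End F B) (i : A →ₗ[F] V) (π : V →ₗ[F] B)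
    (hk : ∀ x, π x = 0 → ∃ y, i y = x) (hi : ∀ y, f (i y) = i (fA y))
    (hπ : ∀ x, π (f x) = fB (π x)) (hA : Nil2 fA) (hB : Nil2 fB) : Nil2 f :=
  nil_exact _ _ _ i π hk (fun y => by simp [hi]) (fun y => by simp [hπ]) hA hB

theorem nil2_one : Nil2 (1 : End F V) := by simp [Nil2]

theorem exists_not_eigen {A : End F V} (h : ∀ c : F, A ≠ c • 1) : ∃ x, ∀ c : F, A x ≠ c • x := by
  by_contra hc
  push Not at hc
  by_cases h0 : ∀ x : V, x = 0
  · exact h 0 (by ext x; rw [h0 x]; simp)
  push Not at h0
  obtain ⟨x0, hx0⟩ := h0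
  obtain ⟨c, hc0⟩ := hc x0
  apply h c
  ext y
  change A y = c • y
  by_cases hy : ∃ t : F, y = t • x0
  · obtain ⟨t, rfl⟩ := hy
    rw [map_smul, hc0, smul_comm]
  push Not at hy
  obtain ⟨f, f1, f2⟩ := exists_fun2 hy
  have hy2 : ∀ t : F, x0 ≠ t • y := by
    intro t ht
    have := congrArg f ht
    rw [map_smul, f1, f2, smul_eq_mul, mul_one] at this
    rw [← this, zero_smul] at ht
    exact hx0 ht
  obtain ⟨g, g1, g2⟩ := exists_fun2 hy2
  obtain ⟨d, hd⟩ := hc y
  obtain ⟨e, he⟩ := hc (x0 + y)
  rw [map_add, hc0, hd] at he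
  have e1 := congrArg f he
  have e2 := congrArg g he
  simp only [map_add, map_smul, f1, f2, g1, g2, smul_eq_mul] at e1 e2
  rw [hd]
  congr 1
  linear_combination e1 - e2

theorem not_union {p q : Submodule F V} (hp : p ≠ ⊤) (hq : q ≠ ⊤) : ∃ x, x ∉ p ∧ x ∉ q := by
  obtain ⟨a, ha⟩ : ∃ a, a ∉ p := by
    by_contra h; push Not at h; exact hp (eq_top_iff'.2 h)
  obtain ⟨b, hb⟩ : ∃ a, a ∉ q := by
    by_contra h; push Not at h; exact hq (eq_top_iff'.2 h)
  by_cases h1 : a ∈ q
  · by_cases h2 : b ∈ p
    · refine ⟨a + b, fun h => ha ?_, fun h => hb ?_⟩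
      · simpa using sub_mem h h2
      · simpa using sub_mem h h1
    · exact ⟨b, h2, hb⟩
  · exact ⟨a, ha, h1⟩

theorem finrank_sup_span [FiniteDimensional F V] {p : Submodule F V} {x : V} (hx : x ∉ p) :
    finrank F ↥(p ⊔ F ∙ x) = finrank F p + 1 := by
  have h0 : x ≠ 0 := fun h => hx (h ▸ zero_mem _)
  have := Submodule.finrank_sup_add_finrank_inf_eq p (F ∙ x)
  rw [finrank_span_singleton h0,
    disjoint_iff.1 ((Submodule.disjoint_span_singleton' h0).2 hx), finrank_bot] at this
  exact this

theorem finrank_sup_span_le [FiniteDimensional F V] (p : Submodule F V) (x : V) :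
    finrank F ↥(p ⊔ F ∙ x) ≤ finrank F p + 1 := by
  by_cases hx : x ∈ p
  · rw [sup_eq_left.2 ((span_singleton_le_iff_mem _ _).2 hx)]; omega
  · rw [finrank_sup_span hx]

theorem finrank_ker_fun [FiniteDimensional F V] (f : V →ₗ[F] F) {x : V} (hx : f x = 1) :
    finrank F (ker f) + 1 = finrank F V := by
  have := rk_add_ker f
  rw [rk_surj f (fun c => ⟨c • x, by simp [hx]⟩), Module.finrank_self] at this
  omega

/-- Schur complement -/
def schur (P : End F V) (x : V) (f : V →ₗ[F] F) (h2 : f (P x) = 1) : End F (ker f) :=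
  ((P - (f ∘ₗ P).smulRight (P x)).domRestrict (ker f)).codRestrict _ (fun h => by simp [h2])

theorem schur_apply (P : End F V) (x : V) (f : V →ₗ[F] F) (h2 : f (P x) = 1) (h : ker f) :
    (schur P x f h2 h : V) = P h - f (P h) • P x := rfl

/-- projection onto the kernel -/
def prk (x : V) (f : V →ₗ[F] F) (h1 : f x = 1) : V →ₗ[F] ker f :=
  (1 - f.smulRight x : End F V).codRestrict _ (fun h => by simp [h1])

theorem prk_apply (x : V) (f : V →ₗ[F] F) (h1 : f x = 1) (v : V) :
    (prk x f h1 v : V) = v - f v • x := rfl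

theorem prk_ker (x : V) (f : V →ₗ[F] F) (h1 : f x = 1) (h : ker f) : prk x f h1 h = h := by
  apply Subtype.ext
  have : f h = 0 := h.2
  simp [prk_apply, this]

theorem prk_self (x : V) (f : V →ₗ[F] F) (h1 : f x = 1) (c : F) : prk x f h1 (c • x) = 0 := by
  apply Subtype.ext
  simp [prk_apply, h1]

theorem schur_det [FiniteDimensional F V] (P : End F V) (x : V) (f : V →ₗ[F] F) (h1 : f x = 1)
    (h2 : f (P x) = 1) : LinearMap.det (schur P x f h2) = LinearMap.det P := by
  let L : End F V := 1 - f.smulRight (P x - x)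
  have dL : LinearMap.det L = 1 := by
    rw [det_exact L (1 : End F (ker f)) (1 : End F F) (ker f).subtype f (injective_subtype _)
      (fun c => ⟨c • x, by simp [h1]⟩) (fun y hy => ⟨⟨y, hy⟩, rfl⟩) (fun y => y.2)
      (fun y => by have : f y = 0 := y.2; simp [L, this]) (fun y => by simp [L, h1, h2])]
    simp
  have dU : LinearMap.det (L * P) = LinearMap.det (schur P x f h2) := by
    rw [det_exact (L * P) (1 : End F F) (schur P x f h2) (toSpanSingleton F V x) (prk x f h1)
      (fun a b h => by simpa [h1] using congrArg f h) (fun y => ⟨y, prk_ker x f h1 y⟩)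
      (fun y hy => ⟨f y, by
        have := congrArg Subtype.val hy
        rw [prk_apply] at this
        exact (sub_eq_zero.1 this).symm⟩) (fun y => prk_self x f h1 y)
      (fun y => by simp [L, h2]) (fun y => by
        apply Subtype.ext
        rw [prk_apply, schur_apply, prk_apply]
        simp only [L, End.mul_apply, LinearMap.sub_apply, End.one_apply,
          smulRight_apply, map_sub, map_smul, h1, h2, smul_eq_mul]
        module)]
    simp
  rw [← dU, map_mul, dL, one_mul]

theorem schur_lift (P : End F V) (x : V) (f : V →ₗ[F] F) (h1 : f x = 1) (h2 : f (P x) = 1)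
    (S1 T1 : End F (ker f)) (h : S1 * T1 = schur P x f h2) (hS : Nil2 S1) (hT : Nil2 T1) :
    ∃ S T : End F V, S * T = P ∧ Nil2 S ∧ Nil2 T := by
  refine ⟨f.smulRight (P x) + (ker f).subtype ∘ₗ S1 ∘ₗ prk x f h1,
    (f ∘ₗ P).smulRight x + (ker f).subtype ∘ₗ T1 ∘ₗ prk x f h1, ?_, ?_, ?_⟩
  · ext v
    have k : ∀ y : ker f, f y = 0 := fun y => y.2
    have e : S1 (T1 (prk x f h1 v)) = schur P x f h2 (prk x f h1 v) := congr($h _)
    simp only [End.mul_apply, LinearMap.add_apply, smulRight_apply, comp_apply, subtype_apply,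
      map_add, prk_self, prk_ker, k, e, zero_add]
    rw [schur_apply, prk_apply]
    simp only [map_sub, map_smul, h1, h2, smul_eq_mul, map_zero, ZeroMemClass.coe_zero]
    module
  · refine nil2_exact _ S1 (1 : End F F) (ker f).subtype f (fun y hy => ⟨⟨y, hy⟩, rfl⟩) ?_ ?_ hS
      nil2_one
    · intro y
      have : f y = 0 := y.2
      simp [this, prk_ker]
    · intro y
      have k : ∀ y : ker f, f y = 0 := fun y => y.2
      simp [k, h2]
  · refine nil2_exact _ (1 : End F F) T1 (toSpanSingleton F V x) (prk x f h1) ?_ ?_ ?_ nil2_one hT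
    · intro y hy
      have := congrArg Subtype.val hy
      rw [prk_apply] at this
      exact ⟨f y, (sub_eq_zero.1 this).symm⟩
    · intro y
      simp only [toSpanSingleton_apply, LinearMap.add_apply, smulRight_apply, comp_apply, prk_self,
        map_zero, add_zero, End.one_apply]
      simp [h2]
    · intro y
      simp only [LinearMap.add_apply, smulRight_apply, comp_apply, map_add, prk_self,
        subtype_apply, prk_ker, zero_add]

theorem inj_of_det [FiniteDimensional F V] {P : End F V} (h : LinearMap.det P ^ 2 = 1) :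
    Function.Injective P := by
  have : IsUnit P := (LinearMap.isUnit_iff_isUnit_det P).2 (IsUnit.of_mul_eq_one _ (by
    rw [← sq]; exact h))
  exact ((Module.End.isUnit_iff _).1 this).1

end General

theorem sourour (n : ℕ) : ∀ (V : Type u) [AddCommGroup V] [Module F V] [FiniteDimensional F V],
    finrank F V = n → ∀ P : End F V, LinearMap.det P ^ 2 = 1 →
    (∀ p : F, P = p • 1 → P * P = 1) → ∃ S T : End F V, S * T = P ∧ Nil2 S ∧ Nil2 T := by
  induction n with
  | zero =>
    intro V _ _ _ hn P _ _
    have : Subsingleton V := Module.finrank_zero_iff.1 hn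
    exact ⟨1, 1, Subsingleton.elim _ _, nil2_one, nil2_one⟩
  | succ n ih =>
    intro V _ _ _ hn P hd hP
    by_cases hs : ∃ p : F, P = p • 1
    · obtain ⟨p, hp⟩ := hs
      exact ⟨P, 1, mul_one _, by simp [Nil2, hP p hp], nil2_one⟩
    push Not at hs
    obtain ⟨x, hx⟩ := exists_not_eigen hs
    have hinj := inj_of_det hd
    have hx0 : x ≠ 0 := by rintro rfl; exact hx 0 (by simp)
    have hPx : P x ≠ 0 := by simpa using hx 0
    obtain ⟨f, h1, h2⟩ : ∃ f : V →ₗ[F] F, f x = 1 ∧ f (P x) = 1 := by
      obtain ⟨f, f1, f2⟩ := exists_fun2 (F := F) (v := x) (w := P x - x) (by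
        intro c hc
        by_cases h0 : c = 0
        · rw [h0, zero_smul] at hc; exact hx0 hc
        · apply hx (c⁻¹ + 1)
          rw [add_smul, one_smul]
          nth_rw 2 [hc]
          rw [smul_smul, inv_mul_cancel₀ h0]; simp)
      exact ⟨f, f1, by rw [map_sub, sub_eq_zero] at f2; rw [f2, f1]⟩
    have main : ∀ (f : V →ₗ[F] F) (h1 : f x = 1) (h2 : f (P x) = 1),
        (∀ p : F, schur P x f h2 = p • 1 → schur P x f h2 * schur P x f h2 = 1) →
        ∃ S T : End F V, S * T = P ∧ Nil2 S ∧ Nil2 T := by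
      intro f h1 h2 h
      obtain ⟨S1, T1, e, k1, k2⟩ := ih (ker f) (by have := finrank_ker_fun f h1; omega) _
        (by rw [schur_det P x f h1 h2]; exact hd) h
      exact schur_lift P x f h1 h2 S1 T1 e k1 k2
    by_cases hc : ∀ p : F, schur P x f h2 = p • 1 → schur P x f h2 * schur P x f h2 = 1
    · exact main f h1 h2 hc
    push Not at hc
    obtain ⟨p, hp, hp2⟩ := hc
    have hdim := finrank_ker_fun f h1
    have hdet : (p ^ finrank F (ker f)) ^ 2 = 1 := by
      rw [← schur_det P x f h1 h2, hp, LinearMap.det_smul] at hd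
      simpa using hd
    have hge : 2 ≤ finrank F (ker f) := by
      by_contra hlt
      apply hp2
      rcases (by omega : finrank F (ker f) = 0 ∨ finrank F (ker f) = 1) with h | h
      · have : Subsingleton (ker f) := Module.finrank_zero_iff.1 h
        exact Subsingleton.elim _ _
      · rw [h, pow_one] at hdet
        rw [hp, smul_mul_smul_comm, ← sq, hdet]; simp
    have hp0 : p ≠ 0 := by
      rintro rfl
      rw [zero_pow (by omega)] at hdet; simp at hdet
    obtain ⟨y, hy⟩ : ∃ y, y ∉ (F ∙ x) ⊔ (F ∙ P x) := by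
      by_contra h; push Not at h
      have h3 := finrank_sup_span_le (F ∙ x) (P x)
      rw [eq_top_iff'.2 h, finrank_top, finrank_span_singleton hx0] at h3
      omega
    obtain ⟨g, g1, g2⟩ := exists_fun hy
    have gx : g x = 0 := g2 _ (mem_sup_left (mem_span_singleton_self _))
    have gP : g (P x) = 0 := g2 _ (mem_sup_right (mem_span_singleton_self _))
    have k1 : (f + g) x = 1 := by simp [h1, gx]
    have k2 : (f + g) (P x) = 1 := by simp [h2, gP]
    refine main (f + g) k1 k2 ?_
    intro p' hp'
    exfalso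
    let h : ker f := prk x f h1 y
    have gh : g h = 1 := by simp [h, prk_apply, gx, g1]
    have fh : f h = 0 := h.2
    let h' : ker (f + g) := ⟨h - x, by simp [gh, fh, gx, h1]⟩
    have e1 : P h - f (P h) • P x = p • (h : V) := congrArg Subtype.val congr($hp h)
    have e2 : P (h - x) - (f + g) (P (h - x)) • P x = p' • ((h : V) - x) :=
      congrArg Subtype.val congr($hp' h')
    have e3 := congrArg g e1
    have e4 := congrArg g e2
    simp only [map_sub, map_smul, gP, gx, gh, smul_eq_mul] at e3 e4
    have e5 : p' = p := by linear_combination e3 - e4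
    rw [e5] at e2
    set d := (f + g) (P (h - x))
    have e6 : p • x = (1 + d - f (P h)) • P x := by
      rw [map_sub] at e2
      linear_combination (norm := module) e2 - e1
    by_cases hz : 1 + d - f (P h) = 0
    · rw [hz, zero_smul, smul_eq_zero] at e6; tauto
    · apply hx ((1 + d - f (P h))⁻¹ * p)
      rw [mul_smul, e6, smul_smul, inv_mul_cancel₀ hz, one_smul]

end Pool.Agent.Lib.MP_530e0f_al
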