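import Pool.Agent.Lib.MP_530e0f_al.Main

/-! Weyr characteristics and Flanders' theorem. -/

namespace Pool.Agent.Lib.MP_530e0f_al

open Module Submodule
open LinearMap hiding sub_apply smul_apply add_apply zero_apply neg_apply

universe u

variable {F : Type u} [Field F]
variable {V U : Type u} [AddCommGroup V] [Module F V] [AddCommGroup U] [Module F U]

/-- Weyr characteristic at zero -/
noncomputable def wy (N : End F V) (k : ℕ) : ℕ := rk (N ^ k) - rk (N ^ (k + 1))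

theorem pow_comp_succ (a : U →ₗ[F] V) (b : V →ₗ[F] U) (k : ℕ) :
    ((a ∘ₗ b : End F V) ^ (k + 1) : End F V) = a ∘ₗ ((b ∘ₗ a : End F U) ^ k : End F U) ∘ₗ b := by
  induction k with
  | zero => ext; simp
  | succ k ih => rw [pow_succ, ih, pow_succ]; ext; simp

theorem sh_pow_comm (a : U →ₗ[F] V) (b : V →ₗ[F] U) (c : F) (k : ℕ) (x : V) :
    b ((sh (a ∘ₗ b) c ^ k) x) = (sh (b ∘ₗ a) c ^ k) (b x) := by
  induction k with
  | zero => simp
  | succ k ih => simp [pow_succ', ← ih]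

theorem rk_smul (N : End F V) {c : F} (hc : c ≠ 0) : rk (c • N) = rk N := by
  unfold rk; rw [LinearMap.range_smul _ _ hc]

theorem wy_smul (N : End F V) {c : F} (hc : c ≠ 0) : wy (c • N) = wy N := by
  ext k; unfold wy
  rw [smul_pow, smul_pow, rk_smul _ (pow_ne_zero _ hc), rk_smul _ (pow_ne_zero _ hc)]

variable [FiniteDimensional F V] [FiniteDimensional F U]

theorem mono_drop (f : V →ₗ[F] U) {S S' : Submodule F V} (h : S ≤ S') :
    finrank F S + finrank F (S'.map f) ≤ finrank F S' + finrank F (S.map f) := by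
  have a1 := finrank_map_add f S
  have a2 := finrank_map_add f S'
  have a3 := Submodule.finrank_mono (inf_le_inf_right (ker f) h)
  omega

theorem rk_pow_succ_le (N : End F V) (k : ℕ) : rk (N ^ (k + 1)) ≤ rk (N ^ k) := by
  rw [pow_succ]; exact rk_comp_le_left _ _

theorem wy_add (N : End F V) (k : ℕ) : wy N k + rk (N ^ (k + 1)) = rk (N ^ k) := by
  have := rk_pow_succ_le N k
  unfold wy; omega

theorem wy_zero (N : End F V) : wy N 0 + rk N = finrank F V := by
  have := wy_add N 0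
  rwa [zero_add, pow_one, pow_zero, rk_surj (1 : End F V) Function.surjective_id] at this

theorem wy_sum (N : End F V) (K : ℕ) :
    ∑ k ∈ Finset.range K, wy N k + rk (N ^ K) = finrank F V := by
  induction K with
  | zero => simpa using rk_surj (1 : End F V) Function.surjective_id
  | succ K ih => rw [Finset.sum_range_succ]; have := wy_add N K; omega

theorem wy_inter (a : U →ₗ[F] V) (b : V →ₗ[F] U) (k : ℕ) :
    wy (a ∘ₗ b) (k + 1) ≤ wy (b ∘ₗ a) k := by
  have a1 := wy_add (a ∘ₗ b) (k + 1)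
  have a2 := wy_add (b ∘ₗ a) k
  rw [pow_comp_succ a b (k + 1), pow_comp_succ a b k] at a1
  set P : End F U := b ∘ₗ a
  have a3 := mono_drop P (range_comp_le_range b (P ^ k))
  have a4 := mono_drop a (show range ((P ^ (k + 1)) ∘ₗ b) ≤ range ((P ^ k) ∘ₗ b) by
    rintro _ ⟨x, rfl⟩; exact ⟨a (b x), by simp [pow_succ, P]⟩)
  rw [← range_comp, ← range_comp] at a3 a4
  have e1 : P ∘ₗ (P ^ k) = P ^ (k + 1) := by rw [pow_succ']; rfl
  have e2 : P ∘ₗ (P ^ k) ∘ₗ b = (P ^ (k + 1)) ∘ₗ b := by rw [← e1]; rfl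
  rw [e1, e2] at a3
  unfold rk at *
  omega

theorem wy_anti (N : End F V) : Antitone (wy N) :=
  antitone_nat_of_succ_le fun k => wy_inter N LinearMap.id k

theorem wy_eq_zero (N : End F V) {k : ℕ} (hk : finrank F V ≤ k) : wy N k = 0 := by
  by_contra h
  have a1 := wy_sum N (k + 1)
  have a2 : ∑ j ∈ Finset.range (k + 1), 1 ≤ ∑ j ∈ Finset.range (k + 1), wy N j :=
    Finset.sum_le_sum fun j hj => by
      have := wy_anti N (show j ≤ k by simpa [Nat.lt_succ_iff] using hj)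
      omega
  simp at a2
  omega

theorem wy_sum_eq (a : U →ₗ[F] V) (b : V →ₗ[F] U) (K : ℕ) (h1 : wy (a ∘ₗ b) K = 0)
    (h2 : wy (b ∘ₗ a) K = 0) : ∑ k ∈ Finset.range K, wy (a ∘ₗ b) k + finrank F U =
      finrank F V + ∑ k ∈ Finset.range K, wy (b ∘ₗ a) k := by
  have a1 := wy_sum (a ∘ₗ b) K
  have a2 := wy_sum (b ∘ₗ a) K
  have a3 := wy_add (a ∘ₗ b) K
  have a4 := wy_add (b ∘ₗ a) K
  rw [pow_comp_succ] at a3 a4
  have a5 := (rk_comp_le_right a (((b ∘ₗ a : End F U) ^ K : End F U) ∘ₗ b)).trans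
    (rk_comp_le_left _ _)
  have a6 := (rk_comp_le_right b (((a ∘ₗ b : End F V) ^ K : End F V) ∘ₗ a)).trans
    (rk_comp_le_left _ _)
  omega

theorem wy_exact (a : U →ₗ[F] V) (b : V →ₗ[F] U) (ha : Function.Injective a)
    (hb : Function.Surjective b) (k : ℕ) : wy (a ∘ₗ b) (k + 1) = wy (b ∘ₗ a) k := by
  have : ∀ j, rk ((a ∘ₗ b : End F V) ^ (j + 1) : End F V) =
      rk ((b ∘ₗ a : End F U) ^ j : End F U) := by
    intro j
    rw [pow_comp_succ]
    unfold rk
    rw [range_comp, finrank_map_inj _ ha, range_comp_of_range_eq_top _ (range_eq_top.2 hb)]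
  unfold wy
  rw [this, this]

omit [FiniteDimensional F V] in
theorem ker_pow_flanders_le (a : U →ₗ[F] V) (b : V →ₗ[F] U) {c : F} (hc : c ≠ 0) (k : ℕ) :
    finrank F (ker (sh (a ∘ₗ b) c ^ k)) ≤ finrank F (ker (sh (b ∘ₗ a) c ^ k)) := by
  let g : ker (sh (a ∘ₗ b) c ^ k) →ₗ[F] ker (sh (b ∘ₗ a) c ^ k) :=
    (b.domRestrict _).codRestrict _ (by
      rintro ⟨x, hx⟩
      rw [mem_ker, domRestrict_apply, ← sh_pow_comm, mem_ker.1 hx, map_zero])
  refine LinearMap.finrank_le_finrank_of_injective (f := g) ?_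
  rw [← ker_eq_bot, eq_bot_iff]
  rintro ⟨x, hx⟩ h
  have h1 : b x = 0 := congrArg Subtype.val h
  have h2 : ∀ j, (sh (a ∘ₗ b) c ^ j) x = (-c) ^ j • x := by
    intro j
    induction j with
    | zero => simp
    | succ j ih => simp [pow_succ', ih, h1, smul_smul, mul_comm]
  have h3 := mem_ker.1 hx
  rw [h2] at h3
  simpa [hc] using h3

theorem wy_flanders (a : U →ₗ[F] V) (b : V →ₗ[F] U) {c : F} (hc : c ≠ 0) :
    wy (sh (a ∘ₗ b) c) = wy (sh (b ∘ₗ a) c) := by
  ext k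
  have e : ∀ j, finrank F (ker (sh (a ∘ₗ b) c ^ j)) = finrank F (ker (sh (b ∘ₗ a) c ^ j)) :=
    fun j => le_antisymm (ker_pow_flanders_le a b hc j) (ker_pow_flanders_le b a hc j)
  have a1 := wy_add (sh (a ∘ₗ b) c) k
  have a2 := wy_add (sh (b ∘ₗ a) c) k
  have a3 := rk_add_ker (sh (a ∘ₗ b) c ^ k)
  have a4 := rk_add_ker (sh (a ∘ₗ b) c ^ (k + 1))
  have a5 := rk_add_ker (sh (b ∘ₗ a) c ^ k)
  have a6 := rk_add_ker (sh (b ∘ₗ a) c ^ (k + 1))
  have a7 := e k
  have a8 := e (k + 1)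
  omega

theorem lift0 (f : U →ₗ[F] V) (i : ℕ) :
    ∃ (X : Type u) (_ : AddCommGroup X) (_ : Module F X) (_ : FiniteDimensional F X)
      (ι : U →ₗ[F] X) (s : X →ₗ[F] V), Function.Injective ι ∧ Function.Surjective s ∧
      s ∘ₗ ι = f ∧ finrank F X + rk f = finrank F U + finrank F V + i := by
  obtain ⟨C, hC⟩ := Submodule.exists_isCompl (range f)
  refine ⟨U × C × (Fin i → F), inferInstance, inferInstance, inferInstance, inl F _ _,
    f.coprod (C.subtype.coprod 0), inl_injective, ?_, by ext; simp, ?_⟩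
  · intro v
    obtain ⟨_, ⟨x, rfl⟩, y, hy, rfl⟩ := mem_sup.1 (hC.sup_eq_top ▸ mem_top : v ∈ range f ⊔ C)
    exact ⟨(x, ⟨y, hy⟩, 0), by simp⟩
  · have := Submodule.finrank_add_eq_of_isCompl hC
    simp only [Module.finrank_prod, Module.finrank_fintype_fun_eq_card, Fintype.card_fin]
    unfold rk; omega

theorem flanders_suff (m : ℕ) : ∀ (U : Type u) [AddCommGroup U] [Module F U]
    [FiniteDimensional F U], finrank F U = m → ∀ (P : End F U) (c : ℕ → ℕ), Antitone c →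
    (∀ k, c (k + 1) ≤ wy P k ∧ wy P (k + 1) ≤ c k) →
    ∃ (X : Type u) (_ : AddCommGroup X) (_ : Module F X) (_ : FiniteDimensional F X)
      (a : U →ₗ[F] X) (b : X →ₗ[F] U), b ∘ₗ a = P ∧ wy (a ∘ₗ b) = c ∧
      finrank F X + finrank F U = rk a + rk b + max (wy P 0) (c 0) := by
  induction m using Nat.strong_induction_on with
  | _ m ih =>
  intro U _ _ _ hm P c hc hi
  have w0 := wy_zero P
  rcases Nat.eq_zero_or_pos (wy P 0) with h0 | h0
  · have hs : Function.Surjective P := surj_of_rk P (by omega)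
    have hb : Function.Surjective (P ∘ₗ LinearMap.fst F U (Fin (c 0) → F)) :=
      hs.comp fst_surjective
    refine ⟨U × (Fin (c 0) → F), inferInstance, inferInstance, inferInstance, inl F _ _,
      P ∘ₗ LinearMap.fst F _ _, by ext; simp, ?_, ?_⟩
    · ext k
      rcases k with _ | k
      · have := wy_zero (inl F U (Fin (c 0) → F) ∘ₗ P ∘ₗ LinearMap.fst F _ _)
        rw [rk_exact _ _ inl_injective hb] at this
        simp at this; omega
      · rw [wy_exact _ _ inl_injective hb, show (P ∘ₗ LinearMap.fst F U (Fin (c 0) → F)) ∘ₗ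
          inl F U (Fin (c 0) → F) = P by ext; simp]
        have := wy_anti P (Nat.zero_le k)
        have := (hi k).1
        omega
    · rw [rk_inj _ inl_injective, rk_surj _ hb, h0]; simp; omega
  have ex := wy_exact (range P).subtype P.rangeRestrict (injective_subtype _)
    (surjective_rangeRestrict _)
  rw [show (range P).subtype ∘ₗ P.rangeRestrict = P from rfl] at ex
  obtain ⟨V1, _, _, _, a1, b1, e1, e2, e3⟩ := ih (finrank F (range P)) (by unfold rk at w0; omega)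
    (range P) rfl (P.rangeRestrict ∘ₗ (range P).subtype) (fun k => c (k + 1))
    (fun i j h => hc (by omega)) (fun k => by rw [← ex, ← ex]; exact hi (k + 1))
  rw [← ex] at e3
  have i1 := (hi 0).1
  have i2 := (hi 0).2
  have i3 := hc (Nat.zero_le 1)
  have i4 := wy_anti P (Nat.zero_le 1)
  simp only [zero_add] at e3 i1 i2
  obtain ⟨U2, _, _, _, iU, sa, k1, k2, k3, k4⟩ :=
    lift0 a1 (min (wy P 0) (c 0) - max (wy P 1) (c 1))
  obtain ⟨V2, _, _, _, iV, sb, l1, l2, l3, l4⟩ := lift0 b1 0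
  obtain ⟨U3, _, _, _, iU', sa', m1, m2, m3, m4⟩ := lift0 (iV ∘ₗ sa) (wy P 0 - min (wy P 0) (c 0))
  obtain ⟨V3, _, _, _, iV', sb', n1, n2, n3, n4⟩ := lift0 (iU ∘ₗ sb) (c 0 - min (wy P 0) (c 0))
  rw [rk_exact _ _ l1 k2] at m4
  rw [rk_exact _ _ k1 l2] at n4
  have k3' : ∀ x, sa (iU x) = a1 x := fun x => congr($k3 x)
  have l3' : ∀ x, sb (iV x) = b1 x := fun x => congr($l3 x)
  have m3' : ∀ x, sa' (iU' x) = iV (sa x) := fun x => congr($m3 x)
  have n3' : ∀ x, sb' (iV' x) = iU (sb x) := fun x => congr($n3 x)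
  obtain ⟨e, f1, f2⟩ := unique_exact (iU' ∘ₗ iU) (sb ∘ₗ sa') (range P).subtype P.rangeRestrict
    (m1.comp k1) (l2.comp m2) (injective_subtype _) (surjective_rangeRestrict _)
    (by rw [← e1]; ext x; simp [m3', k3', l3']) (by unfold rk at *; omega)
  have ea : Function.Surjective (sa' ∘ₗ (e.symm : U →ₗ[F] U3)) := m2.comp e.symm.surjective
  have eb : Function.Injective ((e : U3 →ₗ[F] U) ∘ₗ iU') := e.injective.comp m1
  refine ⟨V3, inferInstance, inferInstance, inferInstance,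
    iV' ∘ₗ sa' ∘ₗ (e.symm : U →ₗ[F] U3), ((e : U3 →ₗ[F] U) ∘ₗ iU') ∘ₗ sb', ?_, ?_, ?_⟩
  · ext x
    obtain ⟨x, rfl⟩ := e.surjective x
    have g1 := f1 (sb (sa' x))
    have g2 := congrArg Subtype.val (f2 x)
    simp only [comp_apply, subtype_apply] at g1 g2
    simp only [comp_apply, LinearEquiv.coe_coe, LinearEquiv.symm_apply_apply, n3', g1]
    exact g2.symm
  · have e4 : (iV' ∘ₗ sa' ∘ₗ (e.symm : U →ₗ[F] U3)) ∘ₗ ((e : U3 →ₗ[F] U) ∘ₗ iU') ∘ₗ sb' =
        (iV' ∘ₗ iV) ∘ₗ (sa ∘ₗ sb') := by ext x; simp [m3']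
    rw [e4]
    have z1 : Function.Injective (iV' ∘ₗ iV) := n1.comp l1
    have z2 : Function.Surjective (sa ∘ₗ sb') := k2.comp n2
    ext k
    rcases k with _ | k
    · have := wy_zero ((iV' ∘ₗ iV) ∘ₗ (sa ∘ₗ sb'))
      rw [rk_exact _ _ z1 z2] at this
      omega
    · rw [wy_exact _ _ z1 z2, show (sa ∘ₗ sb') ∘ₗ iV' ∘ₗ iV = a1 ∘ₗ b1 by
        ext x; simp [n3', k3', l3'], e2]
  · rw [rk_exact _ _ n1 ea, rk_exact _ _ eb n2]
    unfold rk at *; omega

end Pool.Agent.Lib.MP_530e0f_al
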